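import Mathlib

/-!
# The constant `v` of the Pure Greedy Algorithm

`v` is the unique root in `(0,1)` of `v^v = (1-v^2)^(1+v)`.
-/

namespace N298.PGA

open Real Set

/-- `χ(v) = log v - (1+1/v) log (1-v²)`. -/
noncomputable def chi (v : ℝ) : ℝ := log v - (1 + 1 / v) * log (1 - v ^ 2)

lemma chi_zero_iff {v : ℝ} (h0 : 0 < v) (h1 : v < 1) :
    v ^ v = (1 - v ^ 2) ^ (1 + v) ↔ chi v = 0 := by
  have h2 : 0 < 1 - v ^ 2 := by nlinarith
  rw [Real.rpow_def_of_pos h0, Real.rpow_def_of_pos h2, Real.exp_eq_exp, chi]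
  constructor
  · intro h
    have : (1 + 1 / v) * log (1 - v ^ 2) = (log (1 - v ^ 2) * (1 + v)) / v := by
      field_simp; ring
    rw [this, ← h]
    field_simp; ring
  · intro h
    have : log v = (1 + 1 / v) * log (1 - v ^ 2) := by linarith
    rw [this]; field_simp; ring

lemma chi_hasDeriv {v : ℝ} (h0 : 0 < v) (h1 : v < 1) :
    HasDerivAt chi (1 / v + 2 / (1 - v) + log (1 - v ^ 2) / v ^ 2) v := by
  have h2 : 0 < 1 - v ^ 2 := by nlinarith
  have hd1 : HasDerivAt (fun x : ℝ => log x) (v⁻¹) v := Real.hasDerivAt_log h0.ne'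
  have hd2 : HasDerivAt (fun x : ℝ => 1 + 1 / x) (-1 / v ^ 2) v := by
    have := (hasDerivAt_inv h0.ne').const_add 1
    simpa [one_div, div_eq_mul_inv] using this
  have hd3 : HasDerivAt (fun x : ℝ => log (1 - x ^ 2)) ((-(2 * v)) / (1 - v ^ 2)) v := by
    have h3 : HasDerivAt (fun x : ℝ => 1 - x ^ 2) (-(2 * v)) v := by
      have := (hasDerivAt_pow 2 v).const_sub 1
      simpa using this
    exact h3.log h2.ne'
  have h3 : (1 - v) ≠ 0 := by linarith
  have h4 : (1 - v ^ 2) ≠ 0 := h2.ne'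
  have h5 : 1 - v ^ 2 = (1 - v) * (1 + v) := by ring
  have h6 : (1 + v) ≠ 0 := by linarith
  have h := hd1.sub (hd2.mul hd3)
  have h' : HasDerivAt chi
    (v⁻¹ - (-1 / v ^ 2 * log (1 - v ^ 2) + (1 + 1 / v) * (-(2 * v) / (1 - v ^ 2)))) v := h
  refine h'.congr_deriv ?_
  have h7 : (1 + 1 / v) * (-(2 * v) / (1 - v ^ 2)) = - (2 / (1 - v)) := by
    rw [h5]; field_simp; ring
  rw [h7]
  field_simp
  ring

lemma chi_strictMono : StrictMonoOn chi (Ioo (0:ℝ) 1) := by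
  apply strictMonoOn_of_deriv_pos (convex_Ioo 0 1)
  · intro x hx
    exact (chi_hasDeriv hx.1 hx.2).continuousAt.continuousWithinAt
  · intro x hx
    rw [interior_Ioo] at hx
    rw [(chi_hasDeriv hx.1 hx.2).deriv]
    obtain ⟨h0, h1⟩ := hx
    have h2 : 0 < 1 - x ^ 2 := by nlinarith
    have h3 : 1 - (1 - x ^ 2)⁻¹ ≤ log (1 - x ^ 2) := Real.one_sub_inv_le_log_of_pos h2
    have h4 : 0 < x ^ 2 := by positivity
    have h5 : (1 - (1 - x ^ 2)⁻¹) / x ^ 2 ≤ log (1 - x ^ 2) / x ^ 2 := by gcongr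
    have h6 : (1 - (1 - x ^ 2)⁻¹) / x ^ 2 = - (1 / (1 - x ^ 2)) := by
      field_simp; ring
    have h7 : 1 / (1 - x ^ 2) ≤ 2 / (1 - x) := by
      rw [div_le_div_iff₀ h2 (by linarith)]
      nlinarith
    have h8 : 0 < 1 / x := by positivity
    linarith

lemma chi_lo : chi (13/28) < 0 := by
  have h1 : log ((13/28 : ℝ) ^ 13) < log ((615/784 : ℝ) ^ 41) := by
    apply Real.log_lt_log (by positivity)
    norm_num
  rw [Real.log_pow, Real.log_pow] at h1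
  have h2 : (1 - (13/28 : ℝ) ^ 2) = 615/784 := by norm_num
  rw [chi, h2]
  norm_num at h1 ⊢
  linarith

lemma chi_hi : 0 < chi (20/43) := by
  have h1 : log ((1449/1849 : ℝ) ^ 63) < log ((20/43 : ℝ) ^ 20) := by
    apply Real.log_lt_log (by positivity)
    norm_num
  rw [Real.log_pow, Real.log_pow] at h1
  have h2 : (1 - (20/43 : ℝ) ^ 2) = 1449/1849 := by norm_num
  rw [chi, h2]
  norm_num at h1 ⊢
  linarith

/-- `v` is the root of `v^v = (1-v²)^(1+v)` in `(0,1)`. -/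
structure IsRoot (v : ℝ) : Prop where
  pos : 0 < v
  lt_one : v < 1
  eq : v ^ v = (1 - v ^ 2) ^ (1 + v)

theorem exists_root : ∃ v, IsRoot v := by
  have hcont : ContinuousOn chi (Icc (13/28 : ℝ) (20/43)) := by
    intro x hx
    exact (chi_hasDeriv (by linarith [hx.1]) (by linarith [hx.2])).continuousAt.continuousWithinAt
  have := intermediate_value_Icc (by norm_num : (13/28 : ℝ) ≤ 20/43) hcont
  obtain ⟨v, hv, hv0⟩ := this ⟨chi_lo.le, chi_hi.le⟩
  have h0 : 0 < v := by linarith [hv.1]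
  have h1 : v < 1 := by linarith [hv.2]
  exact ⟨v, h0, h1, (chi_zero_iff h0 h1).2 hv0⟩

theorem root_unique {u v : ℝ} (hu : IsRoot u) (hv : IsRoot v) : u = v := by
  have h1 := (chi_zero_iff hu.pos hu.lt_one).1 hu.eq
  have h2 := (chi_zero_iff hv.pos hv.lt_one).1 hv.eq
  exact chi_strictMono.injOn ⟨hu.pos, hu.lt_one⟩ ⟨hv.pos, hv.lt_one⟩ (by rw [h1, h2])

lemma IsRoot.lo {v : ℝ} (h : IsRoot v) : 13/28 < v := by
  by_contra hc
  push Not at hc
  have h2 := (chi_zero_iff h.pos h.lt_one).1 h.eq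
  have := chi_strictMono.monotoneOn ⟨h.pos, h.lt_one⟩ (by norm_num : (13/28:ℝ) ∈ Ioo (0:ℝ) 1) hc
  linarith [chi_lo]

lemma IsRoot.hi {v : ℝ} (h : IsRoot v) : v < 20/43 := by
  by_contra hc
  push Not at hc
  have h2 := (chi_zero_iff h.pos h.lt_one).1 h.eq
  have := chi_strictMono.monotoneOn (by norm_num : (20/43:ℝ) ∈ Ioo (0:ℝ) 1) ⟨h.pos, h.lt_one⟩ hc
  linarith [chi_hi]

/-- `1/v - v = (1/v)^β` with `β = 1/(1+v)`. -/
lemma IsRoot.xs_eq {v : ℝ} (h : IsRoot v) : 1 / v - v = (1 / v) ^ (1 / (1 + v)) := by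
  have h0 := h.pos
  have h2 : 0 < 1 - v ^ 2 := by nlinarith [h.pos, h.lt_one]
  have h3 : v ^ (v / (1 + v)) = 1 - v ^ 2 := by
    rw [show v / (1 + v) = v * (1 + v)⁻¹ from rfl, Real.rpow_mul h0.le, h.eq,
      ← Real.rpow_mul h2.le, mul_inv_cancel₀ (by linarith), Real.rpow_one]
  have h4 : (1 / v) ^ (1 / (1 + v)) = v ^ (-(1 / (1 + v))) := by
    rw [one_div, Real.inv_rpow h0.le, Real.rpow_neg h0.le]
  rw [h4, show -(1 / (1 + v)) = v / (1 + v) - 1 by field_simp; ring, Real.rpow_sub_one h0.ne', h3]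
  field_simp

/-- `(1-v²)^(1/v) = v/(1-v²)`. -/
lemma IsRoot.pow_inv {v : ℝ} (h : IsRoot v) : (1 - v ^ 2) ^ (1 / v) = v / (1 - v ^ 2) := by
  have h0 := h.pos
  have h2 : 0 < 1 - v ^ 2 := by nlinarith [h.pos, h.lt_one]
  have h3 : (1 - v ^ 2) ^ ((1 + v) / v) = v := by
    rw [show (1 + v) / v = (1 + v) * v⁻¹ from rfl, Real.rpow_mul h2.le, ← h.eq,
      ← Real.rpow_mul h0.le, mul_inv_cancel₀ h0.ne', Real.rpow_one]
  rw [show (1 / v) = (1 + v) / v - 1 by field_simp; ring, Real.rpow_sub_one h2.ne', h3]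

end N298.PGA
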