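import Mathlib

/-!
# Definitions for MP_19b6b2_an (Pure Greedy Algorithm)
-/

namespace N298.PGA

variable {H : Type*} [NormedAddCommGroup H] [InnerProductSpace ℝ H]

/-- A dictionary: a set of unit vectors whose span is dense. -/
structure IsDictionary (D : Set H) : Prop where
  norm_eq_one : ∀ g ∈ D, ‖g‖ = 1
  dense_span : closure (Submodule.span ℝ D : Set H) = Set.univ

/-- `A_1^0(D)`: finite sums `∑ c_i g_i` with `g_i ∈ D` and `∑ |c_i| ≤ 1`. -/
def A10 (D : Set H) : Set H :=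
  {f | ∃ (n : ℕ) (c : Fin n → ℝ) (g : Fin n → H),
    (∀ i, g i ∈ D) ∧ ∑ i, |c i| ≤ 1 ∧ f = ∑ i, c i • g i}

/-- `A_1(D)`: the closure of `A_1^0(D)`. -/
def A1 (D : Set H) : Set H := closure (A10 D)

/-- The sequences `φ` (chosen elements `φ 1, φ 2, …`) and `G` (approximants `G 0, G 1, …`) are a
realization of the Pure Greedy Algorithm for `f` up to step `m`. -/
structure IsPGA (D : Set H) (f : H) (m : ℕ) (φ G : ℕ → H) : Prop where
  zero : G 0 = 0
  mem : ∀ k < m, φ (k+1) ∈ D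
  greedy : ∀ k < m, ∀ g ∈ D, |inner ℝ (f - G k) g| ≤ |inner ℝ (f - G k) (φ (k+1))|
  step : ∀ k < m, G (k+1) = G k + (inner ℝ (f - G k) (φ (k+1))) • φ (k+1)

/-- all errors `‖f - G_m‖` -/
def errSet (H : Type*) [NormedAddCommGroup H] [InnerProductSpace ℝ H] (m : ℕ) : Set ℝ :=
  {e | ∃ (D : Set H) (f : H) (φ G : ℕ → H), IsDictionary D ∧ f ∈ A1 D ∧ IsPGA D f m φ G ∧
    e = ‖f - G m‖}

/-- `γ(m)`: the largest possible error of the Pure Greedy Algorithm after `m` steps. -/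
noncomputable def gam (H : Type*) [NormedAddCommGroup H] [InnerProductSpace ℝ H] (m : ℕ) : ℝ :=
  sSup (errSet H m)

end N298.PGA
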