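import Pool.Agent.N298.PGA.Four

/-!
# From the continuous inequality to sequences with zero sum
-/

namespace N298.PGA

open MeasureTheory Set Real Finset

/-- clamp to `[0,1]` -/
noncomputable def cl (z : ℝ) : ℝ := max 0 (min 1 z)

lemma cl_cont : Continuous cl := by unfold cl; fun_prop

lemma cl_nonneg (z : ℝ) : 0 ≤ cl z := le_max_left _ _

lemma cl_le_one (z : ℝ) : cl z ≤ 1 := by
  unfold cl; exact max_le (by norm_num) (min_le_left _ _)

lemma cl_mono : Monotone cl := by
  intro a b h
  unfold cl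
  exact max_le_max le_rfl (min_le_min le_rfl h)

lemma cl_of_nonpos {z : ℝ} (h : z ≤ 0) : cl z = 0 := by
  unfold cl; rw [min_eq_right (by linarith), max_eq_left h]

lemma cl_of_one_le {z : ℝ} (h : 1 ≤ z) : cl z = 1 := by
  unfold cl; rw [min_eq_left h, max_eq_right (by norm_num)]

lemma cl_of_mid {z : ℝ} (h0 : 0 ≤ z) (h1 : z ≤ 1) : cl z = z := by
  unfold cl; rw [min_eq_right h1, max_eq_right h0]

lemma cl_deriv (z : ℝ) :
    HasDerivWithinAt cl (if 0 ≤ z ∧ z < 1 then 1 else 0) (Ioi z) z := by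
  by_cases h0 : 0 ≤ z
  · by_cases h1 : z < 1
    · rw [if_pos ⟨h0, h1⟩]
      have h := (hasDerivAt_id z).hasDerivWithinAt (s := Ioi z)
      refine h.congr_of_eventuallyEq ?_ (cl_of_mid h0 h1.le)
      have : Ioo z 1 ∈ nhdsWithin z (Ioi z) := Ioo_mem_nhdsGT h1
      filter_upwards [this] with w hw
      exact cl_of_mid (by linarith [hw.1]) hw.2.le
    · rw [if_neg (by tauto)]
      push Not at h1
      have h := (hasDerivAt_const z (1:ℝ)).hasDerivWithinAt (s := Ioi z)
      refine h.congr_of_eventuallyEq ?_ (cl_of_one_le h1)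
      filter_upwards [self_mem_nhdsWithin] with w hw
      exact cl_of_one_le (h1.trans (le_of_lt hw))
  · rw [if_neg (by tauto)]
    push Not at h0
    have h := (hasDerivAt_const z (0:ℝ)).hasDerivWithinAt (s := Ioi z)
    refine h.congr_of_eventuallyEq ?_ (cl_of_nonpos h0.le)
    have : Ioo z 0 ∈ nhdsWithin z (Ioi z) := Ioo_mem_nhdsGT h0
    filter_upwards [this] with w hw
    exact cl_of_nonpos hw.2.le

/-- grid points `s_i = log ν_i` -/
noncomputable def sg (c i : ℕ) : ℝ := Real.log (nu c i)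

section

variable {c : ℕ} (hc : 2 ≤ c)

include hc in
lemma exp_sg (i : ℕ) : Real.exp (sg c i) = nu c i := Real.exp_log (nu_pos hc i)

include hc in
lemma sg_lt {i j : ℕ} (h : i < j) : sg c i < sg c j :=
  Real.log_lt_log (nu_pos hc i) (nu_lt h)

include hc in
lemma sg_le {i j : ℕ} (h : i ≤ j) : sg c i ≤ sg c j :=
  Real.log_le_log (nu_pos hc i) (nu_mono h)

include hc in
lemma sg_zero_nonneg : 0 ≤ sg c 0 := Real.log_nonneg (by linarith [two_le_nu hc 0])

include hc in
lemma sg_le_iff (i : ℕ) (t : ℝ) : sg c i ≤ t ↔ 0 ≤ Real.exp t - nu c i := by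
  rw [sg, Real.log_le_iff_le_exp (nu_pos hc i)]
  constructor <;> intro h <;> linarith

include hc in
lemma lt_sg_iff (i : ℕ) (t : ℝ) : t < sg c (i+1) ↔ Real.exp t - nu c i < 1 := by
  rw [sg, Real.lt_log_iff_exp_lt (nu_pos hc _), nu_succ]
  constructor <;> intro h <;> linarith

/-- cell indicator -/
noncomputable def cell (c i : ℕ) (t : ℝ) : ℝ := (Ico (sg c i) (sg c (i+1))).indicator 1 t

include hc in
lemma cell_eq (i : ℕ) (t : ℝ) :
    cell c i t = if 0 ≤ Real.exp t - nu c i ∧ Real.exp t - nu c i < 1 then 1 else 0 := by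
  unfold cell
  rw [Set.indicator_apply]
  simp only [Set.mem_Ico, sg_le_iff hc, lt_sg_iff hc, Pi.one_apply]

include hc in
lemma cell_mul {i j : ℕ} (h : i ≠ j) (t : ℝ) : cell c i t * cell c j t = 0 := by
  rw [cell_eq hc, cell_eq hc]
  split_ifs with h1 h2
  · exfalso
    rcases lt_or_gt_of_ne h with h | h
    · have := nu_mono (c := c) (show i + 1 ≤ j from h)
      rw [nu_succ] at this
      linarith [h1.2, h2.1]
    · have := nu_mono (c := c) (show j + 1 ≤ i from h)
      rw [nu_succ] at this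
      linarith [h1.1, h2.2]
  all_goals simp

lemma cell_sq (i : ℕ) (t : ℝ) : cell c i t * cell c i t = cell c i t := by
  unfold cell
  by_cases h : t ∈ Ico (sg c i) (sg c (i+1))
  · simp [Set.indicator_of_mem h]
  · simp [Set.indicator_of_notMem h]

lemma cell_meas (i : ℕ) : Measurable (cell c i) :=
  measurable_const.indicator measurableSet_Ico

lemma cell_nonneg (i : ℕ) (t : ℝ) : 0 ≤ cell c i t := by
  unfold cell; exact Set.indicator_nonneg (by intro _ _; norm_num) _

lemma cell_le_one (i : ℕ) (t : ℝ) : cell c i t ≤ 1 := by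
  unfold cell
  by_cases h : t ∈ Ico (sg c i) (sg c (i+1))
  · simp [Set.indicator_of_mem h]
  · simp [Set.indicator_of_notMem h]

lemma integral_cell_mul (hc : 2 ≤ c) (i : ℕ) (f : ℝ → ℝ) :
    ∫ t, cell c i t * f t = ∫ t in (sg c i)..(sg c (i+1)), f t := by
  have h1 : (fun t => cell c i t * f t) = (Ico (sg c i) (sg c (i+1))).indicator f := by
    ext t
    unfold cell
    by_cases h : t ∈ Ico (sg c i) (sg c (i+1))
    · simp [Set.indicator_of_mem h]
    · simp [Set.indicator_of_notMem h]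
  rw [h1, integral_indicator measurableSet_Ico, integral_Ico_eq_integral_Ioc,
    intervalIntegral.integral_of_le (sg_le hc (by omega))]

lemma integrable_cell_mul (i : ℕ) (f : ℝ → ℝ) (hf : Continuous f) :
    Integrable (fun t => cell c i t * f t) := by
  have h1 : (fun t => cell c i t * f t) = (Ico (sg c i) (sg c (i+1))).indicator f := by
    ext t
    unfold cell
    by_cases h : t ∈ Ico (sg c i) (sg c (i+1))
    · simp [Set.indicator_of_mem h]
    · simp [Set.indicator_of_notMem h]
  rw [h1, integrable_indicator_iff measurableSet_Ico]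
  exact (hf.integrableOn_Icc (a := sg c i) (b := sg c (i+1))).mono_set Ico_subset_Icc_self

/-- the function `h(e^t)` -/
noncomputable def Hf (c n : ℕ) (x : ℕ → ℝ) (t : ℝ) : ℝ := ∑ i ∈ range n, x i * cell c i t

/-- `X(y)` -/
noncomputable def Xf (c n : ℕ) (x : ℕ → ℝ) (y : ℝ) : ℝ := ∑ i ∈ range n, x i * cl (y - nu c i)

noncomputable def uf (c n : ℕ) (x : ℕ → ℝ) (t : ℝ) : ℝ := Real.exp (t/2) * Hf c n x t

noncomputable def Gf (c n : ℕ) (x : ℕ → ℝ) (t : ℝ) : ℝ := Real.exp (-(t/2)) * Xf c n x (Real.exp t)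

lemma Xf_cont (n : ℕ) (x : ℕ → ℝ) : Continuous (Xf c n x) := by
  unfold Xf
  apply continuous_finsetSum
  intro i _
  exact continuous_const.mul (cl_cont.comp (continuous_id.sub continuous_const))

lemma Gf_cont (n : ℕ) (x : ℕ → ℝ) : Continuous (Gf c n x) := by
  unfold Gf
  exact (by fun_prop : Continuous fun t : ℝ => Real.exp (-(t/2))).mul
    ((Xf_cont n x).comp Real.continuous_exp)

lemma Xf_bdd (n : ℕ) (x : ℕ → ℝ) (y : ℝ) : |Xf c n x y| ≤ ∑ i ∈ range n, |x i| := by
  unfold Xf
  refine (Finset.abs_sum_le_sum_abs _ _).trans (Finset.sum_le_sum fun i _ => ?_)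
  rw [abs_mul, abs_of_nonneg (cl_nonneg _)]
  exact mul_le_of_le_one_right (abs_nonneg _) (cl_le_one _)

lemma Hf_bdd (n : ℕ) (x : ℕ → ℝ) (t : ℝ) : |Hf c n x t| ≤ ∑ i ∈ range n, |x i| := by
  unfold Hf
  refine (Finset.abs_sum_le_sum_abs _ _).trans (Finset.sum_le_sum fun i _ => ?_)
  rw [abs_mul, abs_of_nonneg (cell_nonneg _ _)]
  exact mul_le_of_le_one_right (abs_nonneg _) (cell_le_one _ _)

lemma Xf_of_le (n : ℕ) (x : ℕ → ℝ) {y : ℝ} (hy : y ≤ nu c 0) : Xf c n x y = 0 := by
  unfold Xf
  apply Finset.sum_eq_zero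
  intro i _
  rw [cl_of_nonpos (by linarith [nu_mono (c := c) (Nat.zero_le i)]), mul_zero]

lemma Xf_of_ge (n : ℕ) (x : ℕ → ℝ) (hx : ∑ i ∈ range n, x i = 0) {y : ℝ} (hy : nu c n ≤ y) :
    Xf c n x y = 0 := by
  unfold Xf
  rw [← hx]
  apply Finset.sum_congr rfl
  intro i hi
  rw [Finset.mem_range] at hi
  have := nu_mono (c := c) (show i + 1 ≤ n from hi)
  rw [nu_succ] at this
  rw [cl_of_one_le (by linarith), mul_one]

include hc in
lemma Gf_nice (n : ℕ) (x : ℕ → ℝ) (hx : ∑ i ∈ range n, x i = 0) :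
    Nice (sg c 0) (sg c n) (Gf c n x) := by
  have hsupp : ∀ t, t ∉ Icc (sg c 0) (sg c n) → Gf c n x t = 0 := by
    intro t ht
    unfold Gf
    rw [Set.mem_Icc, not_and_or, not_le, not_le] at ht
    rcases ht with ht | ht
    · rw [Xf_of_le, mul_zero]
      rw [← exp_sg hc 0]; exact (Real.exp_lt_exp.2 ht).le
    · rw [Xf_of_ge n x hx, mul_zero]
      rw [← exp_sg hc n]; exact (Real.exp_lt_exp.2 ht).le
  refine ⟨(Gf_cont n x).measurable, ⟨∑ i ∈ range n, |x i|, fun t => ?_⟩, hsupp⟩
  by_cases ht : t ∈ Icc (sg c 0) (sg c n)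
  · unfold Gf
    rw [abs_mul, abs_of_pos (Real.exp_pos _)]
    have h1 : Real.exp (-(t/2)) ≤ 1 := by
      rw [Real.exp_le_one_iff]
      have := sg_zero_nonneg hc
      linarith [ht.1]
    calc _ ≤ 1 * |Xf c n x (Real.exp t)| := mul_le_mul_of_nonneg_right h1 (abs_nonneg _)
      _ ≤ _ := by rw [one_mul]; exact Xf_bdd n x _
  · rw [hsupp t ht, abs_zero]; exact Finset.sum_nonneg fun i _ => abs_nonneg _

include hc in
lemma uf_nice (n : ℕ) (x : ℕ → ℝ) : Nice (sg c 0) (sg c n) (uf c n x) := by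
  have hsupp : ∀ t, t ∉ Icc (sg c 0) (sg c n) → uf c n x t = 0 := by
    intro t ht
    unfold uf Hf
    rw [Finset.sum_eq_zero, mul_zero]
    intro i hi
    rw [Finset.mem_range] at hi
    unfold cell
    rw [Set.indicator_of_notMem, mul_zero]
    intro h
    apply ht
    exact ⟨(sg_le hc (Nat.zero_le i)).trans h.1, h.2.le.trans (sg_le hc hi)⟩
  refine ⟨?_, ⟨Real.exp (sg c n / 2) * ∑ i ∈ range n, |x i|, fun t => ?_⟩, hsupp⟩
  · unfold uf Hf
    apply Measurable.mul (by fun_prop)
    apply Finset.measurable_fun_sum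
    intro i _
    exact (cell_meas i).const_mul _
  by_cases ht : t ∈ Icc (sg c 0) (sg c n)
  · unfold uf
    rw [abs_mul, abs_of_pos (Real.exp_pos _)]
    apply mul_le_mul _ (Hf_bdd n x t) (abs_nonneg _) (Real.exp_pos _).le
    exact Real.exp_le_exp.2 (by linarith [ht.2])
  · rw [hsupp t ht, abs_zero]
    exact mul_nonneg (Real.exp_pos _).le (Finset.sum_nonneg fun i _ => abs_nonneg _)

include hc in
lemma Gf_deriv (n : ℕ) (x : ℕ → ℝ) (t : ℝ) :
    HasDerivWithinAt (Gf c n x) (uf c n x t - (1/2) * Gf c n x t) (Ioi t) t := by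
  have h1 : HasDerivWithinAt (fun t => Xf c n x (Real.exp t)) (Real.exp t * Hf c n x t) (Ioi t) t := by
    unfold Xf Hf
    have : HasDerivWithinAt (fun t => ∑ i ∈ range n, x i * cl (Real.exp t - nu c i))
        (∑ i ∈ range n, x i * (cell c i t * Real.exp t)) (Ioi t) t := by
      apply HasDerivWithinAt.fun_sum
      intro i _
      apply HasDerivWithinAt.const_mul
      have h2 : HasDerivWithinAt (fun t => Real.exp t - nu c i) (Real.exp t) (Ioi t) t :=
        ((Real.hasDerivAt_exp t).sub_const _).hasDerivWithinAt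
      have h3 := cl_deriv (Real.exp t - nu c i)
      rw [← cell_eq hc] at h3
      have h4 : Set.MapsTo (fun t => Real.exp t - nu c i) (Ioi t) (Ioi (Real.exp t - nu c i)) := by
        intro w hw
        simp only [Set.mem_Ioi] at hw ⊢
        have := Real.exp_lt_exp.2 hw
        linarith
      exact HasDerivWithinAt.comp (h₂ := cl) (h := fun t => Real.exp t - nu c i) t h3 h2 h4
    refine this.congr_deriv ?_
    rw [Finset.mul_sum]
    apply Finset.sum_congr rfl
    intro i _; ring
  have h2 : HasDerivAt (fun t : ℝ => Real.exp (-(t/2))) (Real.exp (-(t/2)) * (-(1/2))) t := by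
    have h3 : HasDerivAt (fun t : ℝ => -(t/2)) (-(1/2)) t :=
      ((hasDerivAt_id t).div_const 2).neg
    exact h3.exp
  have h3 := (h2.hasDerivWithinAt (s := Ioi t)).mul h1
  have h4 : HasDerivWithinAt (Gf c n x) (Real.exp (-(t/2)) * (-(1/2)) * Xf c n x (Real.exp t) +
    Real.exp (-(t/2)) * (Real.exp t * Hf c n x t)) (Ioi t) t := h3
  refine h4.congr_deriv ?_
  unfold uf Gf
  have h5 : Real.exp t = Real.exp (t/2) * Real.exp (t/2) := by
    rw [← Real.exp_add]; congr 1; ring
  have h6 : Real.exp (-(t/2)) * Real.exp (t/2) = 1 := by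
    rw [← Real.exp_add]; simp
  have h7 : Real.exp (-(t/2)) * (Real.exp t * Hf c n x t) = Real.exp (t/2) * Hf c n x t := by
    calc _ = Real.exp (-(t/2)) * (Real.exp (t/2) * Real.exp (t/2) * Hf c n x t) := by
          conv_lhs => rw [h5]
      _ = (Real.exp (-(t/2)) * Real.exp (t/2)) * (Real.exp (t/2) * Hf c n x t) := by ring
      _ = _ := by rw [h6, one_mul]
  rw [h7]; ring

include hc in
lemma uf_sq (n : ℕ) (x : ℕ → ℝ) : ∫ t, uf c n x t ^ 2 = ∑ i ∈ range n, x i ^ 2 := by
  have h1 : ∀ t, uf c n x t ^ 2 = ∑ i ∈ range n, x i ^ 2 * (cell c i t * Real.exp t) := by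
    intro t
    unfold uf Hf
    rw [mul_pow, sq (∑ i ∈ range n, x i * cell c i t), Finset.sum_mul_sum]
    have h2 : ∀ i ∈ range n, ∑ j ∈ range n, x i * cell c i t * (x j * cell c j t) =
        x i ^ 2 * cell c i t := by
      intro i hi
      rw [Finset.sum_eq_single i]
      · calc x i * cell c i t * (x i * cell c i t) = x i ^ 2 * (cell c i t * cell c i t) := by ring
          _ = _ := by rw [cell_sq]
      · intro j _ hj
        calc x i * cell c i t * (x j * cell c j t) = x i * x j * (cell c i t * cell c j t) := by ring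
          _ = 0 := by rw [cell_mul hc (Ne.symm hj)]; ring
      · intro h; exact absurd hi h
    rw [Finset.sum_congr rfl h2, Finset.mul_sum]
    apply Finset.sum_congr rfl
    intro i _
    have h5 : Real.exp (t/2) ^ 2 = Real.exp t := by
      rw [← Real.exp_nat_mul]; congr 1; push_cast; ring
    rw [h5]; ring
  simp_rw [h1]
  rw [integral_finsetSum]
  · apply Finset.sum_congr rfl
    intro i _
    rw [integral_const_mul, integral_cell_mul hc, integral_exp, exp_sg hc, exp_sg hc, nu_succ]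
    ring
  · intro i _
    exact (integrable_cell_mul i _ Real.continuous_exp).const_mul _

/-- the kernel function of cell `j` -/
noncomputable def Kf (v : ℝ) (c j : ℕ) (t : ℝ) : ℝ :=
  cl (Real.exp t / v - nu c j) - cl (Real.exp t - nu c j) - cl (v * Real.exp t - nu c j)

lemma Kf_cont (v : ℝ) (j : ℕ) : Continuous (Kf v c j) := by
  unfold Kf
  refine ((cl_cont.comp ?_).sub (cl_cont.comp ?_)).sub (cl_cont.comp ?_) <;> fun_prop

noncomputable def kk (v : ℝ) (c i j : ℕ) : ℝ := ∫ t in (sg c i)..(sg c (i+1)), Kf v c j t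

include hc in
lemma uV_integral {v : ℝ} (hv : IsRoot v) (n : ℕ) (x : ℕ → ℝ) :
    ∫ t, uf c n x t * (be v * (RR v * Gf c n x (t + Lam v) + (-1) * Gf c n x t
      + (-(RR v)⁻¹) * Gf c n x (t + (- Lam v)))) =
    be v * ∑ i ∈ range n, ∑ j ∈ range n, kk v c i j * x i * x j := by
  have hR := RR_pos hv
  have h1 : ∀ t, uf c n x t * (be v * (RR v * Gf c n x (t + Lam v) + (-1) * Gf c n x t
      + (-(RR v)⁻¹) * Gf c n x (t + (- Lam v)))) =
      ∑ i ∈ range n, ∑ j ∈ range n, (be v * x i * x j) * (cell c i t * Kf v c j t) := by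
    intro t
    have e1 : Real.exp (t/2) * (RR v * Real.exp (-((t + Lam v)/2))) = 1 := by
      rw [← exp_half_Lam hv, ← Real.exp_add, ← Real.exp_add, ← Real.exp_zero]
      congr 1; ring
    have e2 : Real.exp (t/2) * Real.exp (-(t/2)) = 1 := by
      rw [← Real.exp_add]; simp
    have e3 : Real.exp (t/2) * ((RR v)⁻¹ * Real.exp (-((t + (-Lam v))/2))) = 1 := by
      rw [← exp_half_Lam hv, ← Real.exp_neg, ← Real.exp_add, ← Real.exp_add, ← Real.exp_zero]
      congr 1; ring
    have e4 : Real.exp (t + Lam v) = Real.exp t / v := by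
      rw [Real.exp_add, exp_Lam hv]; ring
    have e5 : Real.exp (t + (-Lam v)) = v * Real.exp t := by
      rw [Real.exp_add, Real.exp_neg, exp_Lam hv]; field_simp
    unfold uf Gf
    rw [e4, e5]
    have e6 : Real.exp (t / 2) * Hf c n x t * (be v * (RR v * (Real.exp (-((t + Lam v) / 2)) *
        Xf c n x (Real.exp t / v)) + -1 * (Real.exp (-(t / 2)) * Xf c n x (Real.exp t)) +
        -(RR v)⁻¹ * (Real.exp (-((t + -Lam v) / 2)) * Xf c n x (v * Real.exp t)))) =
        Hf c n x t * (be v * (Xf c n x (Real.exp t / v) - Xf c n x (Real.exp t)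
          - Xf c n x (v * Real.exp t))) := by
      calc _ = Hf c n x t * (be v * ((Real.exp (t/2) * (RR v * Real.exp (-((t + Lam v)/2)))) *
            Xf c n x (Real.exp t / v) - (Real.exp (t/2) * Real.exp (-(t/2))) * Xf c n x (Real.exp t)
            - (Real.exp (t/2) * ((RR v)⁻¹ * Real.exp (-((t + (-Lam v))/2)))) *
              Xf c n x (v * Real.exp t))) := by ring
        _ = _ := by rw [e1, e2, e3]; ring
    rw [e6]
    have e7 : Xf c n x (Real.exp t / v) - Xf c n x (Real.exp t) - Xf c n x (v * Real.exp t) =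
        ∑ j ∈ range n, x j * Kf v c j t := by
      unfold Xf Kf
      rw [← Finset.sum_sub_distrib, ← Finset.sum_sub_distrib]
      apply Finset.sum_congr rfl
      intro j _; ring
    rw [e7]
    unfold Hf
    rw [mul_comm (be v), ← mul_assoc, Finset.sum_mul_sum, Finset.sum_mul]
    apply Finset.sum_congr rfl
    intro i _
    rw [Finset.sum_mul]
    apply Finset.sum_congr rfl
    intro j _
    ring
  simp_rw [h1]
  rw [integral_finsetSum, Finset.mul_sum]
  · apply Finset.sum_congr rfl
    intro i _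
    rw [integral_finsetSum, Finset.mul_sum]
    · apply Finset.sum_congr rfl
      intro j _
      rw [integral_const_mul, integral_cell_mul hc]
      unfold kk
      ring
    · intro j _
      exact (integrable_cell_mul i _ (Kf_cont v j)).const_mul _
  · intro i _
    apply integrable_finsetSum
    intro j _
    exact (integrable_cell_mul i _ (Kf_cont v j)).const_mul _

include hc in
/-- the inequality for sequences with zero sum -/
theorem CTseq {v : ℝ} (hv : IsRoot v) (n : ℕ) (x : ℕ → ℝ) (hx : ∑ i ∈ range n, x i = 0) :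
    0 ≤ (9/10) * (∑ i ∈ range n, x i ^ 2) +
      2 * be v * ∑ i ∈ range n, ∑ j ∈ range n, kk v c i j * x i * x j := by
  have h := CT hv (sg_le hc (Nat.zero_le n)) (Gf_nice hc n x hx) (Gf_cont n x) (uf_nice hc n x)
    (Gf_deriv hc n x)
  rw [uf_sq hc, uV_integral hc hv] at h
  linarith

end

end N298.PGA
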