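import Pool.Agent.N298.PGA.Row

/-!
# `F(0,j) = O(1/ν_j)`
-/

namespace N298.PGA

open Set Real Finset

section

variable {c : ℕ} (hc' : 2000 ≤ c) {v : ℝ} (hv : IsRoot v)

open Classical in
include hc' hv in
theorem FF_zero_bound (j : ℕ) :
    |FF (aa (be v) c) (rho (be v) c) (NN v c) 0 j| ≤ (8 * c + 100) / nu c j := by
  have hc : 2 ≤ c := by omega
  have S := sysNN hv hc
  have hb := be_pos hv
  have hb1 := be_lt hv
  have hvp := hv.pos
  have hv1 := hv.lt_one
  have hvlo := hv.lo
  have hj := nu_pos hc j
  have hcr : (2000:ℝ) ≤ c := by exact_mod_cast hc'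
  have hjc : (c:ℝ) ≤ nu c j := c_le_nu c j
  set a := aa (be v) c with ha
  set ρ := rho (be v) c with hρ
  set G := Gm a ρ (NN v c) with hG
  -- split index
  set l : ℕ := ⌊v * nu c j - c⌋₊ with hl
  have hl1 : v * nu c j - 1 < nu c l := by
    have := Nat.lt_floor_add_one (v * nu c j - c)
    have e : nu c l = (l:ℝ) + c := rfl
    linarith
  have hl2 : l = 0 ∨ nu c l ≤ v * nu c j := by
    rcases Nat.eq_zero_or_pos l with h | h
    · exact Or.inl h
    · right
      have h2 : 0 ≤ v * nu c j - c := by
        by_contra hcon
        push Not at hcon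
        have := Nat.floor_of_nonpos hcon.le
        omega
      have := Nat.floor_le h2
      have e : nu c l = (l:ℝ) + c := rfl
      linarith
  have hlj : l ≤ j := by
    rcases hl2 with h | h
    · omega
    · by_contra hcon
      push Not at hcon
      have := nu_lt (c := c) hcon
      nlinarith
  -- the comparison
  have hF : FF a ρ (NN v c) 0 j = a j + ∑ k ∈ range j, a k * G k j := by
    unfold FF
    rw [Finset.Ico_eq_empty_of_le (a := j) (b := 0) (Nat.zero_le j), Finset.sum_empty, sub_zero,
      Finset.range_eq_Ico]
  -- main term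
  set T : ℕ → ℝ := fun k => if k < l then - ρ j else ρ k with hT
  have hmain : ∑ k ∈ range j, a k * T k = - ρ j * (∑ k ∈ range l, a k) + (a l - a j) := by
    rw [Finset.range_eq_Ico, ← Finset.sum_Ico_consecutive (fun k => a k * T k) (Nat.zero_le l) hlj]
    have e1 : ∑ k ∈ Finset.Ico 0 l, a k * T k = - ρ j * (∑ k ∈ range l, a k) := by
      rw [Finset.range_eq_Ico, Finset.mul_sum]
      apply Finset.sum_congr rfl
      intro k hk
      rw [Finset.mem_Ico] at hk
      simp only [hT, if_pos hk.2]; ring
    have e2 : ∑ k ∈ Finset.Ico l j, a k * T k = a l - a j := by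
      rw [← S.sum_rho l j hlj]
      apply Finset.sum_congr rfl
      intro k hk
      rw [Finset.mem_Ico] at hk
      simp only [hT, if_neg (not_lt.2 hk.1)]
    rw [e1, e2]
  -- window
  set W : ℕ → Prop := fun k => v * nu c j - 1 ≤ nu c k ∧ nu c k ≤ v * nu c j + 3 with hW
  have hdiff : ∀ k ∈ range j, |a k * G k j - a k * T k| ≤ if W k then 10 / nu c j else 0 := by
    intro k hk
    rw [Finset.mem_range] at hk
    have hkp := nu_pos hc k
    have hNlo := NN_ge hv hc k
    have hNhi := NN_le hv hc k
    by_cases hw : W k
    · rw [if_pos hw]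
      have h1 : |G k j| ≤ ρ k := S.Gm_abs_le k j hk
      have h2 : |T k| ≤ ρ k := by
        simp only [hT]
        split_ifs
        · rw [abs_neg, abs_of_pos (S.rpos j)]; exact S.anti hk.le
        · rw [abs_of_pos (S.rpos k)]
      have h3 : a k ≤ 1 := aa_le_one hb hb1 hc k
      have h4 : 0 < a k := S.apos k
      have h5 : ρ k ≤ 5 / nu c j := by
        rw [hρ]; unfold rho
        rw [div_le_div_iff₀ hkp hj]
        have h6 := hw.1
        have h7 : be v < 683/1000 := be_lt' hv
        nlinarith
      rw [← mul_sub, abs_mul, abs_of_pos h4]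
      have h6 : |G k j - T k| ≤ 2 * ρ k := by
        have := abs_sub (G k j) (T k)
        linarith
      have h7 : 10 / nu c j = 2 * (5 / nu c j) := by ring
      calc a k * |G k j - T k| ≤ 1 * |G k j - T k| := mul_le_mul_of_nonneg_right h3 (abs_nonneg _)
        _ ≤ _ := by linarith
    · rw [if_neg hw]
      have heq : G k j = T k := by
        rw [hG, Gm_lt hk, Kup]
        simp only [hT]
        by_cases hkl : k < l
        · rw [if_pos hkl]
          have hl3 : nu c l ≤ v * nu c j := by
            rcases hl2 with h | h
            · omega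
            · exact h
          have hkl' := nu_lt (c := c) hkl
          have hN : NN v c k < j := by
            by_contra hcon
            push Not at hcon
            have h1 := nu_mono (c := c) hcon
            have h2 : nu c j < nu c k / v + 1 := by linarith
            have h3 : v * nu c j - 1 ≤ nu c k := by
              rw [← sub_lt_iff_lt_add, lt_div_iff₀ hvp] at h2
              nlinarith
            exact hw ⟨h3, by linarith⟩
          rw [if_neg (by omega), if_neg (by omega)]
        · rw [if_neg hkl]
          push Not at hkl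
          have hkl' := nu_mono (c := c) hkl
          have hN : j < NN v c k := by
            by_contra hcon
            push Not at hcon
            have h1 := nu_mono (c := c) hcon
            have h2 : nu c k / v - 5 ≤ nu c j := by linarith
            have h3 : nu c k ≤ v * nu c j + 3 := by
              rw [sub_le_iff_le_add, div_le_iff₀ hvp] at h2
              nlinarith [hv.hi]
            exact hw ⟨by linarith, h3⟩
          rw [if_pos hN]
      rw [heq, sub_self, abs_zero]
  have hsum : |∑ k ∈ range j, a k * G k j - ∑ k ∈ range j, a k * T k| ≤ 50 / nu c j := by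
    rw [← Finset.sum_sub_distrib]
    calc _ ≤ ∑ k ∈ range j, |a k * G k j - a k * T k| := Finset.abs_sum_le_sum_abs _ _
      _ ≤ ∑ k ∈ range j, (if W k then 10 / nu c j else 0) := Finset.sum_le_sum hdiff
      _ = (((range j).filter W).card : ℝ) * (10 / nu c j) := by
          rw [← Finset.sum_filter, Finset.sum_const, nsmul_eq_mul]
      _ ≤ 5 * (10 / nu c j) := by
          apply mul_le_mul_of_nonneg_right _ (by positivity)
          have : ((range j).filter W).card ≤ 4 + 1 := by
            apply card_window _ (v * nu c j - 1 - c)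
            intro k hk
            rw [Finset.mem_filter] at hk
            obtain ⟨_, hk1, hk2⟩ := hk
            have e : nu c k = (k:ℝ) + c := rfl
            push_cast
            constructor <;> linarith
          exact_mod_cast this
      _ = 50 / nu c j := by ring
  -- main term estimate
  have hbsum : ∑ k ∈ range l, a k = (bb (be v) c l - bb (be v) c 0) / (v * be v) := by
    have h := sum_aa (β := be v) hc 0 l (Nat.zero_le l)
    rw [one_sub_be hv] at h
    rw [Finset.range_eq_Ico, ← h]
    field_simp
    rfl
  have hM : |a j + (- ρ j * (∑ k ∈ range l, a k) + (a l - a j))| ≤ (8 * c + 50) / nu c j := by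
    have e1 : a j + (- ρ j * (∑ k ∈ range l, a k) + (a l - a j)) =
        (a l * (v * nu c j - nu c l + 1) + (c - 1)) / (v * nu c j) := by
      rw [hbsum, hρ]; unfold rho bb
      have : nu c 0 = c := by simp [nu]
      rw [this, aa_zero]
      field_simp
      ring
    rw [e1, abs_div, abs_of_pos (by positivity : 0 < v * nu c j)]
    have h1 : a l ≤ 1 := aa_le_one hb hb1 hc l
    have h2 : 0 < a l := S.apos l
    have h3 : |a l * (v * nu c j - nu c l + 1) + (c - 1)| ≤ 2 * c + 2 := by
      have h4 : v * nu c j - nu c l + 1 ≤ 2 := by linarith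
      have h5 : -(c:ℝ) ≤ v * nu c j - nu c l + 1 := by
        rcases hl2 with h | h
        · have : nu c l = c := by rw [h]; simp [nu]
          rw [this]; nlinarith
        · linarith
      have h6 : a l * (v * nu c j - nu c l + 1) ≤ 2 := by nlinarith
      have h7 : -(c:ℝ) ≤ a l * (v * nu c j - nu c l + 1) := by nlinarith
      rw [abs_le]; constructor <;> linarith
    rw [div_le_div_iff₀ (by positivity) hj]
    have h8 : (2 * (c:ℝ) + 2) * nu c j ≤ (8 * c + 50) * (v * nu c j) := by
      have : 2 * (c:ℝ) + 2 ≤ (8 * c + 50) * v := by nlinarith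
      nlinarith
    calc _ ≤ (2 * (c:ℝ) + 2) * nu c j := mul_le_mul_of_nonneg_right h3 hj.le
      _ ≤ _ := h8
  rw [hF]
  have e : a j + ∑ k ∈ range j, a k * G k j = (a j + ∑ k ∈ range j, a k * T k) +
      (∑ k ∈ range j, a k * G k j - ∑ k ∈ range j, a k * T k) := by ring
  rw [e, hmain]
  have e2 : (8 * (c:ℝ) + 100) / nu c j = (8 * c + 50) / nu c j + 50 / nu c j := by ring
  rw [e2]
  exact (abs_add_le _ _).trans (add_le_add hM (by rw [← hmain]; exact hsum))

end

end N298.PGA
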