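import Pool.Agent.N298.PGA.NEst

/-!
# The continuous positivity inequality, by Fourier series
-/

namespace N298.PGA

open MeasureTheory Set Real

section trig

variable {v : ℝ} (hv : IsRoot v)

noncomputable def Lam (v : ℝ) : ℝ := - Real.log v
noncomputable def RR (v : ℝ) : ℝ := 1 / Real.sqrt v

include hv

lemma Lam_pos : 0 < Lam v := by
  unfold Lam
  linarith [Real.log_neg hv.pos hv.lt_one]

lemma Lam_lt : Lam v < 79/100 := by
  unfold Lam
  have h1 : (28/13 : ℝ) < Real.exp (79/100) := by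
    have := Real.sum_le_exp_of_nonneg (x := 79/100) (by norm_num) 5
    norm_num [Finset.sum_range_succ, Nat.factorial] at this
    linarith
  have h2 : Real.log (28/13) < 79/100 := by
    rw [Real.log_lt_iff_lt_exp (by norm_num)]; exact h1
  have h3 : Real.log (13/28) ≤ Real.log v := Real.log_le_log (by norm_num) hv.lo.le
  have h4 : Real.log (13/28) = - Real.log (28/13) := by
    rw [← Real.log_inv]; norm_num
  linarith

lemma exp_Lam : Real.exp (Lam v) = 1 / v := by
  unfold Lam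
  rw [Real.exp_neg, Real.exp_log hv.pos, one_div]

lemma RR_pos : 0 < RR v := by
  unfold RR; have := Real.sqrt_pos.2 hv.pos; positivity

lemma RR_sq : RR v ^ 2 = 1 / v := by
  unfold RR; rw [div_pow, Real.sq_sqrt hv.pos.le]; norm_num

lemma RR_lt : RR v < 1468/1000 := by
  have h := RR_sq hv
  have hp := RR_pos hv
  have h2 : 1 / v < 28/13 := by
    rw [div_lt_iff₀ hv.pos]; linarith [hv.lo]
  nlinarith

lemma RR_gt : 1466/1000 < RR v := by
  have h := RR_sq hv
  have hp := RR_pos hv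
  have h2 : 43/20 < 1 / v := by
    rw [lt_div_iff₀ hv.pos]; linarith [hv.hi]
  nlinarith

lemma exp_half_Lam : Real.exp (Lam v / 2) = RR v := by
  have h1 : Real.exp (Lam v / 2) ^ 2 = RR v ^ 2 := by
    rw [← Real.exp_nat_mul, RR_sq hv, ← exp_Lam hv]; congr 1; push_cast; ring
  have h2 := RR_pos hv
  have h3 := Real.exp_pos (Lam v / 2)
  nlinarith

/-- `p = (1-v) R/(1+v)` -/
noncomputable def pp (v : ℝ) : ℝ := (1 - v) * RR v / (1 + v)

omit hv in
lemma RR_inv : (RR v)⁻¹ = Real.sqrt v := by unfold RR; simp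

lemma beR1 : be v * (RR v - (RR v)⁻¹) = pp v := by
  have h := RR_sq hv
  have hp := RR_pos hv
  have hvp := hv.pos
  have h2 : (RR v)⁻¹ = v * RR v := by
    rw [inv_eq_iff_eq_inv, mul_inv, ← one_div v, ← h]; field_simp
  rw [h2]; unfold be pp; field_simp

lemma beR2 : be v * (RR v + (RR v)⁻¹) = RR v := by
  have h := RR_sq hv
  have hp := RR_pos hv
  have hvp := hv.pos
  have h2 : (RR v)⁻¹ = v * RR v := by
    rw [inv_eq_iff_eq_inv, mul_inv, ← one_div v, ← h]; field_simp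
  rw [h2]; unfold be; field_simp

lemma pp_lo : 535/1000 < pp v := by
  unfold pp
  have := hv.pos
  rw [lt_div_iff₀ (by linarith)]
  have h1 := RR_gt hv
  have h2 := hv.hi
  have h3 := hv.lo
  nlinarith

lemma pp_hi : pp v < 54/100 := by
  unfold pp
  have := hv.pos
  rw [div_lt_iff₀ (by linarith)]
  have h1 := RR_lt hv
  have h2 := hv.hi
  have h3 := hv.lo
  nlinarith

lemma be_lt' : be v < 683/1000 := by
  unfold be
  have := hv.pos
  rw [div_lt_iff₀ (by linarith)]
  linarith [hv.lo]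

/-- The symbol inequality. -/
theorem symbol (ω : ℝ) :
    0 ≤ (9/10) * (ω ^ 2 + 1/4) - be v + pp v * Real.cos (ω * Lam v)
      + 2 * RR v * ω * Real.sin (ω * Lam v) := by
  have hL := Lam_pos hv
  have hL2 := Lam_lt hv
  have hR := RR_pos hv
  have hR2 := RR_lt hv
  have hp := pp_lo hv
  have hp2 := pp_hi hv
  have hb := be_lt' hv
  rcases le_or_gt |ω * Lam v| Real.pi with h | h
  · rw [abs_le] at h
    have hs : 0 ≤ ω * Real.sin (ω * Lam v) := by
      rcases le_total 0 ω with h0 | h0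
      · exact mul_nonneg h0 (Real.sin_nonneg_of_nonneg_of_le_pi (by positivity) h.2)
      · exact mul_nonneg_of_nonpos_of_nonpos h0
          (Real.sin_nonpos_of_nonpos_of_neg_pi_le (mul_nonpos_of_nonpos_of_nonneg h0 hL.le) h.1)
    have hc := Real.one_sub_sq_div_two_le_cos (x := ω * Lam v)
    have hc2 : pp v * (1 - (ω * Lam v) ^ 2 / 2) ≤ pp v * Real.cos (ω * Lam v) :=
      mul_le_mul_of_nonneg_left hc (by linarith)
    have h1 : Lam v ^ 2 ≤ 1 := by nlinarith
    have h2 : pp v * ((ω * Lam v) ^ 2 / 2) ≤ (1/2) * ω ^ 2 := by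
      have : (ω * Lam v) ^ 2 ≤ ω ^ 2 := by rw [mul_pow]; nlinarith [sq_nonneg ω]
      nlinarith [sq_nonneg ω, sq_nonneg (ω * Lam v)]
    have h3 : 2 * RR v * ω * Real.sin (ω * Lam v) = 2 * RR v * (ω * Real.sin (ω * Lam v)) := by ring
    rw [h3]
    have h4 : 0 ≤ 2 * RR v * (ω * Real.sin (ω * Lam v)) := by positivity
    nlinarith [sq_nonneg ω]
  · have h1 : |ω * Lam v| = |ω| * Lam v := by rw [abs_mul, abs_of_pos hL]
    rw [h1] at h
    have hpi := Real.pi_gt_d2
    have h2 : 397/100 < |ω| := by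
      by_contra hc
      push Not at hc
      nlinarith [abs_nonneg ω]
    have h3 : - |ω| ≤ ω * Real.sin (ω * Lam v) := by
      have := neg_abs_le (ω * Real.sin (ω * Lam v))
      rw [abs_mul] at this
      have h4 := Real.abs_sin_le_one (ω * Lam v)
      nlinarith [abs_nonneg ω]
    have h5 : -1 ≤ Real.cos (ω * Lam v) := Real.neg_one_le_cos _
    have h6 : ω ^ 2 = |ω| ^ 2 := (sq_abs ω).symm
    have h7 : 2 * RR v * ω * Real.sin (ω * Lam v) = 2 * RR v * (ω * Real.sin (ω * Lam v)) := by ring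
    rw [h7, h6]
    have h8 : 2 * RR v * (-|ω|) ≤ 2 * RR v * (ω * Real.sin (ω * Lam v)) :=
      mul_le_mul_of_nonneg_left h3 (by linarith)
    have h9 : pp v * (-1) ≤ pp v * Real.cos (ω * Lam v) :=
      mul_le_mul_of_nonneg_left h5 (by linarith)
    nlinarith

end trig

section fourier

/-- `e^{-iωt}` -/
noncomputable def Ek (ω t : ℝ) : ℂ := Complex.exp (-(ω * t : ℝ) * Complex.I)

lemma Ek_cont (ω : ℝ) : Continuous (Ek ω) := by
  unfold Ek; fun_prop

lemma Ek_norm (ω t : ℝ) : ‖Ek ω t‖ = 1 := by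
  unfold Ek
  have : (-(ω * t : ℝ) * Complex.I : ℂ) = ((-(ω * t) : ℝ) : ℂ) * Complex.I := by push_cast; ring
  rw [this, Complex.norm_exp_ofReal_mul_I]

lemma Ek_add (ω s t : ℝ) : Ek ω (s + t) = Ek ω s * Ek ω t := by
  unfold Ek
  rw [← Complex.exp_add]; congr 1; push_cast; ring

lemma Ek_hasDeriv (ω t : ℝ) : HasDerivAt (Ek ω) (-(Complex.I * ω) * Ek ω t) t := by
  unfold Ek
  have h1 : HasDerivAt (fun t : ℝ => ((ω * t : ℝ) : ℂ)) (ω : ℂ) t := by
    have : HasDerivAt (fun t : ℝ => ω * t) ω t := by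
      simpa using (hasDerivAt_id t).const_mul ω
    exact this.ofReal_comp
  have h2 : HasDerivAt (fun t : ℝ => Complex.exp (-((ω * t : ℝ) : ℂ) * Complex.I))
    (Complex.exp (-((ω * t : ℝ) : ℂ) * Complex.I) * (-ω * Complex.I)) t :=
    ((h1.neg).mul_const Complex.I).cexp
  refine h2.congr_deriv ?_
  ring

/-- transform -/
noncomputable def FT (ω : ℝ) (f : ℝ → ℝ) : ℂ := ∫ t, Ek ω t * (f t : ℂ)

lemma FT_shift (ω L : ℝ) (f : ℝ → ℝ) : FT ω (fun t => f (t + L)) = Ek ω (-L) * FT ω f := by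
  unfold FT
  have h := integral_add_right_eq_self (μ := (volume : Measure ℝ))
    (fun t => Ek ω (t - L) * (f t : ℂ)) L
  have h2 : (fun t => Ek ω (t + L - L) * ((f (t + L) : ℝ) : ℂ)) =
      fun t => Ek ω t * ((f (t + L) : ℝ) : ℂ) := by
    ext t; rw [add_sub_cancel_right]
  rw [h2] at h
  rw [h, ← integral_const_mul]
  congr 1
  ext t
  rw [sub_eq_add_neg, Ek_add]; ring

/-- bounded measurable functions with support in `Icc A B`. -/
structure Nice (A B : ℝ) (f : ℝ → ℝ) : Prop where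
  meas : Measurable f
  bdd : ∃ C, ∀ t, |f t| ≤ C
  supp : ∀ t, t ∉ Icc A B → f t = 0

lemma Nice.integrable {A B : ℝ} {f : ℝ → ℝ} (h : Nice A B f) : Integrable f := by
  obtain ⟨C, hC⟩ := h.bdd
  have h1 : IntegrableOn f (Icc A B) := by
    apply Measure.integrableOn_of_bounded (M := C) (by simp) h.meas.aestronglyMeasurable
    exact Filter.Eventually.of_forall (fun t => by simpa using hC t)
  rw [← integrableOn_iff_integrable_of_support_subset (s := Icc A B)]
  · exact h1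
  · intro t ht
    by_contra hc
    exact ht (h.supp t hc)

lemma Nice.mul {A B A' B' : ℝ} {f g : ℝ → ℝ} (hf : Nice A B f) (hg : Nice A' B' g) :
    Nice A B (fun t => f t * g t) := by
  obtain ⟨C, hC⟩ := hf.bdd
  obtain ⟨C', hC'⟩ := hg.bdd
  refine ⟨hf.meas.mul hg.meas, ⟨C * C', fun t => ?_⟩, fun t ht => by simp [hf.supp t ht]⟩
  rw [abs_mul]
  exact mul_le_mul (hC t) (hC' t) (abs_nonneg _) ((abs_nonneg _).trans (hC t))

lemma Nice.add {A B : ℝ} {f g : ℝ → ℝ} (hf : Nice A B f) (hg : Nice A B g) :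
    Nice A B (fun t => f t + g t) := by
  obtain ⟨C, hC⟩ := hf.bdd
  obtain ⟨C', hC'⟩ := hg.bdd
  refine ⟨hf.meas.add hg.meas, ⟨C + C', fun t => ?_⟩,
    fun t ht => by simp [hf.supp t ht, hg.supp t ht]⟩
  exact (abs_add_le _ _).trans (add_le_add (hC t) (hC' t))

lemma Nice.const_mul {A B : ℝ} {f : ℝ → ℝ} (hf : Nice A B f) (k : ℝ) :
    Nice A B (fun t => k * f t) := by
  obtain ⟨C, hC⟩ := hf.bdd
  refine ⟨hf.meas.const_mul k, ⟨|k| * C, fun t => ?_⟩, fun t ht => by simp [hf.supp t ht]⟩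
  rw [abs_mul]; exact mul_le_mul_of_nonneg_left (hC t) (abs_nonneg _)

lemma Nice.mono {A B A' B' : ℝ} {f : ℝ → ℝ} (hf : Nice A B f) (h1 : A' ≤ A) (h2 : B ≤ B') :
    Nice A' B' f :=
  ⟨hf.meas, hf.bdd, fun t ht => hf.supp t (fun h => ht ⟨h1.trans h.1, h.2.trans h2⟩)⟩

lemma Nice.shift {A B : ℝ} {f : ℝ → ℝ} (hf : Nice A B f) (L : ℝ) :
    Nice (A - L) (B - L) (fun t => f (t + L)) := by
  obtain ⟨C, hC⟩ := hf.bdd
  refine ⟨hf.meas.comp (measurable_id.add_const L), ⟨C, fun t => hC _⟩, fun t ht => hf.supp _ ?_⟩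
  intro h; apply ht; exact ⟨by linarith [h.1], by linarith [h.2]⟩

lemma Nice.integrableE {A B : ℝ} {f : ℝ → ℝ} (h : Nice A B f) (ω : ℝ) :
    Integrable (fun t => Ek ω t * (f t : ℂ)) := by
  have h1 : Integrable (fun t => (f t : ℂ)) := h.integrable.ofReal
  apply h1.bdd_mul (c := 1) (Ek_cont ω).aestronglyMeasurable
  exact Filter.Eventually.of_forall (fun t => by rw [Ek_norm])

lemma FT_add {A B : ℝ} {f g : ℝ → ℝ} (hf : Nice A B f) (hg : Nice A B g) (ω : ℝ) :
    FT ω (fun t => f t + g t) = FT ω f + FT ω g := by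
  unfold FT
  rw [← integral_add (hf.integrableE ω) (hg.integrableE ω)]
  congr 1; ext t; push_cast; ring

lemma FT_const_mul {f : ℝ → ℝ} (k ω : ℝ) :
    FT ω (fun t => k * f t) = k * FT ω f := by
  unfold FT
  rw [← integral_const_mul]
  congr 1; ext t; push_cast; ring

/-- Parseval -/
lemma parseval {a b : ℝ} (hab : a < b) {f : ℝ → ℝ} (hf : Nice a b f) (ha : f a = 0) :
    HasSum (fun n : ℤ => ‖FT (2 * π * n / (b - a)) f‖ ^ 2) ((b - a) * ∫ t, f t ^ 2) := by
  have hT : 0 < b - a := by linarith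
  have hsupp : ∀ t, t ∉ Ioc a b → f t = 0 := by
    intro t ht
    by_cases h : t = a
    · rw [h, ha]
    · apply hf.supp
      intro h2; apply ht; exact ⟨lt_of_le_of_ne h2.1 (Ne.symm h), h2.2⟩
  have hL2 : MemLp (fun t => (f t : ℂ)) 2 (volume.restrict (Ioc a b)) := by
    obtain ⟨C, hC⟩ := hf.bdd
    have : IsFiniteMeasure (volume.restrict (Ioc a b)) := ⟨by simp⟩
    apply MemLp.of_bound (C := C)
    · exact (Complex.measurable_ofReal.comp hf.meas).aestronglyMeasurable
    · exact Filter.Eventually.of_forall (fun t => by simpa using hC t)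
  have h := hasSum_sq_fourierCoeffOn hab hL2
  have h1 : ∀ n : ℤ, ‖fourierCoeffOn hab (fun t => (f t : ℂ)) n‖ ^ 2 =
      ((b - a)⁻¹) ^ 2 * ‖FT (2 * π * n / (b - a)) f‖ ^ 2 := by
    intro n
    rw [fourierCoeffOn_eq_integral, norm_smul, mul_pow]
    congr 1
    · simp
    · congr 2
      unfold FT
      rw [intervalIntegral.integral_eq_integral_of_support_subset]
      · congr 1
        ext t
        rw [fourier_coe_apply]
        rw [smul_eq_mul]
        congr 1
        unfold Ek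
        congr 1
        push_cast
        ring
      · intro t ht
        by_contra hc
        apply ht
        simp [hsupp t hc]
  have h2 : (b - a)⁻¹ • ∫ t in a..b, ‖(f t : ℂ)‖ ^ 2 = (b - a)⁻¹ * ∫ t, f t ^ 2 := by
    rw [intervalIntegral.integral_eq_integral_of_support_subset]
    · simp
    · intro t ht
      by_contra hc
      apply ht
      simp [hsupp t hc]
  rw [h2] at h
  simp_rw [h1] at h
  have h3 := h.mul_left ((b - a) ^ 2)
  have h4 : (fun n : ℤ => (b - a) ^ 2 * ((b - a)⁻¹ ^ 2 * ‖FT (2 * π * n / (b - a)) f‖ ^ 2)) =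
      fun n : ℤ => ‖FT (2 * π * n / (b - a)) f‖ ^ 2 := by
    ext n; field_simp
  rw [h4] at h3
  have h5 : (b - a) ^ 2 * ((b - a)⁻¹ * ∫ t, f t ^ 2) = (b - a) * ∫ t, f t ^ 2 := by
    field_simp
  rwa [h5] at h3

/-- transform of the right derivative -/
lemma FT_deriv {A B : ℝ} {G y : ℝ → ℝ} (hG : Nice A B G) (hc : Continuous G) (hy : Nice A B y)
    (hd : ∀ t, HasDerivWithinAt G (y t) (Ioi t) t) (ω : ℝ) :
    FT ω y = (Complex.I * ω) * FT ω G := by
  by_cases hAB : A ≤ B
  swap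
  · have h1 : G = 0 := by
      ext t; exact hG.supp t (fun h => hAB (h.1.trans h.2))
    have h2 : y = 0 := by
      ext t; exact hy.supp t (fun h => hAB (h.1.trans h.2))
    subst h1; subst h2
    simp [FT]
  have h1 := intervalIntegral.integral_eq_sub_of_hasDeriv_right (a := A - 1) (b := B + 1)
    (f := fun t => Ek ω t * (G t : ℂ))
    (f' := fun t => -(Complex.I * ω) * (Ek ω t * (G t : ℂ)) + Ek ω t * (y t : ℂ))
    (((Ek_cont ω).mul (Complex.continuous_ofReal.comp hc)).continuousOn)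
    (by
      intro t _
      have h2 : HasDerivWithinAt (fun t => (G t : ℂ)) ((y t : ℝ) : ℂ) (Ioi t) t :=
        (hd t).ofReal_comp
      have h3 := ((Ek_hasDeriv ω t).hasDerivWithinAt (s := Ioi t)).mul h2
      refine h3.congr_deriv ?_
      ring)
    (by
      apply Integrable.intervalIntegrable
      exact ((hG.integrableE ω).const_mul _).add (hy.integrableE ω))
  have h2 : G (B + 1) = 0 := hG.supp _ (by rintro ⟨_, h⟩; linarith)
  have h3 : G (A - 1) = 0 := hG.supp _ (by rintro ⟨h, _⟩; linarith)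
  simp only [h2, h3, Complex.ofReal_zero, mul_zero, sub_zero] at h1
  rw [intervalIntegral.integral_eq_integral_of_support_subset] at h1
  · rw [integral_add ((hG.integrableE ω).const_mul _) (hy.integrableE ω),
      integral_const_mul] at h1
    unfold FT
    linear_combination h1
  · intro t ht
    by_contra hcn
    have h4 : t ∉ Icc A B := by
      intro h; apply hcn; exact ⟨by linarith [h.1], by linarith [h.2]⟩
    apply ht
    simp [hG.supp t h4, hy.supp t h4]

/-- **Continuous positivity inequality.** -/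
theorem CT {v : ℝ} (hv : IsRoot v) {A B : ℝ} (hAB : A ≤ B) {G u : ℝ → ℝ} (hG : Nice A B G)
    (hc : Continuous G) (hu : Nice A B u)
    (hd : ∀ t, HasDerivWithinAt G (u t - (1/2) * G t) (Ioi t) t) :
    (1/10) * ∫ t, u t ^ 2 ≤ (∫ t, u t ^ 2) + 2 * ∫ t, u t * (be v *
      (RR v * G (t + Lam v) + (-1) * G t + (-(RR v)⁻¹) * G (t + (- Lam v)))) := by
  set L := Lam v with hL
  have hLp : 0 < L := Lam_pos hv
  set a := A - L - 1 with ha
  set b := B + L + 1 with hb
  have hab : a < b := by linarith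
  -- the functions
  have hN1 : Nice (A - L) (B + L) (fun t => RR v * G (t + L)) :=
    ((hG.shift L).mono (by linarith) (by linarith)).const_mul _
  have hN2 : Nice (A - L) (B + L) (fun t => (-1) * G t) :=
    (hG.mono (by linarith) (by linarith)).const_mul _
  have hN3 : Nice (A - L) (B + L) (fun t => (-(RR v)⁻¹) * G (t + (-L))) :=
    ((hG.shift (-L)).mono (by linarith) (by linarith)).const_mul _
  set V : ℝ → ℝ := fun t => be v *
      (RR v * G (t + L) + (-1) * G t + (-(RR v)⁻¹) * G (t + (- L))) with hV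
  have hNV : Nice (A - L) (B + L) V := ((hN1.add hN2).add hN3).const_mul _
  have hNu : Nice (A - L) (B + L) u := hu.mono (by linarith) (by linarith)
  have hNs : Nice (A - L) (B + L) (fun t => u t + V t) := hNu.add hNV
  have hsm : ∀ f : ℝ → ℝ, Nice (A - L) (B + L) f → Nice a b f ∧ f a = 0 := by
    intro f hf
    exact ⟨hf.mono (by linarith) (by linarith), hf.supp _ (by rintro ⟨h, _⟩; linarith)⟩
  have p1 := parseval hab (hsm _ hNs).1 (hsm _ hNs).2
  have p2 := parseval hab (hsm _ hNV).1 (hsm _ hNV).2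
  have p3 := parseval hab (hsm _ hNu).1 (hsm _ hNu).2
  -- transforms
  have hy : Nice A B (fun t => u t - (1/2) * G t) := by
    have := hu.add (hG.const_mul (-(1/2)))
    convert this using 2
    ring
  have hFu : ∀ ω, FT ω u = (Complex.I * ω + 1/2) * FT ω G := by
    intro ω
    have h1 := FT_deriv hG hc hy hd ω
    have h2 : FT ω u = FT ω (fun t => (u t - (1/2) * G t) + (1/2) * G t) := by
      congr 1; ext t; ring
    rw [h2, FT_add hy (hG.const_mul _), h1, FT_const_mul]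
    push_cast; ring
  have hFV : ∀ ω, FT ω V = be v * (RR v * Ek ω (-L) - 1 - (RR v)⁻¹ * Ek ω L) * FT ω G := by
    intro ω
    rw [hV, FT_const_mul, FT_add (hN1.add hN2) hN3, FT_add hN1 hN2, FT_const_mul, FT_const_mul,
      FT_const_mul, FT_shift, FT_shift, neg_neg]
    push_cast; ring
  have key : ∀ ω : ℝ, 0 ≤ ‖FT ω (fun t => u t + V t)‖ ^ 2 - ‖FT ω V‖ ^ 2
      - (1/10) * ‖FT ω u‖ ^ 2 := by
    intro ω
    have nm : ∀ z : ℂ, ‖z * FT ω G‖ ^ 2 = ‖z‖ ^ 2 * ‖FT ω G‖ ^ 2 := by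
      intro z; rw [norm_mul, mul_pow]
    rw [FT_add hNu hNV, hFu, hFV, ← add_mul, nm, nm, nm]
    have e1 : Ek ω (-L) = (Real.cos (ω * L) : ℂ) + (Real.sin (ω * L) : ℂ) * Complex.I := by
      unfold Ek
      rw [show (-((ω * -L : ℝ) : ℂ) * Complex.I) = ((ω * L : ℝ) : ℂ) * Complex.I by
        push_cast; ring, Complex.exp_mul_I, Complex.ofReal_cos, Complex.ofReal_sin]
    have e2 : Ek ω L = (Real.cos (ω * L) : ℂ) - (Real.sin (ω * L) : ℂ) * Complex.I := by
      unfold Ek
      rw [show (-((ω * L : ℝ) : ℂ) * Complex.I) = ((-(ω * L) : ℝ) : ℂ) * Complex.I by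
        push_cast; ring, Complex.exp_mul_I, ← Complex.ofReal_cos, ← Complex.ofReal_sin,
        Real.cos_neg, Real.sin_neg]
      push_cast; ring
    rw [e1, e2]
    set C := Real.cos (ω * L)
    set S := Real.sin (ω * L)
    have n1 : ‖(Complex.I * (ω:ℂ) + 1/2 + (be v : ℂ) * ((RR v : ℂ) * ((C:ℂ) + (S:ℂ) * Complex.I) - 1 -
        (((RR v)⁻¹ : ℝ) : ℂ) * ((C:ℂ) - (S:ℂ) * Complex.I)))‖ ^ 2 =
        (1/2 + be v * ((RR v - (RR v)⁻¹) * C - 1)) ^ 2 + (ω + be v * (RR v + (RR v)⁻¹) * S) ^ 2 := by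
      rw [← Complex.normSq_eq_norm_sq, Complex.normSq_apply]
      have : (Complex.I * (ω:ℂ) + 1/2 + (be v : ℂ) * ((RR v : ℂ) * ((C:ℂ) + (S:ℂ) * Complex.I) - 1 -
        (((RR v)⁻¹ : ℝ) : ℂ) * ((C:ℂ) - (S:ℂ) * Complex.I))) =
        ((1/2 + be v * ((RR v - (RR v)⁻¹) * C - 1) : ℝ) : ℂ) +
        ((ω + be v * (RR v + (RR v)⁻¹) * S : ℝ) : ℂ) * Complex.I := by
        push_cast; ring
      rw [this]
      simp only [Complex.add_re, Complex.add_im, Complex.ofReal_re, Complex.ofReal_im,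
        Complex.mul_re, Complex.mul_im, Complex.I_re, Complex.I_im]
      ring
    have n2 : ‖((be v : ℂ) * ((RR v : ℂ) * ((C:ℂ) + (S:ℂ) * Complex.I) - 1 -
        (((RR v)⁻¹ : ℝ) : ℂ) * ((C:ℂ) - (S:ℂ) * Complex.I)))‖ ^ 2 =
        (be v * ((RR v - (RR v)⁻¹) * C - 1)) ^ 2 + (be v * (RR v + (RR v)⁻¹) * S) ^ 2 := by
      rw [← Complex.normSq_eq_norm_sq, Complex.normSq_apply]
      have : ((be v : ℂ) * ((RR v : ℂ) * ((C:ℂ) + (S:ℂ) * Complex.I) - 1 -
        (((RR v)⁻¹ : ℝ) : ℂ) * ((C:ℂ) - (S:ℂ) * Complex.I))) =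
        ((be v * ((RR v - (RR v)⁻¹) * C - 1) : ℝ) : ℂ) +
        ((be v * (RR v + (RR v)⁻¹) * S : ℝ) : ℂ) * Complex.I := by
        push_cast; ring
      rw [this]
      simp only [Complex.add_re, Complex.add_im, Complex.ofReal_re, Complex.ofReal_im,
        Complex.mul_re, Complex.mul_im, Complex.I_re, Complex.I_im]
      ring
    have n3 : ‖(Complex.I * (ω:ℂ) + 1/2)‖ ^ 2 = ω ^ 2 + 1/4 := by
      rw [← Complex.normSq_eq_norm_sq, Complex.normSq_apply]
      have : (Complex.I * (ω:ℂ) + 1/2) = ((1/2 : ℝ) : ℂ) + (ω : ℂ) * Complex.I := by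
        push_cast; ring
      rw [this]
      simp only [Complex.add_re, Complex.add_im, Complex.ofReal_re, Complex.ofReal_im,
        Complex.mul_re, Complex.mul_im, Complex.I_re, Complex.I_im]
      ring
    rw [n1, n2, n3]
    have hs := symbol hv ω
    have hr1 := beR1 hv
    have hr2 := beR2 hv
    have hg : 0 ≤ ‖FT ω G‖ ^ 2 := by positivity
    have : ((1/2 + be v * ((RR v - (RR v)⁻¹) * C - 1)) ^ 2 +
        (ω + be v * (RR v + (RR v)⁻¹) * S) ^ 2) * ‖FT ω G‖ ^ 2 -
        ((be v * ((RR v - (RR v)⁻¹) * C - 1)) ^ 2 + (be v * (RR v + (RR v)⁻¹) * S) ^ 2) *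
          ‖FT ω G‖ ^ 2 - 1 / 10 * ((ω ^ 2 + 1 / 4) * ‖FT ω G‖ ^ 2) =
        ((9/10) * (ω ^ 2 + 1/4) - be v + pp v * C + 2 * RR v * ω * S) * ‖FT ω G‖ ^ 2 := by
      have e3 : be v * ((RR v - (RR v)⁻¹) * C - 1) = pp v * C - be v := by
        rw [← hr1]; ring
      rw [e3, hr2]; ring
    rw [this]
    exact mul_nonneg hs hg
  have hsum := (p1.sub p2).sub (p3.mul_left (1/10))
  have hnn := hsum.nonneg (fun n => key _)
  have hT : 0 < b - a := by linarith
  have h1 : 0 ≤ (∫ t, (u t + V t) ^ 2) - (∫ t, V t ^ 2) - (1/10) * ∫ t, u t ^ 2 := by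
    have : (b - a) * (∫ t, (u t + V t) ^ 2) - (b - a) * (∫ t, V t ^ 2)
        - (1/10) * ((b - a) * ∫ t, u t ^ 2) =
        (b - a) * ((∫ t, (u t + V t) ^ 2) - (∫ t, V t ^ 2) - (1/10) * ∫ t, u t ^ 2) := by ring
    rw [this] at hnn
    exact nonneg_of_mul_nonneg_right hnn hT
  have i1 : Integrable (fun t => u t ^ 2) := by
    have := (hNu.mul hNu).integrable
    refine this.congr (Filter.Eventually.of_forall (fun t => ?_))
    simp [sq]
  have i2 : Integrable (fun t => V t ^ 2) := by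
    have := (hNV.mul hNV).integrable
    refine this.congr (Filter.Eventually.of_forall (fun t => ?_))
    simp [sq]
  have i3 : Integrable (fun t => u t * V t) := (hNu.mul hNV).integrable
  have h2 : (∫ t, (u t + V t) ^ 2) = (∫ t, u t ^ 2) + 2 * (∫ t, u t * V t) + ∫ t, V t ^ 2 := by
    have e1 : (fun t => (u t + V t) ^ 2) = fun t => (u t ^ 2 + 2 * (u t * V t)) + V t ^ 2 := by
      ext t; ring
    have i4 : Integrable (fun t => u t ^ 2 + 2 * (u t * V t)) := i1.add (i3.const_mul 2)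
    rw [e1, integral_add i4 i2, integral_add i1 (i3.const_mul 2), integral_const_mul]
  rw [h2] at h1
  linarith

end fourier

end N298.PGA
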