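import Mathlib

/-!
# Realizing a positive semidefinite infinite Gram matrix in a given infinite-dimensional space
-/

namespace N298.PGA

open Finset

/-- transfer of a sequence of vectors to another space along an orthonormal sequence. -/
theorem transfer {E H : Type*} [NormedAddCommGroup E] [InnerProductSpace ℝ E]
    [NormedAddCommGroup H] [InnerProductSpace ℝ H] (f : ℕ → E) (e : ℕ → H)
    (he : Orthonormal ℝ e) :
    ∃ φ : ℕ → H, (∀ n m, (inner ℝ (φ n) (φ m)) = (inner ℝ (f n) (f m))) ∧
      ∀ n, φ n ∈ Submodule.span ℝ (Set.range e) := by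
  classical
  set g : ℕ → E := InnerProductSpace.gramSchmidt ℝ f with hg
  have hexp : ∀ M n, n < M → f n = ∑ k ∈ range M, ((inner ℝ (g k) (f n)) / ‖g k‖ ^ 2) • g k := by
    intro M n hn
    have h1 := InnerProductSpace.gramSchmidt_def'' ℝ f n
    have h2 : ∑ k ∈ range M, ((inner ℝ (g k) (f n)) / ‖g k‖ ^ 2) • g k =
        ∑ k ∈ range (n+1), ((inner ℝ (g k) (f n)) / ‖g k‖ ^ 2) • g k := by
      symm
      apply Finset.sum_subset (Finset.range_subset_range.2 (by omega))
      intro k _ hk
      rw [Finset.mem_range] at hk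
      rw [hg, InnerProductSpace.gramSchmidt_inv_triangular ℝ f (by omega : n < k)]
      simp
    rw [h2, Finset.sum_range_succ]
    have h3 : ((inner ℝ (g n) (f n)) / ‖g n‖ ^ 2) • g n = g n := by
      by_cases h0 : g n = 0
      · rw [h0]; simp
      · have h4 : (inner ℝ (g n) (f n)) = ‖g n‖ ^ 2 := by
          conv_lhs => rw [h1]
          rw [inner_add_right, real_inner_self_eq_norm_sq, inner_sum]
          rw [Finset.sum_eq_zero, add_zero]
          intro i hi
          rw [Finset.mem_Iio] at hi
          rw [inner_smul_right, InnerProductSpace.gramSchmidt_orthogonal ℝ f hi.ne', mul_zero]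
        rw [h4, div_self (by positivity), one_smul]
    rw [h3]
    conv_lhs => rw [h1]
    rw [add_comm]
    congr 1
    apply Finset.sum_congr
    · ext k; simp
    · intro k _; rfl
  refine ⟨fun n => ∑ k ∈ range (n+1), ((inner ℝ (g k) (f n)) / ‖g k‖) • e k, ?_, ?_⟩
  · intro n m
    set M := max n m + 1 with hM
    have hext : ∀ n, n < M → ∑ k ∈ range (n+1), ((inner ℝ (g k) (f n)) / ‖g k‖) • e k =
        ∑ k ∈ range M, ((inner ℝ (g k) (f n)) / ‖g k‖) • e k := by
      intro n hn
      apply Finset.sum_subset (Finset.range_subset_range.2 (by omega))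
      intro k _ hk
      rw [Finset.mem_range] at hk
      rw [hg, InnerProductSpace.gramSchmidt_inv_triangular ℝ f (by omega : n < k)]
      simp
    beta_reduce
    rw [hext n (by omega), hext m (by omega), he.inner_sum]
    conv_rhs => rw [hexp M m (by omega)]
    rw [inner_sum]
    apply Finset.sum_congr rfl
    intro k _
    rw [inner_smul_right, real_inner_comm (g k) (f n)]
    simp only [conj_trivial]
    by_cases h0 : ‖g k‖ = 0
    · rw [h0]; simp
    · field_simp
  · intro n
    apply Submodule.sum_mem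
    intro k _
    apply Submodule.smul_mem
    exact Submodule.subset_span ⟨k, rfl⟩

/-- A positive semidefinite kernel on `ℕ` is a Gram matrix. -/
theorem exists_gram (K : ℕ → ℕ → ℝ) (hsym : ∀ i j, K i j = K j i)
    (hpos : ∀ (n : ℕ) (x : ℕ → ℝ), 0 ≤ ∑ i ∈ range n, ∑ j ∈ range n, K i j * x i * x j) :
    ∃ (E : Type) (_ : NormedAddCommGroup E) (_ : InnerProductSpace ℝ E) (f : ℕ → E),
      ∀ i j, (inner ℝ (f i) (f j)) = K i j := by
  classical
  set KM : Matrix ℕ ℕ (ℝ →L[ℝ] ℝ) := fun i j => K i j • ContinuousLinearMap.id ℝ ℝ with hKM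
  have hPSD : KM.PosSemidef := by
    refine ((RKHS.posSemidef_tfae (K := KM)).out 0 2).2 ?_
    constructor
    · ext i j
      rw [Matrix.conjTranspose_apply]
      simp only [hKM]
      have h1 : (ContinuousLinearMap.id ℝ ℝ) = 1 := rfl
      rw [h1]
      simp [hsym j i]
    · intro vv
      obtain ⟨n, hn⟩ : ∃ n, vv.support ⊆ range n := by
        refine ⟨vv.support.sup id + 1, fun i hi => ?_⟩
        rw [Finset.mem_range]
        exact Nat.lt_succ_of_le (Finset.le_sup (f := id) hi)
      have h := hpos n (fun i => vv i)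
      convert h using 1
      rw [Finsupp.sum_of_support_subset vv hn]
      · simp only [RCLike.re_to_real]
        apply Finset.sum_congr rfl
        intro i _
        rw [Finsupp.sum_of_support_subset vv hn]
        · apply Finset.sum_congr rfl
          intro j _
          simp only [hKM]
          simp [hsym j i]
          ring
        · intro j _
          simp
      · intro i _
        simp [Finsupp.sum]
  have : Fact KM.PosSemidef := ⟨hPSD⟩
  refine ⟨RKHS.OfKernel KM, inferInstance, inferInstance,
    fun i => RKHS.kerFun (RKHS.OfKernel KM) i (1:ℝ), ?_⟩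
  intro i j
  have h := RKHS.kernel_inner (RKHS.OfKernel KM) j i (1:ℝ) (1:ℝ)
  rw [RKHS.OfKernel.kernel_ofKernel] at h
  rw [← h]
  simp only [hKM]
  simp [hsym j i]

/-- an infinite-dimensional inner product space has an orthonormal sequence -/
theorem exists_orthonormal_seq (H : Type*) [NormedAddCommGroup H] [InnerProductSpace ℝ H]
    (hH : ¬ FiniteDimensional ℝ H) : ∃ e : ℕ → H, Orthonormal ℝ e := by
  classical
  have hb := Module.Basis.ofVectorSpace ℝ H
  have hinf : Infinite (Module.Basis.ofVectorSpaceIndex ℝ H) := by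
    by_contra hcon
    rw [not_infinite_iff_finite] at hcon
    exact hH (Module.Finite.of_basis hb)
  obtain ⟨ι⟩ : Nonempty (ℕ ↪ Module.Basis.ofVectorSpaceIndex ℝ H) := ⟨Infinite.natEmbedding _⟩
  have hli : LinearIndependent ℝ (fun n => hb (ι n)) := hb.linearIndependent.comp ι ι.injective
  exact ⟨_, InnerProductSpace.gramSchmidtNormed_orthonormal hli⟩

/-- Realization in a given infinite-dimensional space, with one unit vector orthogonal to all. -/
theorem realize (K : ℕ → ℕ → ℝ) (hsym : ∀ i j, K i j = K j i)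
    (hpos : ∀ (n : ℕ) (x : ℕ → ℝ), 0 ≤ ∑ i ∈ range n, ∑ j ∈ range n, K i j * x i * x j)
    (H : Type*) [NormedAddCommGroup H] [InnerProductSpace ℝ H] (hH : ¬ FiniteDimensional ℝ H) :
    ∃ (φ : ℕ → H) (b : H), (∀ i j, (inner ℝ (φ i) (φ j)) = K i j) ∧ ‖b‖ = 1 ∧ ∀ i, (inner ℝ b (φ i)) = 0 := by
  obtain ⟨e, he⟩ := exists_orthonormal_seq H hH
  obtain ⟨E, _, _, f, hf⟩ := exists_gram K hsym hpos
  have he' : Orthonormal ℝ (fun n => e (n+1)) := he.comp _ (fun a b h => by simpa using h)
  obtain ⟨φ, h1, h2⟩ := transfer f (fun n => e (n+1)) he'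
  refine ⟨φ, e 0, fun i j => by rw [h1, hf], he.1 0, fun i => ?_⟩
  have h3 : ∀ x ∈ Submodule.span ℝ (Set.range (fun n => e (n+1))), (inner ℝ (e 0) x) = 0 := by
    intro x hx
    induction hx using Submodule.span_induction with
    | mem x hx =>
      obtain ⟨n, rfl⟩ := hx
      exact he.2 (by simp)
    | zero => simp
    | add x y _ _ h1 h2 => rw [inner_add_right, h1, h2, add_zero]
    | smul a x _ h => rw [inner_smul_right, h, mul_zero]
  exact h3 _ (h2 i)

end N298.PGA
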