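import Pool.Agent.N298.PGA.F0
import Pool.Agent.N298.PGA.Realize
import Pool.Agent.N298.PGA.Defs

/-!
# The lower bound
-/

namespace N298.PGA

open Real Finset Filter Topology

section seqs

variable {c : ℕ} (hc' : 2000 ≤ c) {v : ℝ} (hv : IsRoot v)

/-- `d_j = b_j a_j = (ν_j - 1) a_j²` -/
noncomputable def dd (v : ℝ) (c j : ℕ) : ℝ := (nu c j - 1) * aa (be v) c j ^ 2

include hc' hv in
lemma dd_step (j : ℕ) : aa (be v) c j ^ 2 / 6 ≤ dd v c j - dd v c (j+1) ∧
    dd v c j - dd v c (j+1) ≤ aa (be v) c j ^ 2 := by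
  have hc : 2 ≤ c := by omega
  have hj := nu_pos hc j
  have hcr : (2000:ℝ) ≤ c := by exact_mod_cast hc'
  have hjc := c_le_nu c j
  have hb := be_gt hv
  have hb1 := be_lt hv
  have e : dd v c j - dd v c (j+1) = aa (be v) c j ^ 2 * (2 * be v - 1 - be v ^ 2 / nu c j) := by
    unfold dd
    rw [nu_succ, aa_succ, rho]
    field_simp
    ring
  have h1 : be v ^ 2 / nu c j ≤ 1/6 := by
    rw [div_le_div_iff₀ hj (by norm_num)]
    nlinarith
  have h2 : 0 ≤ be v ^ 2 / nu c j := by positivity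
  have h3 : 0 ≤ aa (be v) c j ^ 2 := sq_nonneg _
  rw [e]
  constructor <;> nlinarith

include hc' hv in
lemma sum_sq (n J : ℕ) (h : n ≤ J) :
    dd v c n - dd v c J ≤ ∑ k ∈ Finset.Ico n J, aa (be v) c k ^ 2 ∧
    ∑ k ∈ Finset.Ico n J, aa (be v) c k ^ 2 ≤ 6 * (dd v c n - dd v c J) := by
  induction J, h using Nat.le_induction with
  | base => simp
  | succ J hJ ih =>
    rw [Finset.sum_Ico_succ_top hJ]
    have := dd_step hc' hv J
    constructor <;> linarith [ih.1, ih.2]

/-- `W_J = c^{2β} ν_J^{1-2β}`, bounds `ν_J a_J²` -/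
noncomputable def Wb (v : ℝ) (c j : ℕ) : ℝ := (c:ℝ) ^ (2 * be v) * (nu c j) ^ (1 - 2 * be v)

include hc' hv in
lemma aa_le_pow (j : ℕ) : aa (be v) c j ≤ (c:ℝ) ^ (be v) * (nu c j) ^ (-(be v)) := by
  have hc : 2 ≤ c := by omega
  have hj := nu_pos hc j
  have h := P_anti (be_pos hv) (be_lt hv) hc (Nat.zero_le j)
  simp only [aa_zero, one_mul] at h
  have e : nu c 0 = c := by simp [nu]
  rw [e] at h
  have hp : 0 < (nu c j) ^ (be v) := Real.rpow_pos_of_pos hj _
  rw [Real.rpow_neg hj.le, ← div_eq_mul_inv, le_div_iff₀ hp]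
  exact h

include hc' hv in
lemma w_le (j : ℕ) : nu c j * aa (be v) c j ^ 2 ≤ Wb v c j := by
  have hc : 2 ≤ c := by omega
  have hj := nu_pos hc j
  have h := aa_le_pow hc' hv j
  have h0 := aa_pos (be_pos hv) (be_lt hv) hc j
  have hcp : (0:ℝ) < c := by exact_mod_cast (show 0 < c by omega)
  have h2 : aa (be v) c j ^ 2 ≤ (c:ℝ) ^ (2 * be v) * (nu c j) ^ (-(2 * be v)) := by
    calc aa (be v) c j ^ 2 ≤ ((c:ℝ) ^ (be v) * (nu c j) ^ (-(be v))) ^ 2 :=
          pow_le_pow_left₀ h0.le h 2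
      _ = _ := by
        rw [mul_pow, ← Real.rpow_natCast, ← Real.rpow_natCast, ← Real.rpow_mul hcp.le,
          ← Real.rpow_mul hj.le]
        congr 2 <;> push_cast <;> ring
  unfold Wb
  calc nu c j * aa (be v) c j ^ 2 ≤ nu c j * ((c:ℝ) ^ (2 * be v) * (nu c j) ^ (-(2 * be v))) :=
        mul_le_mul_of_nonneg_left h2 hj.le
    _ = (c:ℝ) ^ (2 * be v) * (nu c j * (nu c j) ^ (-(2 * be v))) := by ring
    _ = _ := by
      congr 1
      rw [show (1 - 2 * be v) = 1 + (-(2 * be v)) by ring, Real.rpow_add hj, Real.rpow_one]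

include hc' hv in
lemma Wb_anti {i j : ℕ} (h : i ≤ j) : Wb v c j ≤ Wb v c i := by
  have hc : 2 ≤ c := by omega
  have hi := nu_pos hc i
  unfold Wb
  apply mul_le_mul_of_nonneg_left _ (by positivity)
  exact Real.rpow_le_rpow_of_nonpos hi (nu_mono h) (by linarith [be_gt hv])

lemma nu_tendsto (c : ℕ) : Tendsto (nu c) atTop atTop :=
  tendsto_atTop_add_const_right _ _ tendsto_natCast_atTop_atTop

include hv in
lemma Wb_tendsto : Tendsto (Wb v c) atTop (𝓝 0) := by
  have h1 : Tendsto (fun j => (nu c j) ^ (1 - 2 * be v)) atTop (𝓝 0) := by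
    have h2 : (1 - 2 * be v) = -(2 * be v - 1) := by ring
    rw [h2]
    exact (tendsto_rpow_neg_atTop (by linarith [be_gt hv])).comp (nu_tendsto c)
  have := h1.const_mul ((c:ℝ) ^ (2 * be v))
  have e : Wb v c = fun j => (c:ℝ) ^ (2 * be v) * (nu c j) ^ (1 - 2 * be v) := rfl
  rw [e]
  simpa using this

include hc' hv in
lemma aa_tendsto : Tendsto (aa (be v) c) atTop (𝓝 0) := by
  have hc : 2 ≤ c := by omega
  have h1 : Tendsto (fun j => (c:ℝ) ^ (be v) * (nu c j) ^ (-(be v))) atTop (𝓝 0) := by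
    have := ((tendsto_rpow_neg_atTop (be_pos hv)).comp (nu_tendsto c)).const_mul ((c:ℝ) ^ (be v))
    simpa using this
  exact squeeze_zero (fun j => (aa_pos (be_pos hv) (be_lt hv) hc j).le) (aa_le_pow hc' hv) h1

include hc' hv in
lemma dd_le (j : ℕ) : dd v c j ≤ Wb v c j := by
  have := w_le hc' hv j
  unfold dd
  nlinarith [sq_nonneg (aa (be v) c j)]

include hc' in
lemma dd_nonneg (j : ℕ) : 0 ≤ dd v c j := by
  unfold dd
  have := two_le_nu (c := c) (by omega) j
  exact mul_nonneg (by linarith) (sq_nonneg _)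

include hc' hv in
/-- error term in the norm -/
lemma aJ_sum (n J : ℕ) (h : n ≤ J) :
    aa (be v) c J * ∑ k ∈ Finset.Ico n J, aa (be v) c k ≤ 5 * Wb v c J := by
  have hc : 2 ≤ c := by omega
  have h1 := sum_aa (β := be v) hc n J h
  rw [one_sub_be hv] at h1
  have hb := be_gt hv
  have hvlo := hv.lo
  have hvp := hv.pos
  have haJ := aa_pos (be_pos hv) (be_lt hv) hc J
  have hbn : 0 ≤ bb (be v) c n := by
    unfold bb
    have := two_le_nu hc n
    have := aa_pos (be_pos hv) (be_lt hv) hc n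
    exact mul_nonneg (by linarith) this.le
  have h2 : v * be v * (aa (be v) c J * ∑ k ∈ Finset.Ico n J, aa (be v) c k) ≤
      nu c J * aa (be v) c J ^ 2 := by
    calc _ = aa (be v) c J * (bb (be v) c J - bb (be v) c n) := by rw [← h1]; ring
      _ ≤ aa (be v) c J * bb (be v) c J := by nlinarith
      _ = (nu c J - 1) * aa (be v) c J ^ 2 := by unfold bb; ring
      _ ≤ _ := by nlinarith [sq_nonneg (aa (be v) c J)]
  have h3 := w_le hc' hv J
  have h4 : 1/5 ≤ v * be v := by nlinarith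
  have h5 : 0 ≤ aa (be v) c J * ∑ k ∈ Finset.Ico n J, aa (be v) c k :=
    mul_nonneg haJ.le (Finset.sum_nonneg fun k _ => (aa_pos (be_pos hv) (be_lt hv) hc k).le)
  nlinarith

end seqs

section real

variable {c : ℕ} (hc' : 2000 ≤ c) {v : ℝ} (hv : IsRoot v)
variable {H : Type*} [NormedAddCommGroup H] [InnerProductSpace ℝ H]
variable {φ : ℕ → H} (hφ : ∀ i j, (inner ℝ (φ i) (φ j)) = Gm (aa (be v) c) (rho (be v) c) (NN v c) i j)

noncomputable def SS (v : ℝ) (c : ℕ) (φ : ℕ → H) (n J : ℕ) : H :=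
  ∑ k ∈ Finset.Ico n J, aa (be v) c k • φ k

include hφ in
lemma inner_SS (n J i : ℕ) (h : n ≤ J) : (inner ℝ (SS v c φ n J) (φ i)) =
    FF (aa (be v) c) (rho (be v) c) (NN v c) n i
      - FF (aa (be v) c) (rho (be v) c) (NN v c) J i := by
  induction J, h using Nat.le_induction with
  | base => simp [SS]
  | succ J hJ ih =>
    have : SS v c φ n (J+1) = SS v c φ n J + aa (be v) c J • φ J := by
      unfold SS; rw [Finset.sum_Ico_succ_top hJ]
    rw [this, inner_add_left, ih, real_inner_smul_left, hφ, FF_succ]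
    ring

include hφ in
lemma norm_SS (J n : ℕ) (h : n ≤ J) : ‖SS v c φ n J‖ ^ 2 =
    ∑ k ∈ Finset.Ico n J, aa (be v) c k ^ 2
    - 2 * ∑ k ∈ Finset.Ico n J, aa (be v) c k * FF (aa (be v) c) (rho (be v) c) (NN v c) J k := by
  obtain ⟨d, hd⟩ := Nat.exists_eq_add_of_le h
  induction d generalizing n with
  | zero => have : n = J := by omega
            subst this; simp [SS]
  | succ d ih =>
    have hn : n < J := by omega
    have ih := ih (n+1) hn (by omega)
    have h1 : SS v c φ n J = aa (be v) c n • φ n + SS v c φ (n+1) J := by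
      unfold SS; rw [Finset.sum_eq_sum_Ico_succ_bot hn]
    have h2 := inner_SS hφ (n+1) J n hn
    rw [FF_succ_self] at h2
    have h3 : ‖φ n‖ ^ 2 = 1 := by rw [← real_inner_self_eq_norm_sq, hφ, Gm_self]
    rw [h1, norm_add_sq_real, real_inner_smul_left, real_inner_comm, h2, ih, norm_smul, mul_pow, h3,
      Finset.sum_eq_sum_Ico_succ_bot hn, Finset.sum_eq_sum_Ico_succ_bot hn]
    simp only [Real.norm_eq_abs, sq_abs]
    ring

end real

end N298.PGA
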