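import Pool.Agent.N298.PGA.Low

/-!
# The lower bound: limits and the dictionary
-/

namespace N298.PGA

open Real Finset Filter Topology

section real

variable {c : ℕ} (hc' : 2000 ≤ c) {v : ℝ} (hv : IsRoot v)
variable {H : Type*} [NormedAddCommGroup H] [InnerProductSpace ℝ H]
variable {φ : ℕ → H} (hφ : ∀ i j, (inner ℝ (φ i) (φ j)) = Gm (aa (be v) c) (rho (be v) c) (NN v c) i j)

include hc' hv hφ in
lemma norm_SS_bounds (n J : ℕ) (h : n ≤ J) :
    dd v c n - 11 * Wb v c J ≤ ‖SS v c φ n J‖ ^ 2 ∧ ‖SS v c φ n J‖ ^ 2 ≤ 16 * Wb v c n := by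
  have hc : 2 ≤ c := by omega
  have S := sysNN hv hc
  have h1 := norm_SS hφ J n h
  have h2 := sum_sq hc' hv n J h
  have h3 := aJ_sum hc' hv n J h
  have h4 : |∑ k ∈ Finset.Ico n J, aa (be v) c k *
      FF (aa (be v) c) (rho (be v) c) (NN v c) J k| ≤ 5 * Wb v c J := by
    calc _ ≤ ∑ k ∈ Finset.Ico n J, |aa (be v) c k *
          FF (aa (be v) c) (rho (be v) c) (NN v c) J k| := Finset.abs_sum_le_sum_abs _ _
      _ ≤ ∑ k ∈ Finset.Ico n J, aa (be v) c k * aa (be v) c J := by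
          apply Finset.sum_le_sum
          intro k _
          rw [abs_mul, abs_of_pos (S.apos k)]
          exact mul_le_mul_of_nonneg_left (S.FF_abs_le J k) (S.apos k).le
      _ = aa (be v) c J * ∑ k ∈ Finset.Ico n J, aa (be v) c k := by
          rw [Finset.mul_sum]; apply Finset.sum_congr rfl; intro k _; ring
      _ ≤ _ := h3
  rw [abs_le] at h4
  have h5 := dd_le hc' hv J
  have h6 := dd_le hc' hv n
  have h7 := dd_nonneg hc' (v := v) J
  have h8 := Wb_anti hc' hv h
  rw [h1]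
  constructor <;> linarith [h2.1, h2.2, h4.1, h4.2]

lemma SS_sub (n J : ℕ) (h : n ≤ J) : SS v c φ 0 J - SS v c φ 0 n = SS v c φ n J := by
  unfold SS
  rw [← Finset.sum_Ico_consecutive _ (Nat.zero_le n) h]; simp

include hc' hv hφ in
lemma SS_cauchy : CauchySeq (fun J => SS v c φ 0 J) := by
  apply cauchySeq_of_le_tendsto_0' (fun n => 4 * Real.sqrt (Wb v c n))
  · intro n m hnm
    rw [dist_comm, dist_eq_norm, SS_sub n m hnm]
    have h := (norm_SS_bounds hc' hv hφ n m hnm).2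
    have h2 : Real.sqrt (16 * Wb v c n) = 4 * Real.sqrt (Wb v c n) := by
      rw [Real.sqrt_mul (by norm_num)]
      congr 1
      rw [show (16:ℝ) = 4 ^ 2 by norm_num, Real.sqrt_sq (by norm_num)]
    rw [← h2]
    exact Real.le_sqrt_of_sq_le h
  · have h1 := (Wb_tendsto (c := c) hv)
    have h2 : Tendsto (fun n => 4 * Real.sqrt (Wb v c n)) atTop (𝓝 (4 * Real.sqrt 0)) :=
      ((Real.continuous_sqrt.tendsto 0).comp h1).const_mul 4
    simpa using h2

variable [CompleteSpace H]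

include hc' hv hφ in
/-- the limit vector `f0` and its properties. -/
theorem exists_f0 : ∃ f0 : H,
    (∀ n i, (inner ℝ (f0 - SS v c φ 0 n) (φ i)) = FF (aa (be v) c) (rho (be v) c) (NN v c) n i) ∧
    (∀ n, dd v c n ≤ ‖f0 - SS v c φ 0 n‖ ^ 2) ∧
    ‖f0‖ ^ 2 ≤ 16 * Wb v c 0 ∧
    (∀ n, |(inner ℝ (f0 - SS v c φ 0 n) f0)| ≤ ((8 * c + 100) / be v) * aa (be v) c n) ∧
    (∀ x : H, (∀ i, (inner ℝ (φ i) x) = 0) → (inner ℝ f0 x) = 0) := by
  have hc : 2 ≤ c := by omega
  have S := sysNN hv hc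
  obtain ⟨f0, hf0⟩ := cauchySeq_tendsto_of_complete (SS_cauchy hc' hv hφ)
  have hlim : ∀ n, Tendsto (fun J => SS v c φ n J) atTop (𝓝 (f0 - SS v c φ 0 n)) := by
    intro n
    have h1 : Tendsto (fun J => SS v c φ 0 J - SS v c φ 0 n) atTop (𝓝 (f0 - SS v c φ 0 n)) :=
      hf0.sub_const _
    refine h1.congr' ?_
    filter_upwards [eventually_ge_atTop n] with J hJ
    exact SS_sub n J hJ
  have P1 : ∀ n i, (inner ℝ (f0 - SS v c φ 0 n) (φ i)) =
      FF (aa (be v) c) (rho (be v) c) (NN v c) n i := by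
    intro n i
    have h1 : Tendsto (fun J => (inner ℝ (SS v c φ n J) (φ i))) atTop (𝓝 (inner ℝ (f0 - SS v c φ 0 n) (φ i))) :=
      (hlim n).inner tendsto_const_nhds
    have h2 : Tendsto (fun J => FF (aa (be v) c) (rho (be v) c) (NN v c) J i) atTop (𝓝 0) := by
      apply squeeze_zero_norm _ (aa_tendsto hc' hv)
      intro J
      rw [Real.norm_eq_abs]; exact S.FF_abs_le J i
    have h3 : Tendsto (fun J => FF (aa (be v) c) (rho (be v) c) (NN v c) n i -
        FF (aa (be v) c) (rho (be v) c) (NN v c) J i) atTop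
        (𝓝 (FF (aa (be v) c) (rho (be v) c) (NN v c) n i - 0)) := h2.const_sub _
    rw [sub_zero] at h3
    refine tendsto_nhds_unique (h1.congr' ?_) h3
    filter_upwards [eventually_ge_atTop n] with J hJ
    exact inner_SS hφ n J i hJ
  have P2 : ∀ n, dd v c n ≤ ‖f0 - SS v c φ 0 n‖ ^ 2 := by
    intro n
    have h1 : Tendsto (fun J => ‖SS v c φ n J‖ ^ 2) atTop (𝓝 (‖f0 - SS v c φ 0 n‖ ^ 2)) :=
      ((hlim n).norm).pow 2
    have h2 : Tendsto (fun J => dd v c n - 11 * Wb v c J) atTop (𝓝 (dd v c n - 11 * 0)) :=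
      ((Wb_tendsto (c := c) hv).const_mul 11).const_sub _
    rw [mul_zero, sub_zero] at h2
    apply le_of_tendsto_of_tendsto h2 h1
    filter_upwards [eventually_ge_atTop n] with J hJ
    exact (norm_SS_bounds hc' hv hφ n J hJ).1
  have e0 : SS v c φ 0 0 = 0 := by simp [SS]
  have P3 : ‖f0‖ ^ 2 ≤ 16 * Wb v c 0 := by
    have h1 : Tendsto (fun J => ‖SS v c φ 0 J‖ ^ 2) atTop (𝓝 (‖f0‖ ^ 2)) := (hf0.norm).pow 2
    apply le_of_tendsto' h1
    intro J
    exact (norm_SS_bounds hc' hv hφ 0 J (Nat.zero_le J)).2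
  have P4 : ∀ n, |(inner ℝ (f0 - SS v c φ 0 n) f0)| ≤ ((8 * c + 100) / be v) * aa (be v) c n := by
    intro n
    have hb := be_pos hv
    have h1 : Tendsto (fun J => |(inner ℝ (SS v c φ n J) f0)|) atTop (𝓝 |(inner ℝ (f0 - SS v c φ 0 n) f0)|) :=
      ((hlim n).inner tendsto_const_nhds).abs
    apply le_of_tendsto h1
    filter_upwards [eventually_ge_atTop n] with J hJ
    have h2 : (inner ℝ (SS v c φ n J) f0) = ∑ k ∈ Finset.Ico n J, aa (be v) c k *
        FF (aa (be v) c) (rho (be v) c) (NN v c) 0 k := by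
      unfold SS
      rw [sum_inner]
      apply Finset.sum_congr rfl
      intro k _
      rw [real_inner_smul_left, real_inner_comm]
      have := P1 0 k
      rw [e0, sub_zero] at this
      rw [this]
    rw [h2]
    calc _ ≤ ∑ k ∈ Finset.Ico n J, |aa (be v) c k *
          FF (aa (be v) c) (rho (be v) c) (NN v c) 0 k| := Finset.abs_sum_le_sum_abs _ _
      _ ≤ ∑ k ∈ Finset.Ico n J, ((8 * c + 100) / be v) * (aa (be v) c k * rho (be v) c k) := by
          apply Finset.sum_le_sum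
          intro k _
          rw [abs_mul, abs_of_pos (S.apos k)]
          have h3 := FF_zero_bound hc' hv k
          have h4 : ((8 * (c:ℝ) + 100) / be v) * (aa (be v) c k * rho (be v) c k) =
              aa (be v) c k * ((8 * c + 100) / nu c k) := by
            unfold rho; field_simp
          rw [h4]
          exact mul_le_mul_of_nonneg_left h3 (S.apos k).le
      _ = ((8 * c + 100) / be v) * (aa (be v) c n - aa (be v) c J) := by
          rw [← Finset.mul_sum, S.sum_rho n J hJ]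
      _ ≤ _ := by
          apply mul_le_mul_of_nonneg_left _ (by positivity)
          linarith [S.apos J]
  refine ⟨f0, P1, P2, P3, P4, ?_⟩
  intro x hx
  have h1 : Tendsto (fun J => (inner ℝ (SS v c φ 0 J) x)) atTop (𝓝 (inner ℝ f0 x)) :=
    hf0.inner tendsto_const_nhds
  have h2 : (fun J => (inner ℝ (SS v c φ 0 J) x)) = fun _ => (0:ℝ) := by
    ext J
    unfold SS
    rw [sum_inner]
    apply Finset.sum_eq_zero
    intro k _
    rw [real_inner_smul_left, hx k, mul_zero]
  rw [h2] at h1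
  exact (tendsto_nhds_unique h1 tendsto_const_nhds)

end real

lemma nsq_add {H : Type*} [NormedAddCommGroup H] [InnerProductSpace ℝ H] (f b : H) (s : ℝ)
    (h : (inner ℝ f b) = 0) (hb : ‖b‖ = 1) : ‖f + s • b‖ ^ 2 = ‖f‖ ^ 2 + s ^ 2 := by
  rw [norm_add_sq_real, real_inner_smul_right, h, norm_smul, mul_pow, hb,
    Real.norm_eq_abs, sq_abs]; ring

lemma nsq_sub {H : Type*} [NormedAddCommGroup H] [InnerProductSpace ℝ H] (f b : H) (s : ℝ)
    (h : (inner ℝ f b) = 0) (hb : ‖b‖ = 1) : ‖f - s • b‖ ^ 2 = ‖f‖ ^ 2 + s ^ 2 := by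
  rw [norm_sub_sq_real, real_inner_smul_right, h, norm_smul, mul_pow, hb,
    Real.norm_eq_abs, sq_abs]; ring

/-- **The lower bound.** -/
theorem lower {v : ℝ} (hv : IsRoot v) : ∃ κ : ℝ, 0 < κ ∧
    ∀ (H : Type*) [NormedAddCommGroup H] [InnerProductSpace ℝ H] [CompleteSpace H],
      ¬ FiniteDimensional ℝ H → ∃ (D : Set H) (f : H) (φ G : ℕ → H),
        IsDictionary D ∧ f ∈ A1 D ∧ (∀ m, IsPGA D f m φ G) ∧
        ∀ m : ℕ, 1 ≤ m → κ * (m:ℝ) ^ (-((1 - v) / (2 * (1 + v)))) ≤ ‖f - G m‖ := by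
  set c : ℕ := 2000 with hcdef
  have hc' : 2000 ≤ c := le_rfl
  have hc : 2 ≤ c := by omega
  have S := sysNN hv hc
  have hb := be_pos hv
  have hb1 := be_lt hv
  have hvp := hv.pos
  set K1 : ℝ := (8 * c + 100) / be v with hK1
  have hK1p : 0 < K1 := by positivity
  have hW0 : 0 ≤ Wb v c 0 := (dd_nonneg hc' 0).trans (dd_le hc' hv 0)
  set L : ℝ := K1 + 4 * Real.sqrt (Wb v c 0) + 1 with hL
  have hLp : 0 < L := by positivity
  refine ⟨(c:ℝ) ^ (-((1 - v) / (2 * (1 + v)))) / L, by positivity, ?_⟩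
  intro H _ _ _ hH
  obtain ⟨φ, b, hφ, hb1', hbφ⟩ := realize (Gm (aa (be v) c) (rho (be v) c) (NN v c))
    (fun i j => Gm_symm i j) (by
      intro n x
      have := QQ_ge hv hc' n x
      have h2 : 0 ≤ ∑ i ∈ range n, x i ^ 2 := Finset.sum_nonneg fun i _ => sq_nonneg _
      unfold QQ at this
      linarith) H hH
  obtain ⟨f0, P1, P2, P3, P4, P5⟩ := exists_f0 hc' hv hφ
  have hf0L : ‖f0‖ ≤ L := by
    have h1 : ‖f0‖ ≤ Real.sqrt (16 * Wb v c 0) := Real.le_sqrt_of_sq_le P3
    have h2 : Real.sqrt (16 * Wb v c 0) = 4 * Real.sqrt (Wb v c 0) := by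
      rw [Real.sqrt_mul (by norm_num)]
      congr 1
      rw [show (16:ℝ) = 4 ^ 2 by norm_num, Real.sqrt_sq (by norm_num)]
    rw [h2] at h1
    linarith
  have hK1L : K1 ≤ L := by
    have := Real.sqrt_nonneg (Wb v c 0)
    linarith
  set f : H := L⁻¹ • f0 with hf
  have hfn : ‖f‖ ^ 2 ≤ 1 := by
    rw [hf, norm_smul, Real.norm_eq_abs, abs_of_pos (by positivity), mul_pow, inv_pow,
      inv_mul_le_iff₀ (by positivity), mul_one]
    exact pow_le_pow_left₀ (norm_nonneg _) hf0L 2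
  set s : ℝ := Real.sqrt (1 - ‖f‖ ^ 2) with hs
  have hs2 : s ^ 2 = 1 - ‖f‖ ^ 2 := Real.sq_sqrt (by linarith)
  have hfb : (inner ℝ f b) = 0 := by
    rw [hf, real_inner_smul_left, P5 b (fun i => by rw [real_inner_comm]; exact hbφ i), mul_zero]
  set gp : H := f + s • b with hgp
  set gm : H := f - s • b with hgm
  have hgpn : ‖gp‖ = 1 := by
    have h1 : ‖gp‖ ^ 2 = 1 := by
      rw [hgp, nsq_add f b s hfb hb1', hs2]; ring
    have h2 := norm_nonneg gp
    nlinarith
  have hgmn : ‖gm‖ = 1 := by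
    have h1 : ‖gm‖ ^ 2 = 1 := by
      rw [hgm, nsq_sub f b s hfb hb1', hs2]; ring
    have h2 := norm_nonneg gm
    nlinarith
  set D : Set H := {x | (∃ i, x = φ i) ∨ x = gp ∨ x = gm ∨
    (‖x‖ = 1 ∧ (∀ i, (inner ℝ (φ i) x) = 0) ∧ (inner ℝ gp x) = 0 ∧ (inner ℝ gm x) = 0)} with hD
  have hres : ∀ k, f - L⁻¹ • SS v c φ 0 k = L⁻¹ • (f0 - SS v c φ 0 k) := by
    intro k; rw [hf, smul_sub]
  have hLi : 0 < L⁻¹ := by positivity
  refine ⟨D, f, fun k => φ (k-1), fun k => L⁻¹ • SS v c φ 0 k, ⟨?_, ?_⟩, ?_, ?_, ?_⟩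
  · -- unit vectors
    rintro x (⟨i, rfl⟩ | rfl | rfl | ⟨h, -⟩)
    · have : ‖φ i‖ ^ 2 = 1 := by rw [← real_inner_self_eq_norm_sq, hφ, Gm_self]
      have h2 := norm_nonneg (φ i)
      nlinarith
    · exact hgpn
    · exact hgmn
    · exact h
  · -- dense span
    rw [← Submodule.topologicalClosure_coe, ← Submodule.top_coe (R := ℝ) (M := H)]
    congr 1
    rw [Submodule.topologicalClosure_eq_top_iff, Submodule.eq_bot_iff]
    intro x hx
    rw [Submodule.mem_orthogonal] at hx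
    by_contra hne
    have hxn : 0 < ‖x‖ := norm_pos_iff.2 hne
    have hmem : ∀ y ∈ D, (inner ℝ y x) = 0 := fun y hy => hx y (Submodule.subset_span hy)
    have h1 : (‖x‖⁻¹ • x) ∈ D := by
      refine Or.inr (Or.inr (Or.inr ⟨?_, ?_, ?_, ?_⟩))
      · rw [norm_smul, norm_inv, norm_norm]; exact inv_mul_cancel₀ hxn.ne'
      · intro i
        rw [real_inner_smul_right, hmem _ (Or.inl ⟨i, rfl⟩), mul_zero]
      · rw [real_inner_smul_right, hmem _ (Or.inr (Or.inl rfl)), mul_zero]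
      · rw [real_inner_smul_right, hmem _ (Or.inr (Or.inr (Or.inl rfl))), mul_zero]
    have h2 := hmem _ h1
    rw [real_inner_smul_left, real_inner_self_eq_norm_sq] at h2
    have : 0 < ‖x‖⁻¹ * ‖x‖ ^ 2 := by positivity
    linarith
  · -- membership in A_1
    apply subset_closure
    refine ⟨2, ![1/2, 1/2], ![gp, gm], ?_, ?_, ?_⟩
    · intro i
      fin_cases i
      · exact Or.inr (Or.inl rfl)
      · exact Or.inr (Or.inr (Or.inl rfl))
    · simp [Fin.sum_univ_two, abs_of_pos]; norm_num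
    · simp only [Fin.sum_univ_two, Matrix.cons_val_zero, Matrix.cons_val_one]
      rw [hgp, hgm, ← smul_add]
      have : f + s • b + (f - s • b) = (2:ℝ) • f := by rw [two_smul]; abel
      rw [this, smul_smul]; norm_num
  · -- greedy
    intro m
    refine ⟨by simp [SS], ?_, ?_, ?_⟩
    · intro k _
      exact Or.inl ⟨k, by simp⟩
    · intro k _ g hg
      simp only [Nat.add_sub_cancel]
      rw [hres k, real_inner_smul_left, real_inner_smul_left, abs_mul, abs_mul, P1, FF_self,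
        abs_of_pos (S.apos k)]
      apply mul_le_mul_of_nonneg_left _ (abs_nonneg _)
      have hff : |(inner ℝ (f0 - SS v c φ 0 k) f)| ≤ aa (be v) c k := by
        rw [hf, real_inner_smul_right, abs_mul, abs_of_pos hLi, inv_mul_le_iff₀ hLp]
        exact (P4 k).trans (mul_le_mul_of_nonneg_right hK1L (S.apos k).le)
      have hfbk : (inner ℝ (f0 - SS v c φ 0 k) b) = 0 := by
        rw [inner_sub_left, P5 b (fun i => by rw [real_inner_comm]; exact hbφ i)]
        unfold SS
        rw [sum_inner, Finset.sum_eq_zero, sub_zero]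
        intro i _
        rw [real_inner_smul_left, real_inner_comm, hbφ i, mul_zero]
      rcases hg with ⟨i, rfl⟩ | rfl | rfl | ⟨_, h1, _⟩
      · rw [P1]; exact S.FF_abs_le k i
      · rw [hgp, inner_add_right, real_inner_smul_right _ b s, hfbk, mul_zero, add_zero]; exact hff
      · rw [hgm, inner_sub_right, real_inner_smul_right _ b s, hfbk, mul_zero, sub_zero]; exact hff
      · have : (inner ℝ (f0 - SS v c φ 0 k) g) = 0 := by
          rw [inner_sub_left, P5 g h1]
          unfold SS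
          rw [sum_inner, Finset.sum_eq_zero, sub_zero]
          intro i _
          rw [real_inner_smul_left, h1 i, mul_zero]
        rw [this, abs_zero]; exact (S.apos k).le
    · intro k _
      simp only [Nat.add_sub_cancel]
      rw [hres k, real_inner_smul_left, P1, FF_self]
      have : SS v c φ 0 (k+1) = SS v c φ 0 k + aa (be v) c k • φ k := by
        unfold SS; rw [Finset.sum_Ico_succ_top (Nat.zero_le k)]
      rw [this, smul_add, smul_smul]
  · -- lower bound
    intro m hm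
    simp only
    rw [hres m, norm_smul, Real.norm_eq_abs, abs_of_pos hLi]
    have hmr : (1:ℝ) ≤ m := by exact_mod_cast hm
    have hcr : (0:ℝ) < c := by rw [hcdef]; norm_num
    have hcm : (0:ℝ) < c * m := by positivity
    have hnu : nu c m - 1 ≤ c * m := by
      have e : nu c m = (m:ℝ) + c := rfl
      have : (1:ℝ) ≤ c := by rw [hcdef]; norm_num
      rw [e]; nlinarith
    have hnu2 : 0 < nu c m - 1 := by have := two_le_nu hc m; linarith
    -- a_m ≥ (ν_m - 1)^{-β}
    have hQ := Q_mono hb hb1 hc (Nat.zero_le m)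
    simp only [aa_zero, one_mul] at hQ
    have h0 : 1 ≤ (nu c 0 - 1) ^ be v := by
      apply Real.one_le_rpow _ hb.le
      have e : nu c 0 = c := by simp [nu]
      rw [e, hcdef]; norm_num
    have ham : (nu c m - 1) ^ (-(be v)) ≤ aa (be v) c m := by
      have hp : 0 < (nu c m - 1) ^ be v := Real.rpow_pos_of_pos hnu2 _
      rw [Real.rpow_neg hnu2.le, inv_le_iff_one_le_mul₀ hp]
      linarith
    have hd : (nu c m - 1) ^ (1 - 2 * be v) ≤ dd v c m := by
      unfold dd
      have h1 : (nu c m - 1) ^ (1 - 2 * be v) = (nu c m - 1) * ((nu c m - 1) ^ (-(be v))) ^ 2 := by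
        rw [← Real.rpow_natCast, ← Real.rpow_mul hnu2.le]
        conv_rhs => rw [← Real.rpow_one (nu c m - 1)]
        rw [Real.rpow_one, ← Real.rpow_one_add' hnu2.le]
        · congr 1; push_cast; ring
        · push_cast; linarith [be_gt hv]
      rw [h1]
      apply mul_le_mul_of_nonneg_left _ hnu2.le
      exact pow_le_pow_left₀ (by positivity) ham 2
    have hal : (1 - 2 * be v) = 2 * (-((1 - v) / (2 * (1 + v)))) := by
      unfold be; field_simp; ring
    have hcmp : (c * m : ℝ) ^ (1 - 2 * be v) ≤ (nu c m - 1) ^ (1 - 2 * be v) :=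
      Real.rpow_le_rpow_of_nonpos hnu2 hnu (by linarith [be_gt hv])
    have hfin : ((c * m : ℝ) ^ (-((1 - v) / (2 * (1 + v))))) ^ 2 ≤ ‖f0 - SS v c φ 0 m‖ ^ 2 := by
      calc _ = (c * m : ℝ) ^ (1 - 2 * be v) := by
            rw [hal, ← Real.rpow_natCast, ← Real.rpow_mul hcm.le]
            congr 1; push_cast; ring
        _ ≤ _ := hcmp.trans (hd.trans (P2 m))
    have hfin2 : (c * m : ℝ) ^ (-((1 - v) / (2 * (1 + v)))) ≤ ‖f0 - SS v c φ 0 m‖ :=
      le_of_sq_le_sq hfin (norm_nonneg _)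
    rw [Real.mul_rpow hcr.le (by linarith)] at hfin2
    calc (c:ℝ) ^ (-((1 - v) / (2 * (1 + v)))) / L * (m:ℝ) ^ (-((1 - v) / (2 * (1 + v)))) =
        L⁻¹ * ((c:ℝ) ^ (-((1 - v) / (2 * (1 + v)))) * (m:ℝ) ^ (-((1 - v) / (2 * (1 + v))))) := by
          ring
      _ ≤ _ := mul_le_mul_of_nonneg_left hfin2 hLi.le

end N298.PGA
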