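import Mathlib

/-!
# The critical Gram matrix: definition and greedy bounds

`a` is the sequence of steps of the greedy algorithm, `G i j` the Gram matrix, and
`F n i` will be the inner product of the `n`-th residual with the `i`-th dictionary element.
-/

namespace N298.PGA

open Finset

set_option linter.unusedVariables false

structure Sys (a ρ : ℕ → ℝ) (N : ℕ → ℕ) : Prop where
  apos : ∀ n, 0 < a n
  rpos : ∀ n, 0 < ρ n
  anti : Antitone ρ
  step : ∀ n, a (n+1) = a n * (1 - ρ n)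
  hN : ∀ i, i < N i
  reach : ∀ i, a (N i + 1) ≤ ρ i * ∑ k ∈ Finset.Ioc i (N i), a k
  before : ∀ i n, i < n → n < N i → ρ i * ∑ k ∈ Finset.Ioc i n, a k < a (n+1)

variable (a ρ : ℕ → ℝ) (N : ℕ → ℕ)

/-- the threshold entry -/
noncomputable def gg (i : ℕ) : ℝ :=
  (-ρ i * ∑ k ∈ Finset.Ioo i (N i), a k + a (N i + 1)) / a (N i)

/-- entries above the diagonal -/
noncomputable def Kup (i j : ℕ) : ℝ :=
  if j < N i then ρ i else if j = N i then gg a ρ N i else - ρ j

/-- the Gram matrix -/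
noncomputable def Gm (i j : ℕ) : ℝ :=
  if i = j then 1 else if i < j then Kup a ρ N i j else Kup a ρ N j i

/-- inner products residual/dictionary -/
noncomputable def FF (n i : ℕ) : ℝ :=
  a i + ∑ k ∈ Finset.Ico n i, a k * Gm a ρ N k i - ∑ k ∈ Finset.Ico i n, a k * Gm a ρ N k i

variable {a ρ N}

lemma Gm_self (i : ℕ) : Gm a ρ N i i = 1 := by simp [Gm]

lemma Gm_symm (i j : ℕ) : Gm a ρ N i j = Gm a ρ N j i := by
  unfold Gm
  rcases lt_trichotomy i j with h | h | h
  · simp [h, h.ne, h.ne', h.not_gt]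
  · simp [h]
  · simp [h, h.ne, h.ne', h.not_gt]

lemma Gm_lt {i j : ℕ} (h : i < j) : Gm a ρ N i j = Kup a ρ N i j := by
  simp [Gm, h, h.ne]

lemma FF_self (i : ℕ) : FF a ρ N i i = a i := by simp [FF]

lemma FF_succ (n i : ℕ) : FF a ρ N (n+1) i = FF a ρ N n i - a n * Gm a ρ N n i := by
  unfold FF
  rcases lt_or_ge n i with h | h
  · rw [Finset.sum_eq_sum_Ico_succ_bot h, Finset.Ico_eq_empty_of_le (a := i) (b := n+1) (by omega),
      Finset.Ico_eq_empty_of_le (a := i) (b := n) (by omega)]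
    ring
  · rw [Finset.sum_Ico_succ_top h, Finset.Ico_eq_empty_of_le (a := n+1) (b := i) (by omega),
      Finset.Ico_eq_empty_of_le (a := n) (b := i) (by omega)]
    ring

lemma FF_succ_self (i : ℕ) : FF a ρ N (i+1) i = 0 := by
  rw [FF_succ, FF_self, Gm_self]; ring

namespace Sys

variable (S : Sys a ρ N)
include S

lemma rle (n : ℕ) : ρ n < 1 := by
  have h1 := S.apos (n+1)
  rw [S.step] at h1
  have h2 := S.apos n
  by_contra hc
  push Not at hc
  nlinarith

lemma aanti (n : ℕ) : a (n+1) ≤ a n := by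
  rw [S.step]
  nlinarith [S.apos n, S.rpos n]

lemma sum_rho (n m : ℕ) (h : n ≤ m) : ∑ k ∈ Finset.Ico n m, a k * ρ k = a n - a m := by
  induction m, h using Nat.le_induction with
  | base => simp
  | succ m hm ih =>
    rw [Finset.sum_Ico_succ_top hm, ih, S.step m]; ring

/-- forward, before the threshold -/
lemma FF_near (i n : ℕ) (h1 : i < n) (h2 : n ≤ N i) :
    FF a ρ N n i = -ρ i * ∑ k ∈ Finset.Ioo i n, a k := by
  induction n, h1 using Nat.le_induction with
  | base =>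
    have : Finset.Ioo i (i+1) = ∅ := by ext x; simp
    rw [Nat.succ_eq_add_one, FF_succ_self, this]; simp
  | succ n hn ih =>
    rw [FF_succ, ih (by omega)]
    have hin : i < n := hn
    have h3 : Gm a ρ N n i = ρ i := by
      rw [Gm_symm, Gm_lt hin, Kup, if_pos (by omega)]
    have h4 : Finset.Ioo i (n+1) = insert n (Finset.Ioo i n) := by
      ext x; simp; omega
    rw [h3, h4, Finset.sum_insert (by simp)]
    ring

omit S in
lemma sum_Ioc_eq (i n : ℕ) (h : i < n) :
    ∑ k ∈ Finset.Ioc i n, a k = ∑ k ∈ Finset.Ioo i n, a k + a n := by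
  have h4 : Finset.Ioc i n = insert n (Finset.Ioo i n) := by
    ext x; simp; omega
  rw [h4, Finset.sum_insert (by simp)]; ring

lemma FF_near_ge (i n : ℕ) (h1 : i < n) (h2 : n ≤ N i) : - a n ≤ FF a ρ N n i := by
  rw [S.FF_near i n h1 h2]
  rcases Nat.lt_or_ge (i+1) n with h | h
  · have h3 := S.before i (n-1) (by omega) (by omega)
    have h4 : Finset.Ioc i (n-1) = Finset.Ioo i n := by ext x; simp; omega
    rw [h4, show n - 1 + 1 = n by omega] at h3
    linarith
  · have : Finset.Ioo i n = ∅ := by ext x; simp; omega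
    rw [this]; simp [(S.apos n).le]

lemma FF_near_le (i n : ℕ) (h1 : i < n) (h2 : n ≤ N i) : FF a ρ N n i ≤ 0 := by
  rw [S.FF_near i n h1 h2]
  have : 0 ≤ ∑ k ∈ Finset.Ioo i n, a k := Finset.sum_nonneg fun k _ => (S.apos k).le
  nlinarith [S.rpos i]

lemma gg_eq (i : ℕ) : a (N i) * gg a ρ N i = FF a ρ N (N i) i + a (N i + 1) := by
  rw [S.FF_near i (N i) (S.hN i) le_rfl, gg]
  field_simp [(S.apos (N i)).ne']

lemma gg_le (i : ℕ) : gg a ρ N i ≤ ρ i := by
  have h1 := S.gg_eq i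
  rw [S.FF_near i (N i) (S.hN i) le_rfl] at h1
  have h2 := S.reach i
  rw [Sys.sum_Ioc_eq i (N i) (S.hN i)] at h2
  have h3 := S.apos (N i)
  have h4 : a (N i) * gg a ρ N i ≤ a (N i) * ρ i := by rw [h1]; linarith
  exact le_of_mul_le_mul_left h4 h3

lemma gg_ge (i : ℕ) : - ρ (N i) ≤ gg a ρ N i := by
  have h1 := S.gg_eq i
  have h2 := S.FF_near_ge i (N i) (S.hN i) le_rfl
  have h3 := S.step (N i)
  have h4 := S.apos (N i)
  have h5 : a (N i) * (- ρ (N i)) ≤ a (N i) * gg a ρ N i := by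
    rw [h1]; rw [h3]; linarith
  exact le_of_mul_le_mul_left h5 h4

lemma FF_far (i n : ℕ) (h : N i < n) : FF a ρ N n i = - a n := by
  induction n, h using Nat.le_induction with
  | base =>
    rw [Nat.succ_eq_add_one, FF_succ]
    have h1 : Gm a ρ N (N i) i = gg a ρ N i := by
      rw [Gm_symm, Gm_lt (S.hN i), Kup, if_neg (by omega), if_pos rfl]
    rw [h1, S.gg_eq i]; ring
  | succ n hn ih =>
    have hn' : N i < n := hn
    have hi : i < n := lt_trans (S.hN i) hn'
    rw [FF_succ, ih]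
    have h1 : Gm a ρ N n i = - ρ n := by
      rw [Gm_symm, Gm_lt hi, Kup, if_neg (by omega), if_neg (by omega)]
    rw [h1, S.step n]; ring

lemma Kup_le (i j : ℕ) (h : i < j) : Kup a ρ N i j ≤ ρ i := by
  unfold Kup
  split_ifs with h1 h2
  · exact le_rfl
  · exact S.gg_le i
  · linarith [S.rpos i, S.rpos j]

lemma Kup_ge (i j : ℕ) (h : i < j) : - ρ j ≤ Kup a ρ N i j := by
  unfold Kup
  split_ifs with h1 h2
  · linarith [S.rpos i, S.rpos j]
  · rw [h2]; exact S.gg_ge i
  · exact le_rfl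

lemma Gm_abs_le (i j : ℕ) (h : i < j) : |Gm a ρ N i j| ≤ ρ i := by
  rw [Gm_lt h, abs_le]
  exact ⟨by linarith [S.Kup_ge i j h, S.anti h.le], S.Kup_le i j h⟩

lemma FF_back_le (n i : ℕ) (h : n ≤ i) : FF a ρ N n i ≤ a n := by
  have h0 : FF a ρ N n i = a i + ∑ k ∈ Finset.Ico n i, a k * Gm a ρ N k i := by
    unfold FF
    rw [Finset.Ico_eq_empty_of_le (a := i) (b := n) h]; simp
  have h1 : ∑ k ∈ Finset.Ico n i, a k * Gm a ρ N k i ≤ ∑ k ∈ Finset.Ico n i, a k * ρ k := by
    apply Finset.sum_le_sum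
    intro k hk
    rw [Finset.mem_Ico] at hk
    rw [Gm_lt hk.2]
    exact mul_le_mul_of_nonneg_left (S.Kup_le k i hk.2) (S.apos k).le
  rw [S.sum_rho n i h] at h1
  linarith

lemma FF_back_ge (n i : ℕ) (h : n ≤ i) : - a n ≤ FF a ρ N n i := by
  have h0 : FF a ρ N n i = a i + ∑ k ∈ Finset.Ico n i, a k * Gm a ρ N k i := by
    unfold FF
    rw [Finset.Ico_eq_empty_of_le (a := i) (b := n) h]; simp
  have h1 : ∑ k ∈ Finset.Ico n i, a k * (- ρ i) ≤ ∑ k ∈ Finset.Ico n i, a k * Gm a ρ N k i := by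
    apply Finset.sum_le_sum
    intro k hk
    rw [Finset.mem_Ico] at hk
    rw [Gm_lt hk.2]
    exact mul_le_mul_of_nonneg_left (S.Kup_ge k i hk.2) (S.apos k).le
  have h2 : ∑ k ∈ Finset.Ico n i, a k * ρ i ≤ ∑ k ∈ Finset.Ico n i, a k * ρ k := by
    apply Finset.sum_le_sum
    intro k hk
    rw [Finset.mem_Ico] at hk
    exact mul_le_mul_of_nonneg_left (S.anti hk.2.le) (S.apos k).le
  rw [S.sum_rho n i h] at h2
  have h3 : ∑ k ∈ Finset.Ico n i, a k * (- ρ i) = - ∑ k ∈ Finset.Ico n i, a k * ρ i := by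
    rw [← Finset.sum_neg_distrib]; apply Finset.sum_congr rfl; intro k _; ring
  linarith [S.apos i]

/-- The greedy bound. -/
theorem FF_abs_le (n i : ℕ) : |FF a ρ N n i| ≤ a n := by
  rw [abs_le]
  rcases le_or_gt n i with h | h
  · exact ⟨S.FF_back_ge n i h, S.FF_back_le n i h⟩
  · rcases le_or_gt n (N i) with h2 | h2
    · exact ⟨S.FF_near_ge i n h h2, (S.FF_near_le i n h h2).trans (S.apos n).le⟩
    · rw [S.FF_far i n h2]
      exact ⟨le_rfl, by linarith [S.apos n]⟩

end Sys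

end N298.PGA
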