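import Pool.Agent.N298.PGA.Const
import Pool.Agent.N298.PGA.Seq

/-!
# The concrete sequences: `ν n = n + c`, `ρ n = β / ν n`, `a (n+1) = a n (1 - ρ n)`
and the threshold `N i`, `|ν (N i) - ν i / v| ≤ 5`.
-/

namespace N298.PGA

open Finset Real

noncomputable def nu (c n : ℕ) : ℝ := (n : ℝ) + c
noncomputable def rho (β : ℝ) (c n : ℕ) : ℝ := β / nu c n
noncomputable def aa (β : ℝ) (c : ℕ) : ℕ → ℝ
  | 0 => 1
  | n+1 => aa β c n * (1 - rho β c n)

lemma nu_succ (c n : ℕ) : nu c (n+1) = nu c n + 1 := by simp [nu]; ring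

lemma nu_mono {c m n : ℕ} (h : m ≤ n) : nu c m ≤ nu c n := by
  unfold nu; have : (m:ℝ) ≤ n := by exact_mod_cast h
  linarith

lemma nu_lt {c m n : ℕ} (h : m < n) : nu c m < nu c n := by
  unfold nu; have : (m:ℝ) < n := by exact_mod_cast h
  linarith

lemma c_le_nu (c n : ℕ) : (c:ℝ) ≤ nu c n := by
  unfold nu; have : (0:ℝ) ≤ n := Nat.cast_nonneg n
  linarith

lemma aa_zero (β : ℝ) (c : ℕ) : aa β c 0 = 1 := rfl

lemma aa_succ (β : ℝ) (c n : ℕ) : aa β c (n+1) = aa β c n * (1 - rho β c n) := rfl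

section basic

variable {β : ℝ} {c : ℕ} (h0 : 0 < β) (h1 : β < 1) (hc : 2 ≤ c)

include hc in
lemma two_le_nu (n : ℕ) : 2 ≤ nu c n := by
  have : (2:ℝ) ≤ c := by exact_mod_cast hc
  linarith [c_le_nu c n]

include hc in
lemma nu_pos (n : ℕ) : 0 < nu c n := by linarith [two_le_nu hc n]

include h0 hc in
lemma rho_pos (n : ℕ) : 0 < rho β c n := div_pos h0 (nu_pos hc n)

include h0 h1 hc in
lemma rho_lt (n : ℕ) : rho β c n < 1 := by
  unfold rho
  rw [div_lt_one (nu_pos hc n)]
  linarith [two_le_nu hc n]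

include h0 hc in
lemma rho_anti : Antitone (rho β c) := by
  intro m n h
  unfold rho
  exact div_le_div_of_nonneg_left h0.le (nu_pos hc m) (nu_mono h)

include h0 h1 hc in
lemma aa_pos (n : ℕ) : 0 < aa β c n := by
  induction n with
  | zero => simp [aa]
  | succ n ih => rw [aa_succ]; exact mul_pos ih (by linarith [rho_lt h0 h1 hc n])

include h0 h1 hc in
lemma aa_anti : Antitone (aa β c) := by
  apply antitone_nat_of_succ_le
  intro n
  rw [aa_succ]
  nlinarith [aa_pos h0 h1 hc n, rho_pos h0 hc n]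

include h0 h1 hc in
lemma aa_le_one (n : ℕ) : aa β c n ≤ 1 := aa_anti h0 h1 hc (Nat.zero_le n)

include h0 h1 hc in
/-- `a_n ν_n^β` is antitone. -/
lemma P_anti : Antitone (fun n => aa β c n * (nu c n) ^ β) := by
  apply antitone_nat_of_succ_le
  intro n
  have hn := nu_pos hc n
  have ha := aa_pos h0 h1 hc n
  have hr := rho_pos h0 hc n
  have hr1 := rho_lt h0 h1 hc n
  have h2 : nu c (n+1) = nu c n * (1 + 1 / nu c n) := by
    rw [nu_succ]; field_simp
  have h3 : (1 + 1 / nu c n) ^ β ≤ 1 + β * (1 / nu c n) :=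
    rpow_one_add_le_one_add_mul_self (by
      have : 0 < 1 / nu c n := by positivity
      linarith) h0.le h1.le
  have h4 : β * (1 / nu c n) = rho β c n := by unfold rho; ring
  rw [h4] at h3
  have h5 : 0 < (nu c n) ^ β := Real.rpow_pos_of_pos hn _
  show aa β c (n+1) * (nu c (n+1)) ^ β ≤ aa β c n * (nu c n) ^ β
  rw [h2, Real.mul_rpow hn.le (by positivity), aa_succ]
  have h6 : (1 - rho β c n) * (1 + 1 / nu c n) ^ β ≤ 1 := by
    calc (1 - rho β c n) * (1 + 1 / nu c n) ^ β ≤ (1 - rho β c n) * (1 + rho β c n) := by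
          apply mul_le_mul_of_nonneg_left h3; linarith
      _ ≤ 1 := by nlinarith
  calc aa β c n * (1 - rho β c n) * (nu c n ^ β * (1 + 1 / nu c n) ^ β)
      = (aa β c n * nu c n ^ β) * ((1 - rho β c n) * (1 + 1 / nu c n) ^ β) := by ring
    _ ≤ (aa β c n * nu c n ^ β) * 1 := by
        apply mul_le_mul_of_nonneg_left h6; positivity
    _ = _ := by ring

include h0 h1 hc in
/-- `a_n (ν_n - 1)^β` is monotone. -/
lemma Q_mono : Monotone (fun n => aa β c n * (nu c n - 1) ^ β) := by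
  apply monotone_nat_of_le_succ
  intro n
  have hn := nu_pos hc n
  have hn2 := two_le_nu hc n
  have ha := aa_pos h0 h1 hc n
  have h2 : nu c (n+1) - 1 = nu c n := by rw [nu_succ]; ring
  have h3 : (1 + (-(1 / nu c n))) ^ β ≤ 1 + β * (-(1 / nu c n)) :=
    rpow_one_add_le_one_add_mul_self (by
      have : 1 / nu c n ≤ 1 := by rw [div_le_one hn]; linarith
      linarith) h0.le h1.le
  have h4 : 1 + β * (-(1 / nu c n)) = 1 - rho β c n := by unfold rho; ring
  rw [h4] at h3
  have h5 : nu c n - 1 = nu c n * (1 + (-(1 / nu c n))) := by field_simp; ring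
  have h6 : 0 ≤ 1 + (-(1 / nu c n)) := by
    have : 1 / nu c n ≤ 1 := by rw [div_le_one hn]; linarith
    linarith
  show aa β c n * (nu c n - 1) ^ β ≤ aa β c (n+1) * (nu c (n+1) - 1) ^ β
  rw [h2, h5, Real.mul_rpow hn.le h6, aa_succ]
  have h7 : 0 < (nu c n) ^ β := Real.rpow_pos_of_pos hn _
  calc aa β c n * (nu c n ^ β * (1 + -(1 / nu c n)) ^ β)
      = (aa β c n * nu c n ^ β) * (1 + -(1 / nu c n)) ^ β := by ring
    _ ≤ (aa β c n * nu c n ^ β) * (1 - rho β c n) := by
        apply mul_le_mul_of_nonneg_left h3; positivity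
    _ = _ := by ring

/-- `b_n = (ν_n - 1) a_n`. -/
noncomputable def bb (β : ℝ) (c n : ℕ) : ℝ := (nu c n - 1) * aa β c n

include hc in
lemma bb_succ (n : ℕ) : bb β c (n+1) = bb β c n + (1 - β) * aa β c n := by
  unfold bb
  rw [nu_succ, aa_succ, rho]
  field_simp [(nu_pos hc n).ne']
  ring

lemma bb_succ' (n : ℕ) : bb β c (n+1) = nu c n * aa β c (n+1) := by
  unfold bb
  rw [nu_succ]; ring

include hc in
lemma sum_aa (m n : ℕ) (h : m ≤ n) :
    (1 - β) * ∑ k ∈ Finset.Ico m n, aa β c k = bb β c n - bb β c m := by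
  induction n, h using Nat.le_induction with
  | base => simp
  | succ n hn ih => rw [Finset.sum_Ico_succ_top hn, mul_add, ih, bb_succ hc]; ring

end basic

section threshold

variable {v : ℝ} {c : ℕ} (hv : IsRoot v) (hc : 2 ≤ c)

/-- `β = 1/(1+v)` -/
noncomputable def be (v : ℝ) : ℝ := 1 / (1 + v)

include hv in
lemma be_pos : 0 < be v := by unfold be; have := hv.pos; positivity

include hv in
lemma be_lt : be v < 1 := by
  unfold be; have := hv.pos
  rw [div_lt_one (by linarith)]; linarith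

include hv in
lemma be_gt : 2/3 < be v := by
  unfold be; have := hv.pos; have := hv.hi
  rw [div_lt_div_iff₀ (by norm_num) (by linarith)]; linarith

include hv in
lemma one_sub_be : 1 - be v = v * be v := by
  unfold be; have := hv.pos
  field_simp; ring

/-- threshold property -/
def Thr (v : ℝ) (c i n : ℕ) : Prop :=
  aa (be v) c (n+1) ≤ rho (be v) c i * ∑ k ∈ Finset.Ioc i n, aa (be v) c k

noncomputable def NN (v : ℝ) (c i : ℕ) : ℕ := sInf {n | i < n ∧ Thr v c i n}

include hv hc in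
lemma thr_iff (i n : ℕ) (h : i < n) : Thr v c i n ↔
    nu c i * aa (be v) c (i+1) ≤ (nu c n - v * nu c i) * aa (be v) c (n+1) := by
  have h1 : Finset.Ioc i n = Finset.Ico (i+1) (n+1) := by ext x; simp [Nat.lt_succ_iff, Nat.succ_le_iff]
  have h2 := sum_aa (β := be v) hc (i+1) (n+1) (by omega)
  rw [bb_succ' , bb_succ', one_sub_be hv] at h2
  have hb := be_pos hv
  have hi := nu_pos hc i
  have hvp := hv.pos
  unfold Thr
  rw [h1]
  have h3 : rho (be v) c i * ∑ k ∈ Finset.Ico (i+1) (n+1), aa (be v) c k =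
      (nu c n * aa (be v) c (n+1) - nu c i * aa (be v) c (i+1)) / (v * nu c i) := by
    rw [← h2, rho]; field_simp
  rw [h3, le_div_iff₀ (by positivity)]
  constructor <;> intro h <;> linarith

include hv in
lemma xs_gt : 2 < 1 / v := by
  rw [lt_div_iff₀ hv.pos]; linarith [hv.hi]

include hv hc in
lemma thr_of_ge (i n : ℕ) (h : nu c i / v ≤ nu c n) : i < n ∧ Thr v c i n := by
  have hvp := hv.pos
  have hi := nu_pos hc i
  have hn := nu_pos hc n
  have hb := be_pos hv
  have hb1 := be_lt hv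
  have hx : 1 / v ≤ nu c n / nu c i := by
    rw [div_le_div_iff₀ hvp hi]
    rw [div_le_iff₀ hvp] at h
    linarith
  have hlt : i < n := by
    by_contra hc'
    push Not at hc'
    have h1 := nu_mono (c := c) hc'
    have h2 : nu c n / nu c i ≤ 1 := by rw [div_le_one hi]; exact h1
    linarith [xs_gt hv]
  refine ⟨hlt, ?_⟩
  rw [thr_iff hv hc i n hlt]
  have hQ : aa (be v) c (i+1) * (nu c (i+1) - 1) ^ (be v) ≤
      aa (be v) c (n+1) * (nu c (n+1) - 1) ^ (be v) := Q_mono hb hb1 hc (by omega : i+1 ≤ n+1)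
  rw [nu_succ, nu_succ, add_sub_cancel_right, add_sub_cancel_right] at hQ
  set x := nu c n / nu c i with hxdef
  have hnx : nu c n = nu c i * x := by rw [hxdef]; field_simp
  have hxpos : 0 < x := by positivity
  rw [hnx, Real.mul_rpow hi.le hxpos.le] at hQ
  have hip : 0 < (nu c i) ^ (be v) := Real.rpow_pos_of_pos hi _
  have hQ2 : aa (be v) c (i+1) ≤ aa (be v) c (n+1) * x ^ (be v) := by
    have : aa (be v) c (i+1) * nu c i ^ (be v) ≤
      (aa (be v) c (n+1) * x ^ (be v)) * nu c i ^ (be v) := by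
      calc _ ≤ _ := hQ
        _ = _ := by ring
    exact le_of_mul_le_mul_right this hip
  -- x^β ≤ x - v
  have hkey : x ^ (be v) ≤ x - v := by
    set s := x * v with hs
    have hs1 : 1 ≤ s := by
      rw [hs]; rw [div_le_iff₀ hvp] at hx; exact hx
    have hxs : x = (1 / v) * s := by rw [hs]; field_simp
    have h1 : s ^ (be v) ≤ s := by
      calc s ^ (be v) ≤ s ^ (1:ℝ) := Real.rpow_le_rpow_of_exponent_le hs1 hb1.le
        _ = s := Real.rpow_one s
    have h2 := hv.xs_eq
    have h3 : x ^ (be v) = (1 / v - v) * s ^ (be v) := by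
      rw [hxs, Real.mul_rpow (by positivity) (by positivity), h2]; rfl
    have h4 : 0 ≤ 1 / v - v := by linarith [xs_gt hv, hv.hi]
    calc x ^ (be v) = (1 / v - v) * s ^ (be v) := h3
      _ ≤ (1 / v - v) * s := by apply mul_le_mul_of_nonneg_left h1 h4
      _ = x - v * s := by rw [hxs]; ring
      _ ≤ x - v := by nlinarith
  have han := aa_pos hb hb1 hc (n+1)
  calc nu c i * aa (be v) c (i+1) ≤ nu c i * (aa (be v) c (n+1) * x ^ (be v)) := by
        apply mul_le_mul_of_nonneg_left hQ2 hi.le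
    _ ≤ nu c i * (aa (be v) c (n+1) * (x - v)) := by
        apply mul_le_mul_of_nonneg_left _ hi.le
        apply mul_le_mul_of_nonneg_left hkey han.le
    _ = (nu c n - v * nu c i) * aa (be v) c (n+1) := by rw [hnx]; ring

include hv hc in
lemma exists_M (i : ℕ) : ∃ n, nu c i / v ≤ nu c n ∧ nu c n < nu c i / v + 1 := by
  have hi := nu_pos hc i
  have h1 : nu c i ≤ nu c i / v := by
    rw [le_div_iff₀ hv.pos]; nlinarith [hv.lt_one]
  have h0 : 0 ≤ nu c i / v - c := by linarith [c_le_nu c i]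
  refine ⟨⌈nu c i / v - c⌉₊, ?_, ?_⟩
  · have := Nat.le_ceil (nu c i / v - c)
    show nu c i / v ≤ (_ : ℝ) + c
    linarith
  · have := Nat.ceil_lt_add_one h0
    show (_ : ℝ) + c < _
    linarith

include hv hc in
lemma NN_spec (i : ℕ) : i < NN v c i ∧ Thr v c i (NN v c i) := by
  obtain ⟨n, hn, -⟩ := exists_M hv hc i
  have : (sInf {n | i < n ∧ Thr v c i n}) ∈ {n | i < n ∧ Thr v c i n} :=
    Nat.sInf_mem ⟨n, thr_of_ge hv hc i n hn⟩
  exact this

include hv hc in
lemma NN_le (i : ℕ) : nu c (NN v c i) < nu c i / v + 1 := by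
  obtain ⟨n, hn, hn2⟩ := exists_M hv hc i
  have : NN v c i ≤ n := Nat.sInf_le (thr_of_ge hv hc i n hn)
  exact lt_of_le_of_lt (nu_mono this) hn2

lemma NN_before (i n : ℕ) (h1 : i < n) (h2 : n < NN v c i) : ¬ Thr v c i n := by
  intro h
  have : NN v c i ≤ n := Nat.sInf_le ⟨h1, h⟩
  omega

include hv hc in
lemma NN_ge (i : ℕ) : nu c i / v - 5 ≤ nu c (NN v c i) := by
  obtain ⟨hlt, hthr⟩ := NN_spec hv hc i
  set n := NN v c i with hn_def
  rw [thr_iff hv hc i n hlt] at hthr
  have hvp := hv.pos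
  have hi := nu_pos hc i
  have hi2 := two_le_nu hc i
  have hn := nu_pos hc n
  have hb := be_pos hv
  have hb1 := be_lt hv
  by_contra hcon
  push Not at hcon
  set x := nu c n / nu c i with hxdef
  have hnx : nu c n = nu c i * x := by rw [hxdef]; field_simp
  have hx1 : 1 < x := by
    rw [hxdef, lt_div_iff₀ hi]; linarith [nu_lt (c := c) hlt]
  have hxs : x < 1 / v := by
    rw [hxdef, div_lt_div_iff₀ hi hvp]
    have := hcon
    rw [lt_sub_iff_add_lt, lt_div_iff₀ hvp] at this
    nlinarith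
  have hP : aa (be v) c (n+1) * (nu c (n+1)) ^ (be v) ≤
      aa (be v) c (i+1) * (nu c (i+1)) ^ (be v) := P_anti hb hb1 hc (by omega : i+1 ≤ n+1)
  have han := aa_pos hb hb1 hc (n+1)
  have hai := aa_pos hb hb1 hc (i+1)
  have hi1 : 0 < nu c (i+1) := nu_pos hc _
  have hn1 : 0 < nu c (n+1) := nu_pos hc _
  -- (ν_{n+1}/ν_{i+1}) ≥ x * (1 - 1/ν_{i+1})
  set w := nu c i / nu c (i+1) with hw
  have hwpos : 0 < w := by positivity
  have hw1 : w ≤ 1 := by rw [hw, div_le_one hi1]; exact nu_mono (by omega)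
  have hrat : x * w ≤ nu c (n+1) / nu c (i+1) := by
    rw [hxdef, hw]
    rw [div_mul_div_comm, mul_comm (nu c n) (nu c i), mul_div_mul_left _ _ hi.ne']
    exact div_le_div_of_nonneg_right (nu_mono (by omega)) hi1.le
  have hpow : (x * w) ^ (be v) ≤ (nu c (n+1) / nu c (i+1)) ^ (be v) :=
    Real.rpow_le_rpow (by positivity) hrat hb.le
  rw [Real.mul_rpow (by positivity) (by positivity), Real.div_rpow hn1.le hi1.le] at hpow
  have hww : w ≤ w ^ (be v) := by
    calc w = w ^ (1:ℝ) := (Real.rpow_one w).symm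
      _ ≤ w ^ (be v) := Real.rpow_le_rpow_of_exponent_ge hwpos hw1 hb1.le
  have hi1p : 0 < (nu c (i+1)) ^ (be v) := Real.rpow_pos_of_pos hi1 _
  have hP2 : aa (be v) c (n+1) * ((nu c (n+1)) ^ (be v) / (nu c (i+1)) ^ (be v)) ≤
      aa (be v) c (i+1) := by
    rw [← mul_div_assoc, div_le_iff₀ hi1p]; exact hP
  have hxb : 0 < x ^ (be v) := Real.rpow_pos_of_pos (by linarith) _
  have hmain : x ^ (be v) * w ≤ x - v := by
    have h1 : aa (be v) c (n+1) * (x ^ (be v) * w) ≤ aa (be v) c (i+1) := by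
      calc aa (be v) c (n+1) * (x ^ (be v) * w) ≤
          aa (be v) c (n+1) * (x ^ (be v) * w ^ (be v)) := by
            apply mul_le_mul_of_nonneg_left _ han.le
            exact mul_le_mul_of_nonneg_left hww hxb.le
        _ ≤ aa (be v) c (n+1) * ((nu c (n+1)) ^ (be v) / (nu c (i+1)) ^ (be v)) :=
            mul_le_mul_of_nonneg_left hpow han.le
        _ ≤ _ := hP2
    have h2 : nu c i * (aa (be v) c (n+1) * (x ^ (be v) * w)) ≤
        nu c i * (aa (be v) c (n+1) * (x - v)) := by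
      calc _ ≤ nu c i * aa (be v) c (i+1) := mul_le_mul_of_nonneg_left h1 hi.le
        _ ≤ (nu c n - v * nu c i) * aa (be v) c (n+1) := hthr
        _ = _ := by rw [hnx]; ring
    exact le_of_mul_le_mul_left (le_of_mul_le_mul_left h2 hi) han
  -- concavity chord
  have hX : 1 < 1 / v := by linarith [xs_gt hv]
  have hch : (1 / v - x) / (1 / v - 1) + (x - 1) / (1 / v - 1) * (1 / v - v) ≤ x ^ (be v) := by
    have ha1 : 0 ≤ (1 / v - x) / (1 / v - 1) := div_nonneg (by linarith) (by linarith)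
    have hb2 : 0 ≤ (x - 1) / (1 / v - 1) := div_nonneg (by linarith) (by linarith)
    have hab : (1 / v - x) / (1 / v - 1) + (x - 1) / (1 / v - 1) = 1 := by
      rw [← add_div, div_eq_one_iff_eq (by linarith)]; ring
    have hm1 : (1:ℝ) ∈ Set.Ici (0:ℝ) := by simp
    have hm2 : (1/v:ℝ) ∈ Set.Ici (0:ℝ) := by simp [hvp.le]
    have hcc := (Real.concaveOn_rpow hb.le hb1.le).2 hm1 hm2 ha1 hb2 hab
    simp only [smul_eq_mul, Real.one_rpow, mul_one] at hcc
    have e1 : (1 / v) ^ (be v) = 1 / v - v := hv.xs_eq.symm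
    rw [e1] at hcc
    have e2 : (1 / v - x) / (1 / v - 1) + (x - 1) / (1 / v - 1) * (1 / v) = x := by
      have h3 : 1 / v - 1 ≠ 0 := by linarith
      rw [div_mul_eq_mul_div, ← add_div, div_eq_iff h3]
      ring
    rw [e2] at hcc
    exact hcc
  have hw2 : 1 - w = 1 / nu c (i+1) := by
    rw [hw, nu_succ]; field_simp [show nu c i + 1 ≠ 0 by linarith]; ring
  have hxb2 : x ^ (be v) ≤ 1 / v - v := by
    rw [hv.xs_eq]
    exact Real.rpow_le_rpow (by linarith) hxs.le hb.le
  -- v (1/v - x)/(1/v - 1) ≤ x^β - (x - v) ≤ x^β (1 - w) ≤ (1/v - v)/ν_i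
  have h1 : v * (1 / v - x) / (1 / v - 1) ≤ (1 / v - v) / nu c i := by
    have h2 : v * (1 / v - x) / (1 / v - 1) =
        ((1 / v - x) / (1 / v - 1) + (x - 1) / (1 / v - 1) * (1 / v - v)) - (x - v) := by
      have h3 : 1 / v - 1 ≠ 0 := by linarith
      have h4 : 1 - v ≠ 0 := by linarith [hv.lt_one]
      field_simp
      ring
    have h5 : x ^ (be v) * (1 - w) ≤ (1 / v - v) / nu c i := by
      rw [hw2, div_eq_mul_one_div (1 / v - v)]
      apply mul_le_mul hxb2 _ (by positivity) (by linarith [hv.hi])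
      exact one_div_le_one_div_of_le hi (nu_mono (by omega))
    linarith
  have h2 : (1 / v - x) * nu c i ≤ (1 / v - v) * (1 / v - 1) / v := by
    rw [div_le_div_iff₀ (by linarith) hi] at h1
    rw [le_div_iff₀ hvp]
    linarith
  have h3 : (1 / v - v) * (1 / v - 1) / v < 5 := by
    have hlo := hv.lo
    have h4 : (1 / v - v) * (1 / v - 1) / v = (1 - v^2) * (1 - v) / v^3 := by
      field_simp
    rw [h4, div_lt_iff₀ (by positivity)]
    have h5 : v^3 > (13/28)^3 := by
      apply pow_lt_pow_left₀ hlo (by norm_num) (by norm_num)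
    have h6 : (1 - v^2) * (1 - v) ≤ (1 - (13/28)^2) * (1 - 13/28) := by
      apply mul_le_mul _ _ (by linarith [hv.lt_one]) (by norm_num)
      · nlinarith
      · linarith
    norm_num at h5 h6
    linarith
  have h4 : (1 / v - x) * nu c i = nu c i / v - nu c n := by rw [hnx]; ring
  linarith

include hv hc in
theorem sysNN : Sys (aa (be v) c) (rho (be v) c) (NN v c) where
  apos := aa_pos (be_pos hv) (be_lt hv) hc
  rpos := rho_pos (be_pos hv) hc
  anti := rho_anti (be_pos hv) hc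
  step := aa_succ (be v) c
  hN := fun i => (NN_spec hv hc i).1
  reach := fun i => (NN_spec hv hc i).2
  before := fun i n h1 h2 => not_le.1 (NN_before i n h1 h2)

end threshold


end N298.PGA
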