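import Pool.Agent.N298.PGA.Const

/-!
# Sharper numerical bounds for the root
-/

namespace N298.PGA

open Real Set

lemma chi_lo2 : chi (59/127) < 0 := by
  have h1 : log ((59/127 : ℝ) ^ 59) < log ((12648/16129 : ℝ) ^ 186) := by
    apply Real.log_lt_log (by positivity)
    norm_num
  rw [Real.log_pow, Real.log_pow] at h1
  have h2 : (1 - (59/127 : ℝ) ^ 2) = 12648/16129 := by norm_num
  rw [chi, h2]
  norm_num at h1 ⊢
  linarith

lemma chi_hi2 : 0 < chi (46/99) := by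
  have h1 : log ((7685/9801 : ℝ) ^ 145) < log ((46/99 : ℝ) ^ 46) := by
    apply Real.log_lt_log (by positivity)
    norm_num
  rw [Real.log_pow, Real.log_pow] at h1
  have h2 : (1 - (46/99 : ℝ) ^ 2) = 7685/9801 := by norm_num
  rw [chi, h2]
  norm_num at h1 ⊢
  linarith

lemma IsRoot.lo2 {v : ℝ} (h : IsRoot v) : 59/127 < v := by
  by_contra hc
  push Not at hc
  have h2 := (chi_zero_iff h.pos h.lt_one).1 h.eq
  have := chi_strictMono.monotoneOn ⟨h.pos, h.lt_one⟩ (by norm_num : (59/127:ℝ) ∈ Ioo (0:ℝ) 1) hc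
  linarith [chi_lo2]

lemma IsRoot.hi2 {v : ℝ} (h : IsRoot v) : v < 46/99 := by
  by_contra hc
  push Not at hc
  have h2 := (chi_zero_iff h.pos h.lt_one).1 h.eq
  have := chi_strictMono.monotoneOn (by norm_num : (46/99:ℝ) ∈ Ioo (0:ℝ) 1) ⟨h.pos, h.lt_one⟩ hc
  linarith [chi_hi2]

end N298.PGA
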