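import Pool.Agent.N298.PGA.Low2

/-!
# Quasi-orthogonality of the critical dictionary: the core estimate
-/

namespace N298.PGA

open Real Finset Filter Topology

section

variable {c : ℕ} (hc' : 2000 ≤ c) {v : ℝ} (hv : IsRoot v)

include hc' hv in
lemma aa_three (n : ℕ) : aa (be v) c n ≤ 3 * aa (be v) c (3 * n) := by
  have hc : 2 ≤ c := by omega
  have hb := be_pos hv
  have hb1 := be_lt hv
  have hQ := Q_mono hb hb1 hc (show n ≤ 3 * n by omega)
  simp only at hQ
  have h1 : 0 < nu c n - 1 := by have := two_le_nu hc n; linarith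
  have h3 : 0 < nu c (3*n) - 1 := by have := two_le_nu hc (3*n); linarith
  have h2 : nu c (3*n) - 1 ≤ 3 * (nu c n - 1) := by
    unfold nu; push_cast
    have : (2000:ℝ) ≤ c := by exact_mod_cast hc'
    linarith
  have h4 : (nu c (3*n) - 1) ^ (be v) ≤ 3 * (nu c n - 1) ^ (be v) := by
    calc (nu c (3*n) - 1) ^ (be v) ≤ (3 * (nu c n - 1)) ^ (be v) :=
          Real.rpow_le_rpow h3.le h2 hb.le
      _ = 3 ^ (be v) * (nu c n - 1) ^ (be v) := Real.mul_rpow (by norm_num) h1.le
      _ ≤ 3 * (nu c n - 1) ^ (be v) := by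
          apply mul_le_mul_of_nonneg_right _ (by positivity)
          calc (3:ℝ) ^ (be v) ≤ 3 ^ (1:ℝ) :=
                Real.rpow_le_rpow_of_exponent_le (by norm_num) hb1.le
            _ = 3 := Real.rpow_one 3
  have hp : 0 < (nu c n - 1) ^ (be v) := Real.rpow_pos_of_pos h1 _
  have ha := aa_pos hb hb1 hc (3*n)
  have h5 : aa (be v) c n * (nu c n - 1) ^ (be v) ≤
      (3 * aa (be v) c (3*n)) * (nu c n - 1) ^ (be v) := by
    calc _ ≤ _ := hQ
      _ ≤ aa (be v) c (3*n) * (3 * (nu c n - 1) ^ (be v)) :=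
          mul_le_mul_of_nonneg_left h4 ha.le
      _ = _ := by ring
  exact le_of_mul_le_mul_right h5 hp

include hc' hv in
lemma n_aa_ge {n : ℕ} (hn : 1 ≤ n) : 1/2 ≤ n * aa (be v) c n := by
  have hc : 2 ≤ c := by omega
  have hb := be_pos hv
  have hb1 := be_lt hv
  have hcr : (2000:ℝ) ≤ c := by exact_mod_cast hc'
  have hnr : (1:ℝ) ≤ n := by exact_mod_cast hn
  have hQ := Q_mono hb hb1 hc (Nat.zero_le n)
  simp only [aa_zero, one_mul] at hQ
  have e0 : nu c 0 = c := by simp [nu]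
  have en : nu c n = (n:ℝ) + c := rfl
  rw [e0] at hQ
  have h1 : 0 < nu c n - 1 := by rw [en]; linarith
  have h2 : 0 < (c:ℝ) - 1 := by linarith
  have hr : ((c:ℝ) - 1) / (nu c n - 1) ≤ aa (be v) c n := by
    have h3 : ((c:ℝ) - 1) / (nu c n - 1) ≤ (((c:ℝ) - 1) / (nu c n - 1)) ^ (be v) := by
      have h4 : ((c:ℝ) - 1) / (nu c n - 1) ≤ 1 := by
        rw [div_le_one h1, en]; linarith
      calc _ = (((c:ℝ) - 1) / (nu c n - 1)) ^ (1:ℝ) := (Real.rpow_one _).symm
        _ ≤ _ := Real.rpow_le_rpow_of_exponent_ge (by positivity) h4 hb1.le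
    refine h3.trans ?_
    rw [Real.div_rpow h2.le h1.le, div_le_iff₀ (Real.rpow_pos_of_pos h1 _)]
    exact hQ
  have h5 : 1/2 ≤ (n:ℝ) * (((c:ℝ) - 1) / (nu c n - 1)) := by
    rw [en, mul_div_assoc', div_le_div_iff₀ (by norm_num) (by linarith)]
    nlinarith
  calc 1/2 ≤ _ := h5
    _ ≤ _ := mul_le_mul_of_nonneg_left hr (by linarith)

include hc' hv in
lemma sum_aa_le {n : ℕ} (hn : 1 ≤ n) :
    ∑ k ∈ range n, aa (be v) c k ≤ 5 * (1 + c) * (n * aa (be v) c n) := by
  have hc : 2 ≤ c := by omega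
  have hb := be_gt hv
  have hvlo := hv.lo
  have hvp := hv.pos
  have hnr : (1:ℝ) ≤ n := by exact_mod_cast hn
  have hcr : (2000:ℝ) ≤ c := by exact_mod_cast hc'
  have ha := aa_pos (be_pos hv) (be_lt hv) hc n
  have h1 := sum_aa (β := be v) hc 0 n (Nat.zero_le n)
  rw [one_sub_be hv, ← Finset.range_eq_Ico] at h1
  have hb0 : 0 ≤ bb (be v) c 0 := by
    unfold bb; rw [aa_zero, mul_one]; have := two_le_nu hc 0; linarith
  have hbn : bb (be v) c n ≤ (1 + c) * (n * aa (be v) c n) := by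
    unfold bb
    have en : nu c n = (n:ℝ) + c := rfl
    rw [en]
    have : (n:ℝ) + c - 1 ≤ (1 + c) * n := by nlinarith
    calc ((n:ℝ) + c - 1) * aa (be v) c n ≤ ((1 + c) * n) * aa (be v) c n :=
          mul_le_mul_of_nonneg_right this ha.le
      _ = _ := by ring
  have h4 : 1/5 ≤ v * be v := by nlinarith
  have h5 : 0 ≤ ∑ k ∈ range n, aa (be v) c k :=
    Finset.sum_nonneg fun k _ => (aa_pos (be_pos hv) (be_lt hv) hc k).le
  nlinarith

end

section

variable {c : ℕ} (hc' : 2000 ≤ c) {v : ℝ} (hv : IsRoot v)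
variable {H : Type*} [NormedAddCommGroup H] [InnerProductSpace ℝ H]
variable {φ : ℕ → H}
  (hφ : ∀ i j, inner ℝ (φ i) (φ j) = Gm (aa (be v) c) (rho (be v) c) (NN v c) i j)

include hφ in
lemma norm_comb (n : ℕ) (x : ℕ → ℝ) : ‖∑ i ∈ range n, x i • φ i‖ ^ 2 = QQ v c n x := by
  rw [← real_inner_self_eq_norm_sq, sum_inner]
  unfold QQ
  apply Finset.sum_congr rfl
  intro i _
  rw [inner_sum]
  apply Finset.sum_congr rfl
  intro j _
  rw [real_inner_smul_left, real_inner_smul_right, hφ]; ring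

include hc' hv hφ in
/-- the core estimate -/
theorem qo_core {f0 : H} (hf0 : Tendsto (fun J => SS v c φ 0 J) atTop (𝓝 f0)) {L : ℝ}
    (hL : 0 ≤ L) {n : ℕ} (hn : 1 ≤ n) (I : Finset ℕ) (hI : I.card ≤ n) (Y : ℝ) (x : ℕ → ℝ)
    {μ : ℝ} (hμ : 0 ≤ μ)
    (h1 : |inner ℝ (Y • f0 + ∑ j ∈ I ∪ range n, x j • φ j) f0| ≤ L * μ)
    (h2 : ∀ j ∈ I ∪ range n, |inner ℝ (Y • f0 + ∑ j ∈ I ∪ range n, x j • φ j) (φ j)| ≤ μ) :
    ‖Y • f0 + ∑ j ∈ I ∪ range n, x j • φ j‖ ≤
      (14 * (2 * L + 5 * (1 + c) + 1) + 7) * Real.sqrt n * μ := by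
  classical
  have hc : 2 ≤ c := by omega
  set Js := I ∪ range n with hJs
  set X : H := Y • f0 + ∑ j ∈ Js, x j • φ j with hX
  set R : ℝ := ‖X‖ with hR
  have hR0 : 0 ≤ R := norm_nonneg _
  set a := aa (be v) c with ha
  have hap : ∀ k, 0 < a k := fun k => aa_pos (be_pos hv) (be_lt hv) hc k
  have hanti : ∀ {i j : ℕ}, i ≤ j → a j ≤ a i := fun h => aa_anti (be_pos hv) (be_lt hv) hc h
  set C : ℕ → ℝ := fun j => Y * a j + (if j ∈ Js then x j else 0) with hC
  have hnr : (1:ℝ) ≤ n := by exact_mod_cast hn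
  have hsn : 0 < Real.sqrt n := Real.sqrt_pos.2 (by linarith)
  have hsn2 : Real.sqrt n ^ 2 = n := Real.sq_sqrt (by linarith)
  -- X as a limit
  have hlim : Tendsto (fun J => ∑ j ∈ range J, C j • φ j) atTop (𝓝 X) := by
    have h3 : Tendsto (fun J => Y • SS v c φ 0 J + ∑ j ∈ Js, x j • φ j) atTop (𝓝 X) :=
      (hf0.const_smul Y).add_const _
    refine h3.congr' ?_
    obtain ⟨J0, hJ0⟩ : ∃ J0, Js ⊆ range J0 := by
      refine ⟨Js.sup id + 1, fun i hi => ?_⟩
      rw [Finset.mem_range]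
      exact Nat.lt_succ_of_le (Finset.le_sup (f := id) hi)
    filter_upwards [eventually_ge_atTop J0] with J hJ
    have hsub : Js ⊆ range J := hJ0.trans (Finset.range_subset_range.2 hJ)
    unfold SS
    rw [Finset.smul_sum, ← Finset.range_eq_Ico]
    have h4 : ∑ j ∈ Js, x j • φ j = ∑ j ∈ range J, (if j ∈ Js then x j else 0) • φ j := by
      rw [← Finset.sum_subset hsub]
      · apply Finset.sum_congr rfl
        intro j hj; rw [if_pos hj]
      · intro j _ hj; rw [if_neg hj, zero_smul]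
    rw [h4, ← Finset.sum_add_distrib]
    apply Finset.sum_congr rfl
    intro j _
    simp only [hC]
    rw [add_smul, smul_smul]
  -- Riesz bound
  have hRiesz : ∀ J, ∑ j ∈ range J, C j ^ 2 ≤ 20 * R ^ 2 := by
    intro J
    have h3 : Tendsto (fun J => 20 * ‖∑ j ∈ range J, C j • φ j‖ ^ 2) atTop (𝓝 (20 * R ^ 2)) :=
      ((hlim.norm).pow 2).const_mul 20
    apply ge_of_tendsto h3
    filter_upwards [eventually_ge_atTop J] with J' hJ'
    rw [norm_comb hφ]
    have h4 := QQ_ge hv hc' J' C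
    have h5 : ∑ j ∈ range J, C j ^ 2 ≤ ∑ j ∈ range J', C j ^ 2 :=
      Finset.sum_le_sum_of_subset_of_nonneg (Finset.range_subset_range.2 hJ')
        (fun i _ _ => sq_nonneg _)
    linarith
  -- bound for Y
  have hY : |Y| * a n * Real.sqrt n ≤ 14 * R := by
    have h3 := aa_three hc' hv n
    have h4 : (n:ℝ) * (Y * a (3*n)) ^ 2 ≤ 20 * R ^ 2 := by
      refine le_trans ?_ (hRiesz (3*n))
      set Q := (Finset.Ico n (3*n)) \ I with hQ
      have hQc : n ≤ Q.card := by
        have h5 : (Finset.Ico n (3*n)).card - I.card ≤ ((Finset.Ico n (3*n)) \ I).card :=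
          Finset.le_card_sdiff I (Finset.Ico n (3*n))
        rw [Nat.card_Ico] at h5
        rw [hQ]
        omega
      have hQs : Q ⊆ range (3*n) := by
        intro j hj
        rw [hQ, Finset.mem_sdiff, Finset.mem_Ico] at hj
        exact Finset.mem_range.2 hj.1.2
      calc (n:ℝ) * (Y * a (3*n)) ^ 2 ≤ (Q.card : ℝ) * (Y * a (3*n)) ^ 2 :=
            mul_le_mul_of_nonneg_right (by exact_mod_cast hQc) (sq_nonneg _)
        _ = ∑ _j ∈ Q, (Y * a (3*n)) ^ 2 := by rw [Finset.sum_const, nsmul_eq_mul]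
        _ ≤ ∑ j ∈ Q, C j ^ 2 := by
            apply Finset.sum_le_sum
            intro j hj
            rw [hQ, Finset.mem_sdiff, Finset.mem_Ico] at hj
            have hjJ : j ∉ Js := by
              rw [hJs, Finset.mem_union, Finset.mem_range]
              push Not
              exact ⟨hj.2, hj.1.1⟩
            simp only [hC, if_neg hjJ, add_zero]
            rw [mul_pow, mul_pow]
            apply mul_le_mul_of_nonneg_left _ (sq_nonneg _)
            exact pow_le_pow_left₀ (hap _).le (hanti (by omega)) 2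
        _ ≤ _ := Finset.sum_le_sum_of_subset_of_nonneg hQs (fun i _ _ => sq_nonneg _)
    have h5 : (|Y| * a (3*n) * Real.sqrt n) ^ 2 ≤ (5 * R) ^ 2 := by
      have : (|Y| * a (3*n) * Real.sqrt n) ^ 2 = (n:ℝ) * (Y * a (3*n)) ^ 2 := by
        rw [mul_pow, mul_pow, sq_abs, hsn2]; ring
      rw [this]; nlinarith [sq_nonneg R]
    have h6 : (|Y| * a (3*n) * Real.sqrt n) ^ 2 ≤ ((14/3) * R) ^ 2 := by
      have : (|Y| * a (3*n) * Real.sqrt n) ^ 2 = (n:ℝ) * (Y * a (3*n)) ^ 2 := by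
        rw [mul_pow, mul_pow, sq_abs, hsn2]; ring
      rw [this]; nlinarith [sq_nonneg R]
    have h7 : |Y| * a (3*n) * Real.sqrt n ≤ (14/3) * R :=
      le_of_sq_le_sq h6 (by positivity)
    calc |Y| * a n * Real.sqrt n ≤ |Y| * (3 * a (3*n)) * Real.sqrt n := by
          apply mul_le_mul_of_nonneg_right _ hsn.le
          exact mul_le_mul_of_nonneg_left h3 (abs_nonneg _)
      _ = 3 * (|Y| * a (3*n) * Real.sqrt n) := by ring
      _ ≤ _ := by linarith
  -- the sum of a over Js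
  have hsumJ : ∑ j ∈ Js, a j ≤ (5 * (1 + c) + 1) * (n * a n) := by
    have h3 : ∑ j ∈ Js, a j ≤ ∑ j ∈ range n, a j + ∑ j ∈ I \ range n, a j := by
      have : Js = range n ∪ (I \ range n) := by
        rw [hJs]; ext j; simp only [Finset.mem_union, Finset.mem_sdiff]; tauto
      rw [this]
      rw [Finset.sum_union]
      exact Finset.disjoint_sdiff
    have h4 := sum_aa_le hc' hv hn
    have h5 : ∑ j ∈ I \ range n, a j ≤ n * a n := by
      calc ∑ j ∈ I \ range n, a j ≤ ∑ _j ∈ I \ range n, a n := by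
            apply Finset.sum_le_sum
            intro j hj
            rw [Finset.mem_sdiff, Finset.mem_range] at hj
            exact hanti (by omega)
        _ = ((I \ range n).card : ℝ) * a n := by rw [Finset.sum_const, nsmul_eq_mul]
        _ ≤ n * a n := by
            apply mul_le_mul_of_nonneg_right _ (hap n).le
            have : (I \ range n).card ≤ n := (Finset.card_le_card Finset.sdiff_subset).trans hI
            exact_mod_cast this
    have h6 : (5 * (1 + (c:ℝ)) + 1) * (n * a n) = 5 * (1 + c) * (n * a n) + n * a n := by ring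
    rw [h6]; linarith
  -- the sum of |C|
  have hCsum : ∑ j ∈ Js, |C j| ≤ 7 * Real.sqrt n * R := by
    have h3 : (∑ j ∈ Js, |C j|) ^ 2 ≤ (7 * Real.sqrt n * R) ^ 2 := by
      have h4 : (∑ j ∈ Js, |C j|) ^ 2 ≤ (Js.card : ℝ) * ∑ j ∈ Js, |C j| ^ 2 :=
        sq_sum_le_card_mul_sum_sq
      have h5 : ∑ j ∈ Js, |C j| ^ 2 ≤ 20 * R ^ 2 := by
        obtain ⟨J0, hJ0⟩ : ∃ J0, Js ⊆ range J0 := by
          refine ⟨Js.sup id + 1, fun i hi => ?_⟩
          rw [Finset.mem_range]
          exact Nat.lt_succ_of_le (Finset.le_sup (f := id) hi)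
        simp only [sq_abs]
        exact (Finset.sum_le_sum_of_subset_of_nonneg hJ0 (fun i _ _ => sq_nonneg _)).trans
          (hRiesz J0)
      have h6 : (Js.card : ℝ) ≤ 2 * n := by
        have : Js.card ≤ I.card + (range n).card := Finset.card_union_le _ _
        rw [Finset.card_range] at this
        have h7 : Js.card ≤ 2 * n := by omega
        exact_mod_cast h7
      have h8 : 0 ≤ ∑ j ∈ Js, |C j| ^ 2 := Finset.sum_nonneg fun i _ => sq_nonneg _
      calc _ ≤ _ := h4
        _ ≤ (2 * n) * (20 * R ^ 2) := mul_le_mul h6 h5 h8 (by positivity)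
        _ ≤ (7 * Real.sqrt n * R) ^ 2 := by
            rw [mul_pow, mul_pow, hsn2]; nlinarith [sq_nonneg R, mul_nonneg (by linarith : (0:ℝ) ≤ n) (sq_nonneg R)]
    exact le_of_sq_le_sq h3 (by positivity)
  -- expansion of the norm
  have hexp : R ^ 2 = Y * (inner ℝ X f0 - ∑ j ∈ Js, a j * inner ℝ X (φ j)) +
      ∑ j ∈ Js, C j * inner ℝ X (φ j) := by
    have h3 : R ^ 2 = Y * inner ℝ X f0 + ∑ j ∈ Js, x j * inner ℝ X (φ j) := by
      rw [hR, ← real_inner_self_eq_norm_sq]
      conv_lhs => rw [hX]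
      rw [inner_add_left, real_inner_smul_left, sum_inner, real_inner_comm]
      congr 1
      apply Finset.sum_congr rfl
      intro j _
      rw [real_inner_smul_left, real_inner_comm]
    rw [h3, mul_sub, Finset.mul_sum]
    have h4 : ∑ j ∈ Js, C j * inner ℝ X (φ j) = ∑ j ∈ Js, Y * (a j * inner ℝ X (φ j)) +
        ∑ j ∈ Js, x j * inner ℝ X (φ j) := by
      rw [← Finset.sum_add_distrib]
      apply Finset.sum_congr rfl
      intro j hj
      simp only [hC, if_pos hj]; ring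
    rw [h4]; ring
  have hb1 : |inner ℝ X f0 - ∑ j ∈ Js, a j * inner ℝ X (φ j)| ≤
      μ * ((2 * L + 5 * (1 + c) + 1) * (n * a n)) := by
    have h3 : |∑ j ∈ Js, a j * inner ℝ X (φ j)| ≤ μ * ∑ j ∈ Js, a j := by
      calc _ ≤ ∑ j ∈ Js, |a j * inner ℝ X (φ j)| := Finset.abs_sum_le_sum_abs _ _
        _ ≤ ∑ j ∈ Js, μ * a j := by
            apply Finset.sum_le_sum
            intro j hj
            rw [abs_mul, abs_of_pos (hap j), mul_comm]
            exact mul_le_mul_of_nonneg_right (h2 j hj) (hap j).le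
        _ = _ := by rw [Finset.mul_sum]
    have h4 := abs_sub (inner ℝ X f0) (∑ j ∈ Js, a j * inner ℝ X (φ j))
    have h5 := n_aa_ge hc' hv hn
    have h6 : L * μ ≤ μ * (2 * L * (n * a n)) := by
      have : L * 1 ≤ L * (2 * (n * a n)) := mul_le_mul_of_nonneg_left (by linarith) hL
      nlinarith
    have h7 : μ * ∑ j ∈ Js, a j ≤ μ * ((5 * (1 + c) + 1) * (n * a n)) :=
      mul_le_mul_of_nonneg_left hsumJ hμ
    have h8 : μ * ((2 * L + 5 * (1 + c) + 1) * (n * a n)) =
        μ * (2 * L * (n * a n)) + μ * ((5 * (1 + c) + 1) * (n * a n)) := by ring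
    rw [h8]
    linarith [h1]
  have hb2 : |∑ j ∈ Js, C j * inner ℝ X (φ j)| ≤ μ * (7 * Real.sqrt n * R) := by
    calc _ ≤ ∑ j ∈ Js, |C j * inner ℝ X (φ j)| := Finset.abs_sum_le_sum_abs _ _
      _ ≤ ∑ j ∈ Js, μ * |C j| := by
          apply Finset.sum_le_sum
          intro j hj
          rw [abs_mul, mul_comm]
          exact mul_le_mul_of_nonneg_right (h2 j hj) (abs_nonneg _)
      _ = μ * ∑ j ∈ Js, |C j| := by rw [Finset.mul_sum]
      _ ≤ _ := mul_le_mul_of_nonneg_left hCsum hμ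
  set K1 : ℝ := 2 * L + 5 * (1 + c) + 1 with hK1
  have hK1p : 0 ≤ K1 := by positivity
  have hfin : R ^ 2 ≤ (14 * K1 + 7) * Real.sqrt n * μ * R := by
    have h3 : |Y * (inner ℝ X f0 - ∑ j ∈ Js, a j * inner ℝ X (φ j))| ≤
        14 * K1 * Real.sqrt n * μ * R := by
      rw [abs_mul]
      calc |Y| * |inner ℝ X f0 - ∑ j ∈ Js, a j * inner ℝ X (φ j)| ≤
            |Y| * (μ * (K1 * (n * a n))) := mul_le_mul_of_nonneg_left hb1 (abs_nonneg _)
        _ = (|Y| * a n * Real.sqrt n) * (μ * K1 * Real.sqrt n) := by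
            have : (n:ℝ) = Real.sqrt n * Real.sqrt n := by rw [← sq, hsn2]
            calc |Y| * (μ * (K1 * (n * a n))) = |Y| * a n * (μ * K1) * n := by ring
              _ = |Y| * a n * (μ * K1) * (Real.sqrt n * Real.sqrt n) := by rw [← this]
              _ = _ := by ring
        _ ≤ (14 * R) * (μ * K1 * Real.sqrt n) :=
            mul_le_mul_of_nonneg_right hY (by positivity)
        _ = _ := by ring
    have h4 := le_abs_self (Y * (inner ℝ X f0 - ∑ j ∈ Js, a j * inner ℝ X (φ j)))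
    have h5 := le_abs_self (∑ j ∈ Js, C j * inner ℝ X (φ j))
    have h6 : (14 * K1 + 7) * Real.sqrt n * μ * R = 14 * K1 * Real.sqrt n * μ * R +
        μ * (7 * Real.sqrt n * R) := by ring
    rw [h6]
    linarith
  rcases hR0.eq_or_lt with h0 | h0
  · rw [← h0]; positivity
  · have : R * R ≤ ((14 * K1 + 7) * Real.sqrt n * μ) * R := by rw [← sq]; exact hfin
    exact le_of_mul_le_mul_right this h0

end

end N298.PGA
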