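import Pool.Agent.N298.PGA.Upper

/-!
# The upper bound for the Pure Greedy Algorithm
-/

namespace N298.PGA

open Real Finset

section pga

variable {H : Type*} [NormedAddCommGroup H] [InnerProductSpace ℝ H]

lemma A1_inner {D : Set H} {f w : H} (hf : f ∈ A1 D) {M : ℝ} (hM : 0 ≤ M)
    (h : ∀ g ∈ D, |(inner ℝ w g)| ≤ M) : |(inner ℝ w f)| ≤ M := by
  have hcl : IsClosed {f : H | |(inner ℝ w f)| ≤ M} :=
    isClosed_le (by fun_prop) continuous_const
  have hsub : A10 D ⊆ {f : H | |(inner ℝ w f)| ≤ M} := by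
    rintro f ⟨n, c, g, hg, hc, rfl⟩
    simp only [Set.mem_ofPred_eq]
    rw [inner_sum]
    calc |∑ i, (inner ℝ w (c i • g i))| ≤ ∑ i, |(inner ℝ w (c i • g i))| := Finset.abs_sum_le_sum_abs _ _
      _ ≤ ∑ i, |c i| * M := by
          apply Finset.sum_le_sum
          intro i _
          rw [real_inner_smul_right, abs_mul]
          exact mul_le_mul_of_nonneg_left (h _ (hg i)) (abs_nonneg _)
      _ = (∑ i, |c i|) * M := by rw [Finset.sum_mul]
      _ ≤ 1 * M := mul_le_mul_of_nonneg_right hc hM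
      _ = M := one_mul M
  exact closure_minimal hsub hcl hf

lemma A1_norm {D : Set H} (hD : IsDictionary D) {f : H} (hf : f ∈ A1 D) : ‖f‖ ≤ 1 := by
  have hcl : IsClosed {f : H | ‖f‖ ≤ 1} := isClosed_le continuous_norm continuous_const
  have hsub : A10 D ⊆ {f : H | ‖f‖ ≤ 1} := by
    rintro f ⟨n, c, g, hg, hc, rfl⟩
    simp only [Set.mem_ofPred_eq]
    calc ‖∑ i, c i • g i‖ ≤ ∑ i, ‖c i • g i‖ := norm_sum_le _ _
      _ = ∑ i, |c i| := by
          apply Finset.sum_congr rfl
          intro i _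
          rw [norm_smul, hD.norm_eq_one _ (hg i), Real.norm_eq_abs, mul_one]
      _ ≤ 1 := hc
  exact closure_minimal hsub hcl hf

variable {D : Set H} (hD : IsDictionary D) {f : H} (hf : f ∈ A1 D) {m : ℕ} {φ G : ℕ → H}
  (hG : IsPGA D f m φ G)

/-- residuals -/
noncomputable def rs (f : H) (G : ℕ → H) (k : ℕ) : H := f - G k

/-- step sizes -/
noncomputable def st (f : H) (φ G : ℕ → H) (k : ℕ) : ℝ := |(inner ℝ (f - G k) (φ (k+1)))|

noncomputable def sgm (f : H) (φ G : ℕ → H) (k : ℕ) : ℝ := 1 + ∑ i ∈ range k, st f φ G i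

include hG in
lemma rs_succ {k : ℕ} (hk : k < m) :
    f - G (k+1) = (f - G k) - (inner ℝ (f - G k) (φ (k+1))) • φ (k+1) := by
  rw [hG.step k hk]; abel

lemma st_nonneg (k : ℕ) : 0 ≤ st f φ G k := abs_nonneg _

include hG in
lemma inner_le {k : ℕ} (hk : k < m) {g : H} (hg : g ∈ D) : |(inner ℝ (f - G k) g)| ≤ st f φ G k :=
  hG.greedy k hk g hg

include hf hG in
lemma inner_sgm {n : ℕ} (hn : n ≤ m) {w : H} {M : ℝ} (hM : 0 ≤ M) (h : ∀ g ∈ D, |(inner ℝ w g)| ≤ M) :
    |(inner ℝ w (f - G n))| ≤ sgm f φ G n * M := by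
  induction n with
  | zero =>
    rw [hG.zero, sub_zero]; unfold sgm; simp only [range_zero, sum_empty, add_zero, one_mul]
    exact A1_inner hf hM h
  | succ n ih =>
    rw [rs_succ hG (by omega : n < m), inner_sub_right, real_inner_smul_right]
    have h1 := ih (by omega)
    have h2 := h _ (hG.mem n (by omega))
    have h3 : |(inner ℝ (f - G n) (φ (n+1))) * (inner ℝ w (φ (n+1)))| ≤ st f φ G n * M := by
      rw [abs_mul]
      exact mul_le_mul_of_nonneg_left h2 (abs_nonneg _)
    have h4 : sgm f φ G (n+1) = sgm f φ G n + st f φ G n := by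
      unfold sgm; rw [Finset.sum_range_succ]; ring
    rw [h4]
    have := abs_sub ((inner ℝ w (f - G n))) ((inner ℝ (f - G n) (φ (n+1))) * (inner ℝ w (φ (n+1))))
    linarith

include hD hG in
lemma E_succ {k : ℕ} (hk : k < m) : ‖f - G (k+1)‖ ^ 2 = ‖f - G k‖ ^ 2 - st f φ G k ^ 2 := by
  rw [rs_succ hG hk, norm_sub_sq_real, real_inner_smul_right, norm_smul, mul_pow,
    hD.norm_eq_one _ (hG.mem k hk), Real.norm_eq_abs]
  unfold st
  rw [sq_abs]; ring

include hf hG in
lemma key_ineq (n k : ℕ) (hnk : n ≤ k) (hk : k < m) :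
    ‖f - G n‖ ^ 2 ≤ st f φ G k * sgm f φ G n + st f φ G n * (sgm f φ G k - sgm f φ G n) := by
  have h1 : ∀ k, n ≤ k → k < m → (inner ℝ (f - G n) (f - G n)) - (inner ℝ (f - G n) (f - G k)) ≤
      st f φ G n * (sgm f φ G k - sgm f φ G n) := by
    intro k hnk
    induction k, hnk using Nat.le_induction with
    | base => intro _; simp
    | succ k hnk ih =>
      intro hk
      have h2 := ih (by omega)
      have e5 : (inner ℝ (f - G n) (f - G (k+1))) = (inner ℝ (f - G n) (f - G k)) -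
          (inner ℝ (f - G k) (φ (k+1))) * (inner ℝ (f - G n) (φ (k+1))) := by
        rw [rs_succ hG (by omega : k < m), inner_sub_right (f - G n) (f - G k),
          real_inner_smul_right]
      rw [e5]
      have h3 : (inner ℝ (f - G k) (φ (k+1))) * (inner ℝ (f - G n) (φ (k+1))) ≤ st f φ G k * st f φ G n := by
        calc _ ≤ |(inner ℝ (f - G k) (φ (k+1))) * (inner ℝ (f - G n) (φ (k+1)))| := le_abs_self _
          _ = |(inner ℝ (f - G k) (φ (k+1)))| * |(inner ℝ (f - G n) (φ (k+1)))| := abs_mul _ _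
          _ ≤ _ := mul_le_mul_of_nonneg_left
            (inner_le hG (by omega : n < m) (hG.mem k (by omega))) (abs_nonneg _)
      have h4 : sgm f φ G (k+1) = sgm f φ G k + st f φ G k := by
        unfold sgm; rw [Finset.sum_range_succ]; ring
      rw [h4]
      linarith
  have h2 := h1 k hnk hk
  have h3 := inner_sgm hf hG (show n ≤ m by omega) (w := f - G k) (M := st f φ G k)
    (st_nonneg k) (fun g hg => inner_le hG hk hg)
  rw [real_inner_comm] at h3
  have h4 := le_abs_self ((inner ℝ (f - G n) (f - G k)))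
  rw [real_inner_self_eq_norm_sq] at h2
  linarith

include hD hf hG in
/-- `E_m σ_m^γ ≤ λ^{γ+2}` -/
theorem PGA_bound {v : ℝ} (hv : IsRoot v) :
    ‖f - G m‖ ^ 2 * sgm f φ G m ^ ((1 - v) / v) ≤ (1 / (1 - v ^ 2)) ^ ((1 - v) / v + 2) := by
  have h1v : 0 < 1 - v ^ 2 := by nlinarith [hv.pos, hv.lt_one]
  by_cases hpos : ∀ k < m, 0 < st f φ G k
  · have Dt : Data m (st f φ G) (fun k => ‖f - G k‖ ^ 2) (sgm f φ G) :=
      { apos := hpos
        s0 := by simp [sgm]
        s := fun k _ => by unfold sgm; rw [Finset.sum_range_succ]; ring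
        e := fun k hk => E_succ hD hG hk
        e0 := by
          rw [hG.zero, sub_zero]
          have := A1_norm hD hf
          have h2 := norm_nonneg f
          nlinarith
        epos := by positivity
        key := fun n k hnk hk => key_ineq hf hG n k hnk hk }
    exact Dt.bound hv
  · push Not at hpos
    obtain ⟨k, hk, hk0⟩ := hpos
    have hk0' : st f φ G k = 0 := le_antisymm hk0 (st_nonneg k)
    have h1 := key_ineq hf hG k k le_rfl hk
    rw [hk0'] at h1
    have hmono : ∀ j, k ≤ j → j ≤ m → ‖f - G j‖ ^ 2 ≤ 0 := by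
      intro j hkj
      induction j, hkj using Nat.le_induction with
      | base => intro _; linarith
      | succ j hj ih =>
        intro hjm
        have h2 := ih (by omega)
        rw [E_succ hD hG (by omega)]
        nlinarith [sq_nonneg (st f φ G j)]
    have h3 := hmono m hk.le le_rfl
    have h4 : ‖f - G m‖ ^ 2 = 0 := le_antisymm h3 (by positivity)
    rw [h4, zero_mul]
    positivity

include hD hf hG in
/-- `m E_m ≤ σ_m²` -/
theorem PGA_sigma : (m:ℝ) * ‖f - G m‖ ^ 2 ≤ sgm f φ G m ^ 2 := by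
  have hs1 : ∀ k, 1 ≤ sgm f φ G k := by
    intro k; unfold sgm
    have : 0 ≤ ∑ i ∈ range k, st f φ G i := Finset.sum_nonneg fun i _ => st_nonneg i
    linarith
  have hsm : ∀ k ≤ m, sgm f φ G k ≤ sgm f φ G m := by
    intro k hk; unfold sgm
    have : ∑ i ∈ range k, st f φ G i ≤ ∑ i ∈ range m, st f φ G i :=
      Finset.sum_le_sum_of_subset_of_nonneg (Finset.range_subset_range.2 hk)
        (fun i _ _ => st_nonneg i)
    linarith
  have hEm : ∀ k ≤ m, ‖f - G m‖ ^ 2 ≤ ‖f - G k‖ ^ 2 := by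
    intro k hk
    have : ∀ j, k ≤ j → j ≤ m → ‖f - G j‖ ^ 2 ≤ ‖f - G k‖ ^ 2 := by
      intro j hkj
      induction j, hkj using Nat.le_induction with
      | base => intro _; exact le_rfl
      | succ j hj ih =>
        intro hjm
        have h2 := ih (by omega)
        rw [E_succ hD hG (by omega)]
        nlinarith [sq_nonneg (st f φ G j)]
    exact this m hk le_rfl
  have h1 : ∀ k ∈ range m, ‖f - G m‖ ^ 2 ≤ st f φ G k * sgm f φ G m := by
    intro k hk
    rw [Finset.mem_range] at hk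
    have h2 := key_ineq hf hG k k le_rfl hk
    rw [sub_self, mul_zero, add_zero] at h2
    calc _ ≤ _ := hEm k hk.le
      _ ≤ _ := h2
      _ ≤ _ := mul_le_mul_of_nonneg_left (hsm k hk.le) (st_nonneg k)
  have h2 := Finset.sum_le_sum h1
  rw [Finset.sum_const, Finset.card_range, nsmul_eq_mul, ← Finset.sum_mul] at h2
  have h3 : ∑ i ∈ range m, st f φ G i ≤ sgm f φ G m := by unfold sgm; linarith
  have h4 := hs1 m
  nlinarith

end pga

/-- **The upper bound.** -/
theorem upper {v : ℝ} (hv : IsRoot v) : ∃ C : ℝ, 0 < C ∧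
    ∀ (H : Type*) [NormedAddCommGroup H] [InnerProductSpace ℝ H],
      ∀ (D : Set H) (f : H) (m : ℕ) (φ G : ℕ → H),
        IsDictionary D → f ∈ A1 D → IsPGA D f m φ G → 1 ≤ m →
        ‖f - G m‖ ≤ C * (m:ℝ) ^ (-((1 - v) / (2 * (1 + v)))) := by
  have hvp := hv.pos
  have hv1 := hv.lt_one
  have h1v : 0 < 1 - v ^ 2 := by nlinarith
  set g : ℝ := (1 - v) / v with hg
  have hgp : 0 < g := div_pos (by linarith) hvp
  set C0 : ℝ := (1 / (1 - v ^ 2)) ^ (g + 2) with hC0
  have hC0p : 0 < C0 := by positivity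
  refine ⟨C0 ^ (1 / (2 + g)), by positivity, ?_⟩
  intro H _ _ D f m φ G hD hf hG hm
  have b1 := PGA_bound hD hf hG hv
  have b2 := PGA_sigma hD hf hG
  set r : ℝ := ‖f - G m‖ with hr
  have hr0 : 0 ≤ r := norm_nonneg _
  have hmr : (1:ℝ) ≤ m := by exact_mod_cast hm
  have hs0 : 0 ≤ sgm f φ G m := by
    unfold sgm
    have : 0 ≤ ∑ i ∈ range m, st f φ G i := Finset.sum_nonneg fun i _ => st_nonneg i
    linarith
  -- σ ≥ r √m
  have h1 : r * (m:ℝ) ^ (1/2 : ℝ) ≤ sgm f φ G m := by
    apply le_of_sq_le_sq _ hs0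
    rw [mul_pow, ← Real.rpow_natCast ((m:ℝ) ^ (1/2:ℝ)), ← Real.rpow_mul (by linarith)]
    norm_num
    linarith
  have h2 : r ^ (2 + g) * (m:ℝ) ^ (g/2) ≤ C0 := by
    calc r ^ (2 + g) * (m:ℝ) ^ (g/2) = r ^ 2 * (r * (m:ℝ) ^ (1/2 : ℝ)) ^ g := by
          rw [Real.mul_rpow hr0 (by positivity), ← Real.rpow_mul (by linarith)]
          rcases hr0.eq_or_lt with h0 | h0
          · rw [← h0, Real.zero_rpow (by linarith)]; simp
          · rw [Real.rpow_add h0, Real.rpow_two]
            rw [show (1/2 : ℝ) * g = g / 2 by ring]; ring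
      _ ≤ r ^ 2 * (sgm f φ G m) ^ g := by
          apply mul_le_mul_of_nonneg_left _ (by positivity)
          exact Real.rpow_le_rpow (by positivity) h1 hgp.le
      _ ≤ _ := b1
  have hm0 : (0:ℝ) < m := by linarith
  have hal : (-((1 - v) / (2 * (1 + v)))) * (2 + g) = -(g/2) := by
    rw [hg]; field_simp; ring
  have h3 : r ^ (2 + g) ≤ (C0 ^ (1 / (2 + g)) * (m:ℝ) ^ (-((1 - v) / (2 * (1 + v))))) ^ (2 + g) := by
    rw [Real.mul_rpow (by positivity) (by positivity), ← Real.rpow_mul hC0p.le,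
      ← Real.rpow_mul hm0.le, hal, one_div_mul_cancel (by linarith), Real.rpow_one,
      Real.rpow_neg hm0.le, ← div_eq_mul_inv, le_div_iff₀ (by positivity)]
    exact h2
  exact (Real.rpow_le_rpow_iff hr0 (by positivity) (by linarith)).1 h3

end N298.PGA
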