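import Pool.Agent.N298.PGA.QO1
import Pool.Agent.N298.PGA.Upper2

/-!
# Quasi-orthogonal dictionaries: definitions and the critical dictionary
-/

namespace N298.PGA

open Real Finset Filter Topology

section defs

variable {H : Type*} [NormedAddCommGroup H] [InnerProductSpace ℝ H]

/-- `D` is `lam`-quasi-orthogonal: for every `n ≥ 1` and all `g_1, …, g_n ∈ D` there are
`M ≤ lam * n` elements `ψ_1, …, ψ_M ∈ D` whose span contains every `g_i` and such that
`max_j |⟨x, ψ_j⟩| ≥ ‖x‖ / √(lam * n)` for every `x` in their span. -/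
def IsQO (lam : ℝ) (D : Set H) : Prop :=
  ∀ n : ℕ, 1 ≤ n → ∀ g : Fin n → H, (∀ i, g i ∈ D) →
    ∃ (M : ℕ) (ψ : Fin M → H), (M : ℝ) ≤ lam * n ∧ (∀ j, ψ j ∈ D) ∧
      (∀ i, g i ∈ Submodule.span ℝ (Set.range ψ)) ∧
      ∀ x ∈ Submodule.span ℝ (Set.range ψ), ∃ j, ‖x‖ / Real.sqrt (lam * n) ≤ |inner ℝ x (ψ j)|

/-- `A_1(D)`: the norm-closed convex hull of `D ∪ -D`. -/
def A1c (D : Set H) : Set H := closure (convexHull ℝ (D ∪ -D))

/-- all errors `‖f - G_m‖` of the Pure Greedy Algorithm, over the `lam`-quasi-orthogonal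
dictionaries `D` of `H`, `f ∈ A_1(D)` and the realizations. -/
def errSetQO (H : Type*) [NormedAddCommGroup H] [InnerProductSpace ℝ H] (lam : ℝ) (m : ℕ) :
    Set ℝ :=
  {e | ∃ (D : Set H) (f : H) (φ G : ℕ → H), IsDictionary D ∧ IsQO lam D ∧ f ∈ A1c D ∧
    IsPGA D f m φ G ∧ e = ‖f - G m‖}

/-- `γ(m, lam)` -/
noncomputable def gamQO (H : Type*) [NormedAddCommGroup H] [InnerProductSpace ℝ H]
    (lam : ℝ) (m : ℕ) : ℝ := sSup (errSetQO H lam m)

lemma zero_mem_A10 (D : Set H) : (0 : H) ∈ A10 D :=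
  ⟨0, fun i => i.elim0, fun i => i.elim0, fun i => i.elim0, by simp, by simp⟩

lemma A10_add_mem {D : Set H} {x y : H} (hx : x ∈ A10 D) (hy : y ∈ A10 D) {a b : ℝ}
    (ha : 0 ≤ a) (hb : 0 ≤ b) (hab : a + b = 1) : a • x + b • y ∈ A10 D := by
  obtain ⟨n, c, g, hg, hc, rfl⟩ := hx
  obtain ⟨m, c', g', hg', hc', rfl⟩ := hy
  refine ⟨n + m, Fin.append (fun i => a * c i) (fun i => b * c' i), Fin.append g g', ?_, ?_, ?_⟩
  · intro i
    refine Fin.addCases (fun i => ?_) (fun i => ?_) i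
    · rw [Fin.append_left]; exact hg i
    · rw [Fin.append_right]; exact hg' i
  · rw [Fin.sum_univ_add]
    simp only [Fin.append_left, Fin.append_right, abs_mul, abs_of_nonneg ha, abs_of_nonneg hb]
    rw [← Finset.mul_sum, ← Finset.mul_sum]
    nlinarith
  · rw [Fin.sum_univ_add]
    simp only [Fin.append_left, Fin.append_right]
    rw [Finset.smul_sum, Finset.smul_sum]
    congr 1 <;> (apply Finset.sum_congr rfl; intro i _; rw [smul_smul])

lemma A1c_subset (D : Set H) : A1c D ⊆ A1 D := by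
  apply closure_mono
  apply convexHull_min
  · rintro x (hx | hx)
    · exact ⟨1, fun _ => 1, fun _ => x, fun _ => hx, by simp, by simp⟩
    · exact ⟨1, fun _ => -1, fun _ => -x, fun _ => hx, by simp, by simp⟩
  · intro x hx y hy a b ha hb hab
    exact A10_add_mem hx hy ha hb hab

/-- quasi-orthogonality from families indexed by arbitrary finite types -/
lemma IsQO.of_fintype {lam : ℝ} {D : Set H}
    (h : ∀ n : ℕ, 1 ≤ n → ∀ g : Fin n → H, (∀ i, g i ∈ D) →
      ∃ (ι : Type) (_ : Fintype ι) (ψ : ι → H), (Fintype.card ι : ℝ) ≤ lam * n ∧ (∀ j, ψ j ∈ D) ∧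
        (∀ i, g i ∈ Submodule.span ℝ (Set.range ψ)) ∧
        ∀ x ∈ Submodule.span ℝ (Set.range ψ), ∃ j, ‖x‖ / Real.sqrt (lam * n) ≤ |inner ℝ x (ψ j)|) :
    IsQO lam D := by
  intro n hn g hg
  obtain ⟨ι, _, ψ, h1, h2, h3, h4⟩ := h n hn g hg
  set e := Fintype.equivFin ι
  have hr : Set.range (ψ ∘ e.symm) = Set.range ψ := e.symm.surjective.range_comp ψ
  refine ⟨Fintype.card ι, ψ ∘ e.symm, h1, fun j => h2 _, ?_, ?_⟩
  · rw [hr]; exact h3
  · rw [hr]
    intro x hx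
    obtain ⟨j, hj⟩ := h4 x hx
    exact ⟨e j, by simpa using hj⟩

end defs

end N298.PGA
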