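import Pool.Agent.N298.PGA.QO2

/-!
# Quasi-orthogonality of the critical dictionary
-/

namespace N298.PGA

open Real Finset Filter Topology

/-- the critical dictionary -/
def critD {H : Type*} [NormedAddCommGroup H] [InnerProductSpace ℝ H]
    (φ : ℕ → H) (gp gm : H) : Set H :=
  {x | (∃ i, x = φ i) ∨ x = gp ∨ x = gm ∨
    (‖x‖ = 1 ∧ (∀ i, (inner ℝ (φ i) x) = 0) ∧ (inner ℝ gp x) = 0 ∧ (inner ℝ gm x) = 0)}

section

variable {c : ℕ} (hc' : 2000 ≤ c) {v : ℝ} (hv : IsRoot v)
variable {H : Type*} [NormedAddCommGroup H] [InnerProductSpace ℝ H]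
variable {φ : ℕ → H}
  (hφ : ∀ i j, inner ℝ (φ i) (φ j) = Gm (aa (be v) c) (rho (be v) c) (NN v c) i j)

include hc' hv hφ in
theorem qo_dict {f0 b : H} (hf0 : Tendsto (fun J => SS v c φ 0 J) atTop (𝓝 f0))
    (hbn : ‖b‖ = 1) (hbφ : ∀ i, inner ℝ b (φ i) = 0)
    (P5 : ∀ x : H, (∀ i, inner ℝ (φ i) x = 0) → inner ℝ f0 x = 0)
    {L s : ℝ} (hL : 0 < L) (hs0 : 0 < s) (hs : 1/2 ≤ s ^ 2) {lam : ℝ}
    (hlam : (14 * (2 * L + 5 * (1 + c) + 1) + 7) ^ 2 + 4 ≤ lam) :
    IsQO lam (critD φ (L⁻¹ • f0 + s • b) (L⁻¹ • f0 - s • b)) := by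
  classical
  set K : ℝ := 14 * (2 * L + 5 * (1 + c) + 1) + 7 with hK
  have hK5 : 5 ≤ K ^ 2 := by
    have : 7 ≤ K := by
      rw [hK]
      have : 0 ≤ 14 * (2 * L + 5 * (1 + (c:ℝ)) + 1) := by positivity
      linarith
    nlinarith
  have hlam0 : 0 < lam := by linarith
  set f : H := L⁻¹ • f0 with hf
  set gp : H := f + s • b with hgp
  set gm : H := f - s • b with hgm
  have hLi : 0 < L⁻¹ := by positivity
  have hff0 : f0 = L • f := by rw [hf, smul_smul, mul_inv_cancel₀ hL.ne', one_smul]
  have hfb0 : inner ℝ f0 b = 0 := P5 b (fun i => by rw [real_inner_comm]; exact hbφ i)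
  have hfb : inner ℝ f b = 0 := by rw [hf, real_inner_smul_left, hfb0, mul_zero]
  apply IsQO.of_fintype
  intro n hn g hg
  have hnr : (1:ℝ) ≤ n := by exact_mod_cast hn
  -- classification of the elements
  set idx : Fin n → ℕ := fun k => if h : ∃ i, g k = φ i then h.choose else 0 with hidx
  set I : Finset ℕ := Finset.univ.image idx with hI
  have hIcard : I.card ≤ n := by
    calc I.card ≤ (Finset.univ : Finset (Fin n)).card := Finset.card_image_le
      _ = n := by simp
  set w : Fin n → H := fun k =>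
    if (‖g k‖ = 1 ∧ (∀ i, (inner ℝ (φ i) (g k)) = 0) ∧ (inner ℝ gp (g k)) = 0 ∧
      (inner ℝ gm (g k)) = 0) then g k else 0 with hw
  set W : Submodule ℝ H := Submodule.span ℝ (Set.range w) with hW
  have : FiniteDimensional ℝ W := FiniteDimensional.span_of_finite ℝ (Set.finite_range w)
  have hWrank : Module.finrank ℝ W ≤ n := by
    have := finrank_range_le_card (R := ℝ) w
    simpa [Set.finrank] using this
  have hWφ : ∀ x ∈ W, ∀ i, inner ℝ (φ i) x = 0 := by
    intro x hx i
    induction hx using Submodule.span_induction with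
    | mem x h =>
      obtain ⟨k, rfl⟩ := h
      simp only [hw]
      split_ifs with h
      · exact h.2.1 i
      · exact inner_zero_right _
    | zero => exact inner_zero_right _
    | add x y _ _ hx hy => rw [inner_add_right, hx, hy, add_zero]
    | smul a x _ hx => rw [real_inner_smul_right, hx, mul_zero]
  have hWgp : ∀ x ∈ W, inner ℝ gp x = 0 := by
    intro x hx
    induction hx using Submodule.span_induction with
    | mem x h =>
      obtain ⟨k, rfl⟩ := h
      simp only [hw]
      split_ifs with h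
      · exact h.2.2.1
      · exact inner_zero_right _
    | zero => exact inner_zero_right _
    | add x y _ _ hx hy => rw [inner_add_right, hx, hy, add_zero]
    | smul a x _ hx => rw [real_inner_smul_right, hx, mul_zero]
  have hWgm : ∀ x ∈ W, inner ℝ gm x = 0 := by
    intro x hx
    induction hx using Submodule.span_induction with
    | mem x h =>
      obtain ⟨k, rfl⟩ := h
      simp only [hw]
      split_ifs with h
      · exact h.2.2.2
      · exact inner_zero_right _
    | zero => exact inner_zero_right _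
    | add x y _ _ hx hy => rw [inner_add_right, hx, hy, add_zero]
    | smul a x _ hx => rw [real_inner_smul_right, hx, mul_zero]
  have hWf0 : ∀ x ∈ W, inner ℝ f0 x = 0 := fun x hx => P5 x (hWφ x hx)
  have hWb : ∀ x ∈ W, inner ℝ b x = 0 := by
    intro x hx
    have h1 := hWgp x hx
    rw [hgp, inner_add_left, hf, real_inner_smul_left, real_inner_smul_left, hWf0 x hx, mul_zero,
      zero_add] at h1
    rcases mul_eq_zero.1 h1 with h | h
    · exact absurd h hs0.ne'
    · exact h
  set u := stdOrthonormalBasis ℝ W with hu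
  -- the family
  set Js := I ∪ range n with hJs
  set ψ : (↥Js ⊕ Fin 2) ⊕ Fin (Module.finrank ℝ W) → H :=
    Sum.elim (Sum.elim (fun j => φ (j:ℕ)) ![gp, gm]) (fun j => (u j : H)) with hψ
  refine ⟨(↥Js ⊕ Fin 2) ⊕ Fin (Module.finrank ℝ W), inferInstance, ψ, ?_, ?_, ?_, ?_⟩
  · -- cardinality
    have h1 : Fintype.card ((↥Js ⊕ Fin 2) ⊕ Fin (Module.finrank ℝ W)) =
        Js.card + 2 + Module.finrank ℝ W := by simp
    have h2 : Js.card ≤ 2 * n := by
      have : Js.card ≤ I.card + (range n).card := Finset.card_union_le _ _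
      rw [Finset.card_range] at this
      omega
    have h3 : Js.card + 2 + Module.finrank ℝ W ≤ 5 * n := by omega
    rw [h1]
    calc ((Js.card + 2 + Module.finrank ℝ W : ℕ) : ℝ) ≤ ((5 * n : ℕ) : ℝ) := by exact_mod_cast h3
      _ = 5 * n := by push_cast; ring
      _ ≤ lam * n := mul_le_mul_of_nonneg_right (by linarith) (by linarith)
  · -- membership
    rintro ((j | j) | j)
    · exact Or.inl ⟨j, rfl⟩
    · fin_cases j
      · exact Or.inr (Or.inl rfl)
      · exact Or.inr (Or.inr (Or.inl rfl))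
    · refine Or.inr (Or.inr (Or.inr ⟨?_, ?_, ?_, ?_⟩))
      · have h1 : ‖u j‖ = 1 := u.orthonormal.1 j
        exact h1
      · exact hWφ _ (u j).2
      · exact hWgp _ (u j).2
      · exact hWgm _ (u j).2
  · -- the g_i are in the span
    intro k
    rcases hg k with h | h | h | h
    · have h1 : g k = φ (idx k) := by
        simp only [hidx]; rw [dif_pos h]; exact h.choose_spec
      have h2 : idx k ∈ Js := Finset.mem_union_left _ (Finset.mem_image_of_mem _ (Finset.mem_univ k))
      rw [h1]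
      exact Submodule.subset_span ⟨Sum.inl (Sum.inl ⟨idx k, h2⟩), rfl⟩
    · rw [h]; exact Submodule.subset_span ⟨Sum.inl (Sum.inr 0), rfl⟩
    · rw [h]; exact Submodule.subset_span ⟨Sum.inl (Sum.inr 1), rfl⟩
    · have h1 : g k ∈ W := by
        apply Submodule.subset_span
        exact ⟨k, by simp only [hw]; rw [if_pos h]⟩
      have h2 : g k = ∑ j, (inner ℝ (u j) (⟨g k, h1⟩ : W)) • (u j : H) := by
        have h3 := u.sum_repr' ⟨g k, h1⟩
        have h4 := congrArg (fun y : W => (y : H)) h3
        simp only [Submodule.coe_sum, Submodule.coe_smul] at h4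
        exact h4.symm
      rw [h2]
      apply Submodule.sum_mem
      intro j _
      apply Submodule.smul_mem
      exact Submodule.subset_span ⟨Sum.inr j, rfl⟩
  · -- the inequality
    intro x hx
    rw [Submodule.mem_span_range_iff_exists_fun] at hx
    obtain ⟨t, ht⟩ := hx
    rw [Fintype.sum_sum_type, Fintype.sum_sum_type, Fin.sum_univ_two] at ht
    simp only [hψ, Sum.elim_inl, Sum.elim_inr, Matrix.cons_val_zero, Matrix.cons_val_one] at ht
    -- decomposition
    set x' : ℕ → ℝ := fun j => if h : j ∈ Js then t (Sum.inl (Sum.inl ⟨j, h⟩)) else 0 with hx'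
    set p := t (Sum.inl (Sum.inr 0)) with hp
    set q := t (Sum.inl (Sum.inr 1)) with hq
    set y : H := ∑ j, t (Sum.inr j) • (u j : H) with hy
    have hyW : y ∈ W := Submodule.sum_mem _ fun j _ => Submodule.smul_mem _ _ (u j).2
    set X : H := ((p + q) * L⁻¹) • f0 + ∑ j ∈ Js, x' j • φ j with hX
    set Z : ℝ := (p - q) * s with hZ
    have hsumφ : ∑ j : ↥Js, t (Sum.inl (Sum.inl j)) • φ (j:ℕ) = ∑ j ∈ Js, x' j • φ j := by
      rw [← Finset.sum_coe_sort Js (fun j => x' j • φ j)]
      apply Finset.sum_congr rfl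
      intro j _
      simp only [hx', Finset.coe_mem, dif_pos]
    have hdec : x = X + Z • b + y := by
      rw [← ht, hsumφ, hX, hZ, hgp, hgm, hf]
      module
    -- orthogonality
    have hXb : inner ℝ X b = 0 := by
      rw [hX, inner_add_left, real_inner_smul_left, hfb0, mul_zero, zero_add, sum_inner]
      apply Finset.sum_eq_zero
      intro j _
      rw [real_inner_smul_left, real_inner_comm, hbφ, mul_zero]
    have hXW : ∀ z ∈ W, inner ℝ X z = 0 := by
      intro z hz
      rw [hX, inner_add_left, real_inner_smul_left, hWf0 z hz, mul_zero, zero_add, sum_inner]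
      apply Finset.sum_eq_zero
      intro j _
      rw [real_inner_smul_left, hWφ z hz, mul_zero]
    have hnorm : ‖x‖ ^ 2 = ‖X‖ ^ 2 + Z ^ 2 + ‖y‖ ^ 2 := by
      rw [hdec, norm_add_sq_real, norm_add_sq_real, real_inner_smul_right, hXb, inner_add_left,
        real_inner_smul_left, hXW y hyW, hWb y hyW, norm_smul, hbn, Real.norm_eq_abs, mul_one,
        sq_abs]
      ring
    -- inner products
    have hxφ : ∀ i, inner ℝ x (φ i) = inner ℝ X (φ i) := by
      intro i
      have h1 : inner ℝ y (φ i) = 0 := by rw [real_inner_comm]; exact hWφ y hyW i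
      rw [hdec, inner_add_left, inner_add_left, real_inner_smul_left, hbφ, h1]; ring
    have hyf0 : inner ℝ y f0 = 0 := by rw [real_inner_comm]; exact hWf0 y hyW
    have hyb : inner ℝ y b = 0 := by rw [real_inner_comm]; exact hWb y hyW
    have hbf0 : inner ℝ b f0 = 0 := by rw [real_inner_comm]; exact hfb0
    have hxf0 : inner ℝ x f0 = inner ℝ X f0 := by
      rw [hdec, inner_add_left, inner_add_left, real_inner_smul_left, hbf0, hyf0]; ring
    have hxb : inner ℝ x b = Z := by
      rw [hdec, inner_add_left, inner_add_left, real_inner_smul_left, hXb, hyb,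
        real_inner_self_eq_norm_sq, hbn]; ring
    have hxgp : inner ℝ x gp = L⁻¹ * inner ℝ X f0 + s * Z := by
      rw [hgp, inner_add_right, hf, real_inner_smul_right, real_inner_smul_right, hxf0, hxb]
    have hxgm : inner ℝ x gm = L⁻¹ * inner ℝ X f0 - s * Z := by
      rw [hgm, inner_sub_right, hf, real_inner_smul_right, real_inner_smul_right, hxf0, hxb]
    have hxu : ∀ j, inner ℝ x (u j : H) = inner ℝ y (u j : H) := by
      intro j
      rw [hdec, inner_add_left, inner_add_left, real_inner_smul_left, hXW _ (u j).2,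
        hWb _ (u j).2]; ring
    -- contradiction
    by_contra hcon
    push Not at hcon
    set μ : ℝ := ‖x‖ / Real.sqrt (lam * n) with hμ
    have hsq : 0 < Real.sqrt (lam * n) := Real.sqrt_pos.2 (by positivity)
    have hμ0 : 0 ≤ μ := by positivity
    have c1 : ∀ j ∈ Js, |inner ℝ X (φ j)| ≤ μ := by
      intro j hj
      have := hcon (Sum.inl (Sum.inl ⟨j, hj⟩))
      simp only [hψ, Sum.elim_inl] at this
      rw [hxφ] at this
      exact this.le
    have c2 : |L⁻¹ * inner ℝ X f0 + s * Z| ≤ μ := by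
      have := hcon (Sum.inl (Sum.inr 0))
      simp only [hψ, Sum.elim_inl, Sum.elim_inr, Matrix.cons_val_zero] at this
      rw [hxgp] at this
      exact this.le
    have c3 : |L⁻¹ * inner ℝ X f0 - s * Z| ≤ μ := by
      have := hcon (Sum.inl (Sum.inr 1))
      simp only [hψ, Sum.elim_inl, Sum.elim_inr, Matrix.cons_val_one, Matrix.cons_val_zero] at this
      rw [hxgm] at this
      exact this.le
    have c4 : ∀ j, |inner ℝ y (u j : H)| ≤ μ := by
      intro j
      have := hcon (Sum.inr j)
      simp only [hψ, Sum.elim_inr] at this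
      rw [hxu] at this
      exact this.le
    have c5 : |inner ℝ X f0| ≤ L * μ := by
      have h1 : |L⁻¹ * inner ℝ X f0| ≤ μ := by
        rw [abs_le] at c2 c3 ⊢
        constructor <;> linarith [c2.1, c2.2, c3.1, c3.2]
      rw [abs_mul, abs_of_pos hLi, inv_mul_le_iff₀ hL] at h1
      exact h1
    have c6 : |s * Z| ≤ μ := by
      rw [abs_le] at c2 c3 ⊢
      constructor <;> linarith [c2.1, c2.2, c3.1, c3.2]
    have hXn := qo_core hc' hv hφ hf0 hL.le hn I hIcard ((p + q) * L⁻¹) x' hμ0 c5 c1
    rw [← hX, ← hK] at hXn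
    have hZn : Z ^ 2 ≤ 2 * μ ^ 2 := by
      have h1 : (s * Z) ^ 2 ≤ μ ^ 2 := by rw [← sq_abs]; exact pow_le_pow_left₀ (abs_nonneg _) c6 2
      rw [mul_pow] at h1
      nlinarith [sq_nonneg Z]
    have hyn : ‖y‖ ^ 2 ≤ n * μ ^ 2 := by
      have h1 : ‖y‖ ^ 2 = ∑ j, (inner ℝ y (u j : H)) ^ 2 := by
        have h2 := u.sum_sq_norm_inner_right (⟨y, hyW⟩ : W)
        have h3 : ‖(⟨y, hyW⟩ : W)‖ = ‖y‖ := rfl
        rw [h3] at h2
        rw [← h2]
        apply Finset.sum_congr rfl
        intro j _
        rw [Real.norm_eq_abs, sq_abs, Submodule.coe_inner, real_inner_comm]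
      rw [h1]
      calc ∑ j, (inner ℝ y (u j : H)) ^ 2 ≤ ∑ _j : Fin (Module.finrank ℝ W), μ ^ 2 := by
            apply Finset.sum_le_sum
            intro j _
            rw [← sq_abs]
            exact pow_le_pow_left₀ (abs_nonneg _) (c4 j) 2
        _ = (Module.finrank ℝ W : ℝ) * μ ^ 2 := by simp
        _ ≤ n * μ ^ 2 := by
            apply mul_le_mul_of_nonneg_right _ (sq_nonneg _)
            exact_mod_cast hWrank
    have hXn2 : ‖X‖ ^ 2 ≤ K ^ 2 * n * μ ^ 2 := by
      calc ‖X‖ ^ 2 ≤ (K * Real.sqrt n * μ) ^ 2 := pow_le_pow_left₀ (norm_nonneg _) hXn 2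
        _ = _ := by rw [mul_pow, mul_pow, Real.sq_sqrt (by linarith)]
    have hxpos : 0 < ‖x‖ := by
      have h1 := hcon (Sum.inl (Sum.inr 0))
      have h2 := (abs_nonneg _).trans_lt h1
      rw [hμ] at h2
      by_contra h0
      push Not at h0
      have : ‖x‖ / Real.sqrt (lam * n) ≤ 0 := div_nonpos_of_nonpos_of_nonneg h0 hsq.le
      linarith
    have hμ2 : μ ^ 2 = ‖x‖ ^ 2 / (lam * n) := by
      rw [hμ, div_pow, Real.sq_sqrt (by positivity)]
    have hfin : ‖x‖ ^ 2 ≤ (K ^ 2 + 3) * (n * μ ^ 2) := by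
      rw [hnorm]
      have : 2 * μ ^ 2 ≤ 2 * (n * μ ^ 2) := by nlinarith [sq_nonneg μ]
      linarith
    have hμ3 : n * μ ^ 2 = ‖x‖ ^ 2 / lam := by
      rw [hμ2]; field_simp
    rw [hμ3, mul_div_assoc', le_div_iff₀ hlam0] at hfin
    have hx2 : 0 < ‖x‖ ^ 2 := by positivity
    nlinarith

end

end N298.PGA
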