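import Pool.Agent.N298.PGA.QO3

/-!
# The lower bound for quasi-orthogonal dictionaries
-/

namespace N298.PGA

open Real Finset Filter Topology

lemma Wb_zero (v : ℝ) {c : ℕ} (hc : 0 < c) : Wb v c 0 = c := by
  have hcp : (0:ℝ) < c := by exact_mod_cast hc
  unfold Wb
  have e : nu c 0 = c := by simp [nu]
  rw [e, ← Real.rpow_add hcp]
  rw [show 2 * be v + (1 - 2 * be v) = 1 by ring, Real.rpow_one]

/-- **The lower bound.** -/
theorem lowerQO {v : ℝ} (hv : IsRoot v) : ∃ κ : ℝ, 0 < κ ∧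
    ∀ (H : Type*) [NormedAddCommGroup H] [InnerProductSpace ℝ H] [CompleteSpace H],
      ¬ FiniteDimensional ℝ H → ∃ (D : Set H) (f : H) (φ G : ℕ → H),
        IsDictionary D ∧ (∀ lam : ℝ, 10 ^ 12 ≤ lam → IsQO lam D) ∧ f ∈ A1c D ∧
        (∀ m, IsPGA D f m φ G) ∧
        ∀ m : ℕ, 1 ≤ m → κ * (m:ℝ) ^ (-((1 - v) / (2 * (1 + v)))) ≤ ‖f - G m‖ := by
  set c : ℕ := 2000 with hcdef
  have hc' : 2000 ≤ c := le_rfl
  have hc : 2 ≤ c := by omega
  have S := sysNN hv hc
  have hb := be_pos hv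
  have hb1 := be_lt hv
  have hbg := be_gt hv
  have hvp := hv.pos
  set K1 : ℝ := (8 * c + 100) / be v with hK1
  have hK1p : 0 < K1 := by positivity
  have hW0 : Wb v c 0 = 2000 := by rw [Wb_zero v (by omega), hcdef]; norm_num
  have hcr2 : (c:ℝ) = 2000 := by rw [hcdef]; norm_num
  have hsq : Real.sqrt (Wb v c 0) ≤ 45 := by
    rw [hW0, Real.sqrt_le_left (by norm_num)]; norm_num
  have hsq0 : 0 ≤ Real.sqrt (Wb v c 0) := Real.sqrt_nonneg _
  have hK1u : K1 ≤ 25000 := by
    rw [hK1, div_le_iff₀ hb, hcr2]; nlinarith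
  have hK1l : 16100 ≤ K1 := by
    rw [hK1, le_div_iff₀ hb, hcr2]; nlinarith
  set L : ℝ := K1 + 4 * Real.sqrt (Wb v c 0) + 1 with hL
  have hLp : 0 < L := by positivity
  have hLu : L ≤ 25181 := by linarith
  have hLl : 16100 ≤ L := by linarith
  refine ⟨(c:ℝ) ^ (-((1 - v) / (2 * (1 + v)))) / L, by positivity, ?_⟩
  intro H _ _ _ hH
  obtain ⟨φ, b, hφ, hb1', hbφ⟩ := realize (Gm (aa (be v) c) (rho (be v) c) (NN v c))
    (fun i j => Gm_symm i j) (by
      intro n x
      have := QQ_ge hv hc' n x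
      have h2 : 0 ≤ ∑ i ∈ range n, x i ^ 2 := Finset.sum_nonneg fun i _ => sq_nonneg _
      unfold QQ at this
      linarith) H hH
  obtain ⟨f0, P1, P2, P3, P4, P5⟩ := exists_f0 hc' hv hφ
  have hf0lim : Tendsto (fun J => SS v c φ 0 J) atTop (𝓝 f0) := by
    obtain ⟨f0', hf0'⟩ := cauchySeq_tendsto_of_complete (SS_cauchy hc' hv hφ)
    have hz : ∀ i, inner ℝ (φ i) (f0 - f0') = 0 := by
      intro i
      have e0 : SS v c φ 0 0 = 0 := by simp [SS]
      have h1 := P1 0 i
      rw [e0, sub_zero] at h1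
      have h2 : Tendsto (fun J => inner ℝ (SS v c φ 0 J) (φ i)) atTop (𝓝 (inner ℝ f0' (φ i))) :=
        hf0'.inner tendsto_const_nhds
      have h3 : Tendsto (fun J => FF (aa (be v) c) (rho (be v) c) (NN v c) J i) atTop (𝓝 0) := by
        apply squeeze_zero_norm _ (aa_tendsto hc' hv)
        intro J
        rw [Real.norm_eq_abs]; exact S.FF_abs_le J i
      have h4 : Tendsto (fun J => FF (aa (be v) c) (rho (be v) c) (NN v c) 0 i -
          FF (aa (be v) c) (rho (be v) c) (NN v c) J i) atTop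
          (𝓝 (FF (aa (be v) c) (rho (be v) c) (NN v c) 0 i - 0)) := h3.const_sub _
      rw [sub_zero] at h4
      have h5 := tendsto_nhds_unique (h2.congr (fun J => inner_SS hφ 0 J i (Nat.zero_le J))) h4
      rw [inner_sub_right, real_inner_comm, h1, real_inner_comm, h5, sub_self]
    have h1 := P5 (f0 - f0') hz
    have h2 : inner ℝ f0' (f0 - f0') = 0 := by
      have h3 : Tendsto (fun J => inner ℝ (SS v c φ 0 J) (f0 - f0')) atTop
          (𝓝 (inner ℝ f0' (f0 - f0'))) := hf0'.inner tendsto_const_nhds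
      have h4 : (fun J => inner ℝ (SS v c φ 0 J) (f0 - f0')) = fun _ => (0:ℝ) := by
        ext J
        unfold SS
        rw [sum_inner]
        apply Finset.sum_eq_zero
        intro k _
        rw [real_inner_smul_left, hz k, mul_zero]
      rw [h4] at h3
      exact (tendsto_nhds_unique h3 tendsto_const_nhds)
    have h3 : inner ℝ (f0 - f0') (f0 - f0') = 0 := by
      rw [inner_sub_left, h1, h2, sub_self]
    have h4 : f0 = f0' := sub_eq_zero.1 (inner_self_eq_zero.1 h3)
    rw [h4]; exact hf0'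
  have hf0L : ‖f0‖ ^ 2 ≤ 32000 := by rw [hW0] at P3; linarith
  have hK1L : K1 ≤ L := by
    have := Real.sqrt_nonneg (Wb v c 0)
    linarith
  set f : H := L⁻¹ • f0 with hf
  have hLi : 0 < L⁻¹ := by positivity
  have hfn : ‖f‖ ^ 2 ≤ 1/2 := by
    rw [hf, norm_smul, Real.norm_eq_abs, abs_of_pos (by positivity), mul_pow, inv_pow,
      inv_mul_le_iff₀ (by positivity)]
    nlinarith
  set s : ℝ := Real.sqrt (1 - ‖f‖ ^ 2) with hs
  have hs2 : s ^ 2 = 1 - ‖f‖ ^ 2 := Real.sq_sqrt (by linarith)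
  have hs0 : 0 < s := Real.sqrt_pos.2 (by linarith)
  have hfb : (inner ℝ f b) = 0 := by
    rw [hf, real_inner_smul_left, P5 b (fun i => by rw [real_inner_comm]; exact hbφ i), mul_zero]
  set gp : H := f + s • b with hgp
  set gm : H := f - s • b with hgm
  have hgpn : ‖gp‖ = 1 := by
    have h1 : ‖gp‖ ^ 2 = 1 := by
      rw [hgp, nsq_add f b s hfb hb1', hs2]; ring
    have h2 := norm_nonneg gp
    nlinarith
  have hgmn : ‖gm‖ = 1 := by
    have h1 : ‖gm‖ ^ 2 = 1 := by
      rw [hgm, nsq_sub f b s hfb hb1', hs2]; ring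
    have h2 := norm_nonneg gm
    nlinarith
  set D : Set H := critD φ gp gm with hD
  have hres : ∀ k, f - L⁻¹ • SS v c φ 0 k = L⁻¹ • (f0 - SS v c φ 0 k) := by
    intro k; rw [hf, smul_sub]
  refine ⟨D, f, fun k => φ (k-1), fun k => L⁻¹ • SS v c φ 0 k, ⟨?_, ?_⟩, ?_, ?_, ?_, ?_⟩
  · -- unit vectors
    rintro x (⟨i, rfl⟩ | rfl | rfl | ⟨h, -⟩)
    · have : ‖φ i‖ ^ 2 = 1 := by rw [← real_inner_self_eq_norm_sq, hφ, Gm_self]
      have h2 := norm_nonneg (φ i)
      nlinarith
    · exact hgpn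
    · exact hgmn
    · exact h
  · -- dense span
    rw [← Submodule.topologicalClosure_coe, ← Submodule.top_coe (R := ℝ) (M := H)]
    congr 1
    rw [Submodule.topologicalClosure_eq_top_iff, Submodule.eq_bot_iff]
    intro x hx
    rw [Submodule.mem_orthogonal] at hx
    by_contra hne
    have hxn : 0 < ‖x‖ := norm_pos_iff.2 hne
    have hmem : ∀ y ∈ D, (inner ℝ y x) = 0 := fun y hy => hx y (Submodule.subset_span hy)
    have h1 : (‖x‖⁻¹ • x) ∈ D := by
      refine Or.inr (Or.inr (Or.inr ⟨?_, ?_, ?_, ?_⟩))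
      · rw [norm_smul, norm_inv, norm_norm]; exact inv_mul_cancel₀ hxn.ne'
      · intro i
        rw [real_inner_smul_right, hmem _ (Or.inl ⟨i, rfl⟩), mul_zero]
      · rw [real_inner_smul_right, hmem _ (Or.inr (Or.inl rfl)), mul_zero]
      · rw [real_inner_smul_right, hmem _ (Or.inr (Or.inr (Or.inl rfl))), mul_zero]
    have h2 := hmem _ h1
    rw [real_inner_smul_left, real_inner_self_eq_norm_sq] at h2
    have : 0 < ‖x‖⁻¹ * ‖x‖ ^ 2 := by positivity
    linarith
  · -- quasi-orthogonality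
    intro lam hlam
    apply qo_dict hc' hv hφ hf0lim hb1' hbφ P5 hLp hs0 (by linarith)
    have h1 : 14 * (2 * L + 5 * (1 + (c:ℝ)) + 1) + 7 ≤ 900000 := by
      rw [hcr2]; linarith
    have h2 : 0 ≤ 14 * (2 * L + 5 * (1 + (c:ℝ)) + 1) + 7 := by positivity
    have h3 : (14 * (2 * L + 5 * (1 + (c:ℝ)) + 1) + 7) ^ 2 ≤ 900000 ^ 2 :=
      pow_le_pow_left₀ h2 h1 2
    linarith
  · -- membership in A_1
    apply subset_closure
    have h1 : gp ∈ convexHull ℝ (D ∪ -D) :=
      subset_convexHull ℝ _ (Or.inl (Or.inr (Or.inl rfl)))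
    have h2 : gm ∈ convexHull ℝ (D ∪ -D) :=
      subset_convexHull ℝ _ (Or.inl (Or.inr (Or.inr (Or.inl rfl))))
    have h3 := (convex_convexHull ℝ (D ∪ -D)) h1 h2 (a := 1/2) (b := 1/2) (by norm_num)
      (by norm_num) (by norm_num)
    have h4 : (1/2 : ℝ) • gp + (1/2 : ℝ) • gm = f := by
      rw [hgp, hgm]; module
    rwa [h4] at h3
  · -- greedy
    intro m
    refine ⟨by simp [SS], ?_, ?_, ?_⟩
    · intro k _
      exact Or.inl ⟨k, by simp⟩
    · intro k _ g hg
      simp only [Nat.add_sub_cancel]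
      rw [hres k, real_inner_smul_left, real_inner_smul_left, abs_mul, abs_mul, P1, FF_self,
        abs_of_pos (S.apos k)]
      apply mul_le_mul_of_nonneg_left _ (abs_nonneg _)
      have hff : |(inner ℝ (f0 - SS v c φ 0 k) f)| ≤ aa (be v) c k := by
        rw [hf, real_inner_smul_right, abs_mul, abs_of_pos hLi, inv_mul_le_iff₀ hLp]
        exact (P4 k).trans (mul_le_mul_of_nonneg_right hK1L (S.apos k).le)
      have hfbk : (inner ℝ (f0 - SS v c φ 0 k) b) = 0 := by
        rw [inner_sub_left, P5 b (fun i => by rw [real_inner_comm]; exact hbφ i)]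
        unfold SS
        rw [sum_inner, Finset.sum_eq_zero, sub_zero]
        intro i _
        rw [real_inner_smul_left, real_inner_comm, hbφ i, mul_zero]
      rcases hg with ⟨i, rfl⟩ | rfl | rfl | ⟨_, h1, _⟩
      · rw [P1]; exact S.FF_abs_le k i
      · rw [hgp, inner_add_right, real_inner_smul_right _ b s, hfbk, mul_zero, add_zero]; exact hff
      · rw [hgm, inner_sub_right, real_inner_smul_right _ b s, hfbk, mul_zero, sub_zero]; exact hff
      · have : (inner ℝ (f0 - SS v c φ 0 k) g) = 0 := by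
          rw [inner_sub_left, P5 g h1]
          unfold SS
          rw [sum_inner, Finset.sum_eq_zero, sub_zero]
          intro i _
          rw [real_inner_smul_left, h1 i, mul_zero]
        rw [this, abs_zero]; exact (S.apos k).le
    · intro k _
      simp only [Nat.add_sub_cancel]
      rw [hres k, real_inner_smul_left, P1, FF_self]
      have : SS v c φ 0 (k+1) = SS v c φ 0 k + aa (be v) c k • φ k := by
        unfold SS; rw [Finset.sum_Ico_succ_top (Nat.zero_le k)]
      rw [this, smul_add, smul_smul]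
  · -- lower bound
    intro m hm
    simp only
    rw [hres m, norm_smul, Real.norm_eq_abs, abs_of_pos hLi]
    have hmr : (1:ℝ) ≤ m := by exact_mod_cast hm
    have hcr : (0:ℝ) < c := by rw [hcdef]; norm_num
    have hcm : (0:ℝ) < c * m := by positivity
    have hnu : nu c m - 1 ≤ c * m := by
      have e : nu c m = (m:ℝ) + c := rfl
      have : (1:ℝ) ≤ c := by rw [hcdef]; norm_num
      rw [e]; nlinarith
    have hnu2 : 0 < nu c m - 1 := by have := two_le_nu hc m; linarith
    -- a_m ≥ (ν_m - 1)^{-β}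
    have hQ := Q_mono hb hb1 hc (Nat.zero_le m)
    simp only [aa_zero, one_mul] at hQ
    have h0 : 1 ≤ (nu c 0 - 1) ^ be v := by
      apply Real.one_le_rpow _ hb.le
      have e : nu c 0 = c := by simp [nu]
      rw [e, hcdef]; norm_num
    have ham : (nu c m - 1) ^ (-(be v)) ≤ aa (be v) c m := by
      have hp : 0 < (nu c m - 1) ^ be v := Real.rpow_pos_of_pos hnu2 _
      rw [Real.rpow_neg hnu2.le, inv_le_iff_one_le_mul₀ hp]
      linarith
    have hd : (nu c m - 1) ^ (1 - 2 * be v) ≤ dd v c m := by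
      unfold dd
      have h1 : (nu c m - 1) ^ (1 - 2 * be v) = (nu c m - 1) * ((nu c m - 1) ^ (-(be v))) ^ 2 := by
        rw [← Real.rpow_natCast, ← Real.rpow_mul hnu2.le]
        conv_rhs => rw [← Real.rpow_one (nu c m - 1)]
        rw [Real.rpow_one, ← Real.rpow_one_add' hnu2.le]
        · congr 1; push_cast; ring
        · push_cast; linarith [be_gt hv]
      rw [h1]
      apply mul_le_mul_of_nonneg_left _ hnu2.le
      exact pow_le_pow_left₀ (by positivity) ham 2
    have hal : (1 - 2 * be v) = 2 * (-((1 - v) / (2 * (1 + v)))) := by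
      unfold be; field_simp; ring
    have hcmp : (c * m : ℝ) ^ (1 - 2 * be v) ≤ (nu c m - 1) ^ (1 - 2 * be v) :=
      Real.rpow_le_rpow_of_nonpos hnu2 hnu (by linarith [be_gt hv])
    have hfin : ((c * m : ℝ) ^ (-((1 - v) / (2 * (1 + v))))) ^ 2 ≤ ‖f0 - SS v c φ 0 m‖ ^ 2 := by
      calc _ = (c * m : ℝ) ^ (1 - 2 * be v) := by
            rw [hal, ← Real.rpow_natCast, ← Real.rpow_mul hcm.le]
            congr 1; push_cast; ring
        _ ≤ _ := hcmp.trans (hd.trans (P2 m))
    have hfin2 : (c * m : ℝ) ^ (-((1 - v) / (2 * (1 + v)))) ≤ ‖f0 - SS v c φ 0 m‖ :=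
      le_of_sq_le_sq hfin (norm_nonneg _)
    rw [Real.mul_rpow hcr.le (by linarith)] at hfin2
    calc (c:ℝ) ^ (-((1 - v) / (2 * (1 + v)))) / L * (m:ℝ) ^ (-((1 - v) / (2 * (1 + v)))) =
        L⁻¹ * ((c:ℝ) ^ (-((1 - v) / (2 * (1 + v)))) * (m:ℝ) ^ (-((1 - v) / (2 * (1 + v))))) := by
          ring
      _ ≤ _ := mul_le_mul_of_nonneg_left hfin2 hLi.le

end N298.PGA
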