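import Pool.Agent.N298.PGA.Disc

/-!
# Positive definiteness of the critical Gram matrix
-/

namespace N298.PGA

open Set Real Finset

section kk

variable {c : ℕ} (hc : 2 ≤ c) {v : ℝ} (hv : IsRoot v)

noncomputable def dl (c i : ℕ) : ℝ := sg c (i+1) - sg c i

include hc in
lemma dl_le (i : ℕ) : dl c i ≤ 1 / nu c i := by
  unfold dl sg
  have h1 := nu_pos hc i
  have h2 := nu_pos hc (i+1)
  rw [← Real.log_div h2.ne' h1.ne']
  have := Real.log_le_sub_one_of_pos (div_pos h2 h1)
  have h3 : nu c (i+1) / nu c i - 1 = 1 / nu c i := by rw [nu_succ]; field_simp; ring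
  linarith

include hc in
lemma dl_ge (i : ℕ) : 1 / (nu c i + 1) ≤ dl c i := by
  unfold dl sg
  have h1 := nu_pos hc i
  have h2 := nu_pos hc (i+1)
  rw [← Real.log_div h2.ne' h1.ne']
  have := Real.one_sub_inv_le_log_of_pos (div_pos h2 h1)
  have h3 : 1 - (nu c (i+1) / nu c i)⁻¹ = 1 / (nu c i + 1) := by
    rw [nu_succ, inv_div]; field_simp; ring
  linarith

include hc in
lemma dl_err (i : ℕ) : |1 / nu c i - dl c i| ≤ 1 / nu c i ^ 2 := by
  have h1 := nu_pos hc i
  have h2 := dl_le hc i
  have h3 := dl_ge hc i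
  rw [abs_of_nonneg (by linarith)]
  have h4 : 1 / nu c i - 1 / (nu c i + 1) ≤ 1 / nu c i ^ 2 := by
    rw [div_sub_div _ _ h1.ne' (by linarith), div_le_div_iff₀ (by positivity) (by positivity)]
    nlinarith
  linarith

include hc in
lemma dl_pos (i : ℕ) : 0 < dl c i := by
  have h1 := nu_pos hc i
  have := dl_ge hc i
  have : 0 < 1 / (nu c i + 1) := by positivity
  linarith

include hv in
lemma Kf_abs (j : ℕ) (t : ℝ) : |Kf v c j t| ≤ 1 := by
  unfold Kf
  have h1 : Real.exp t ≤ Real.exp t / v := by
    rw [le_div_iff₀ hv.pos]; nlinarith [Real.exp_pos t, hv.lt_one]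
  have h2 := cl_mono (sub_le_sub_right h1 (nu c j))
  have h3 := cl_nonneg (v * Real.exp t - nu c j)
  have h4 := cl_le_one (v * Real.exp t - nu c j)
  have h5 := cl_nonneg (Real.exp t - nu c j)
  have h6 := cl_le_one (Real.exp t / v - nu c j)
  rw [abs_le]; constructor <;> linarith

include hc hv in
lemma kk_abs (i j : ℕ) : |kk v c i j| ≤ dl c i := by
  unfold kk
  have h := intervalIntegral.norm_integral_le_of_norm_le_const (a := sg c i) (b := sg c (i+1))
    (f := Kf v c j) (C := 1) (fun t _ => by rw [Real.norm_eq_abs]; exact Kf_abs hv j t)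
  rw [Real.norm_eq_abs, one_mul] at h
  have := dl_pos hc i
  unfold dl at this
  rw [abs_of_pos this] at h
  exact h

include hc in
lemma kk_const {i j : ℕ} {K : ℝ}
    (h : ∀ y, nu c i ≤ y → y ≤ nu c i + 1 →
      cl (y / v - nu c j) - cl (y - nu c j) - cl (v * y - nu c j) = K) :
    kk v c i j = K * dl c i := by
  unfold kk
  have h1 : EqOn (Kf v c j) (fun _ => K) (uIcc (sg c i) (sg c (i+1))) := by
    intro t ht
    rw [uIcc_of_le (sg_le hc (by omega))] at ht
    unfold Kf
    apply h
    · rw [← exp_sg hc i]; exact Real.exp_le_exp.2 ht.1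
    · rw [← nu_succ, ← exp_sg hc (i+1)]; exact Real.exp_le_exp.2 ht.2
  rw [intervalIntegral.integral_congr h1, intervalIntegral.integral_const, smul_eq_mul, mul_comm]
  rfl

include hc hv in
lemma kk_near {i j : ℕ} (hij : i < j) (h : nu c j + 1 ≤ nu c i / v) :
    kk v c i j = dl c i := by
  have hvp := hv.pos
  rw [kk_const hc (K := 1), one_mul]
  intro y h1 h2
  have h3 := nu_mono (c := c) (show i + 1 ≤ j from hij)
  rw [nu_succ] at h3
  have hi := nu_pos hc i
  have h4 : nu c i / v ≤ y / v := div_le_div_of_nonneg_right h1 hvp.le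
  have h5 : v * y ≤ y := by nlinarith [hv.lt_one]
  rw [cl_of_one_le (by linarith), cl_of_nonpos (by linarith), cl_of_nonpos (by linarith)]
  ring

include hc hv in
lemma kk_near' {i j : ℕ} (hij : i < j) (h : nu c j + 1 ≤ nu c i / v) :
    kk v c j i = 0 := by
  have hvp := hv.pos
  rw [kk_const hc (K := 0), zero_mul]
  intro y h1 h2
  have h3 := nu_mono (c := c) (show i + 1 ≤ j from hij)
  rw [nu_succ] at h3
  have hj := nu_pos hc j
  have h4 : y ≤ y / v := by rw [le_div_iff₀ hvp]; nlinarith [hv.lt_one]
  rw [le_div_iff₀ hvp] at h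
  have h5 : v * y ≤ v * (nu c j + 1) := mul_le_mul_of_nonneg_left h2 hvp.le
  rw [cl_of_one_le (by linarith), cl_of_one_le (by linarith), cl_of_nonpos (by linarith)]
  ring

include hc hv in
lemma kk_far {i j : ℕ} (hij : i < j) (h : (nu c i + 1) / v ≤ nu c j) :
    kk v c i j = 0 := by
  have hvp := hv.pos
  rw [kk_const hc (K := 0), zero_mul]
  intro y h1 h2
  have h3 := nu_mono (c := c) (show i + 1 ≤ j from hij)
  rw [nu_succ] at h3
  have hi := nu_pos hc i
  have h4 : y / v ≤ (nu c i + 1) / v := div_le_div_of_nonneg_right h2 hvp.le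
  have h5 : v * y ≤ y := by nlinarith [hv.lt_one]
  rw [cl_of_nonpos (by linarith), cl_of_nonpos (by linarith), cl_of_nonpos (by linarith)]
  ring

include hc hv in
lemma kk_far' {i j : ℕ} (hij : i < j) (h : (nu c i + 1) / v ≤ nu c j) :
    kk v c j i = - dl c j := by
  have hvp := hv.pos
  rw [kk_const hc (K := -1), neg_one_mul]
  intro y h1 h2
  have h3 := nu_mono (c := c) (show i + 1 ≤ j from hij)
  rw [nu_succ] at h3
  have hj := nu_pos hc j
  have h4 : y ≤ y / v := by rw [le_div_iff₀ hvp]; nlinarith [hv.lt_one]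
  rw [div_le_iff₀ hvp] at h
  have h5 : v * nu c j ≤ v * y := mul_le_mul_of_nonneg_left h1 hvp.le
  rw [cl_of_one_le (by linarith), cl_of_one_le (by linarith), cl_of_one_le (by linarith)]
  ring

/-- error matrix -/
noncomputable def EE (v : ℝ) (c i j : ℕ) : ℝ :=
  Gm (aa (be v) c) (rho (be v) c) (NN v c) i j - (if i = j then 1 else 0)
    - be v * (kk v c i j + kk v c j i)

lemma EE_symm (i j : ℕ) : EE v c i j = EE v c j i := by
  unfold EE
  rw [Gm_symm i j, add_comm (kk v c i j)]
  simp [eq_comm]

include hc hv in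
lemma EE_diag (i : ℕ) : |EE v c i i| ≤ 2 / c := by
  unfold EE
  rw [Gm_self]
  simp only [if_true, sub_self, zero_sub, abs_neg]
  have hb := be_pos hv
  have hb1 := be_lt hv
  have h1 := kk_abs hc hv i i
  have h2 := dl_le hc i
  have hcp : (0:ℝ) < c := by exact_mod_cast (show 0 < c by omega)
  have h3 : 1 / nu c i ≤ 1 / c := one_div_le_one_div_of_le hcp (c_le_nu c i)
  rw [abs_mul, abs_of_pos hb]
  have h4 : |kk v c i i + kk v c i i| ≤ 2 / c := by
    rw [← two_mul, abs_mul, abs_of_pos (by norm_num : (0:ℝ) < 2)]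
    calc 2 * |kk v c i i| ≤ 2 * (1 / c) := by linarith
      _ = 2 / c := by ring
  calc be v * |kk v c i i + kk v c i i| ≤ 1 * |kk v c i i + kk v c i i| :=
        mul_le_mul_of_nonneg_right hb1.le (abs_nonneg _)
    _ ≤ _ := by linarith

/-- window predicate -/
def Win (v : ℝ) (c i j : ℕ) : Prop := nu c i / v - 5 ≤ nu c j ∧ nu c j ≤ nu c i / v + 3

open Classical in
include hc hv in
lemma EE_up {i j : ℕ} (hij : i < j) :
    |EE v c i j| ≤ 5 / nu c j ^ 2 + (if Win v c i j then 3 / (c:ℝ) else 0) := by
  have S := sysNN hv hc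
  have hb := be_pos hv
  have hb1 := be_lt hv
  have hvp := hv.pos
  have hi := nu_pos hc i
  have hj := nu_pos hc j
  have hcp : (0:ℝ) < c := by exact_mod_cast (show 0 < c by omega)
  have hne : i ≠ j := hij.ne
  have hbound : |EE v c i j| ≤ 3 / c := by
    unfold EE
    rw [if_neg hne, sub_zero]
    have h1 := S.Gm_abs_le i j hij
    have h2 : rho (be v) c i ≤ 1 / c := by
      unfold rho
      rw [div_le_div_iff₀ hi hcp]
      nlinarith [c_le_nu c i]
    have h3 := kk_abs hc hv i j
    have h4 := kk_abs hc hv j i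
    have h5 := dl_le hc i
    have h6 := dl_le hc j
    have h7 : 1 / nu c i ≤ 1 / c := one_div_le_one_div_of_le hcp (c_le_nu c i)
    have h8 : 1 / nu c j ≤ 1 / c := one_div_le_one_div_of_le hcp (c_le_nu c j)
    have h9 : |be v * (kk v c i j + kk v c j i)| ≤ 2 / c := by
      rw [abs_mul, abs_of_pos hb]
      have := abs_add_le (kk v c i j) (kk v c j i)
      calc be v * |kk v c i j + kk v c j i| ≤ 1 * |kk v c i j + kk v c j i| :=
            mul_le_mul_of_nonneg_right hb1.le (abs_nonneg _)
        _ ≤ 1 / c + 1 / c := by linarith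
        _ = _ := by ring
    have h10 := abs_sub (Gm (aa (be v) c) (rho (be v) c) (NN v c) i j)
      (be v * (kk v c i j + kk v c j i))
    have h11 : 1 / (c:ℝ) + 2 / c = 3 / c := by ring
    linarith
  by_cases hw : Win v c i j
  · rw [if_pos hw]
    have : 0 ≤ 5 / nu c j ^ 2 := by positivity
    linarith
  · rw [if_neg hw, add_zero]
    unfold Win at hw
    rw [not_and_or, not_le, not_le] at hw
    have hNlo := NN_ge hv hc i
    have hNhi := NN_le hv hc i
    unfold EE
    rw [if_neg hne, sub_zero, Gm_lt hij, Kup]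
    rcases hw with hw | hw
    · have h1 : j < NN v c i := by
        by_contra hcon
        push Not at hcon
        have := nu_mono (c := c) hcon
        linarith
      rw [if_pos h1, kk_near hc hv hij (by linarith), kk_near' hc hv hij (by linarith), add_zero,
        rho, div_eq_mul_one_div (be v), ← mul_sub, abs_mul, abs_of_pos hb]
      have h2 := dl_err hc i
      have h3 : nu c j ≤ nu c i / v := by linarith
      have h4 : 1 / nu c i ^ 2 ≤ 5 / nu c j ^ 2 := by
        rw [div_le_div_iff₀ (by positivity) (by positivity)]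
        rw [le_div_iff₀ hvp] at h3
        have h5 : nu c j ^ 2 * v ^ 2 ≤ nu c i ^ 2 := by
          rw [← mul_pow]; exact pow_le_pow_left₀ (by positivity) h3 2
        have h6 : 1 ≤ 5 * v ^ 2 := by nlinarith [hv.lo]
        nlinarith [sq_nonneg (nu c j)]
      calc be v * |1 / nu c i - dl c i| ≤ 1 * |1 / nu c i - dl c i| :=
            mul_le_mul_of_nonneg_right hb1.le (abs_nonneg _)
        _ ≤ _ := by linarith
    · have h1 : NN v c i < j := by
        by_contra hcon
        push Not at hcon
        have := nu_mono (c := c) hcon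
        linarith
      have h3 : (nu c i + 1) / v ≤ nu c j := by
        have h4 : (nu c i + 1) / v = nu c i / v + 1 / v := by ring
        have h5 : 1 / v ≤ 3 := by
          rw [div_le_iff₀ hvp]; linarith [hv.lo]
        linarith
      rw [if_neg (by omega), if_neg (by omega), kk_far hc hv hij h3, kk_far' hc hv hij h3, zero_add,
        rho, div_eq_mul_one_div (be v)]
      have h6 : -(be v * (1 / nu c j)) - be v * -dl c j = -(be v * (1 / nu c j - dl c j)) := by ring
      rw [h6, abs_neg, abs_mul, abs_of_pos hb]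
      have h2 := dl_err hc j
      calc be v * |1 / nu c j - dl c j| ≤ 1 * |1 / nu c j - dl c j| :=
            mul_le_mul_of_nonneg_right hb1.le (abs_nonneg _)
        _ ≤ 1 / nu c j ^ 2 := by linarith
        _ ≤ 5 / nu c j ^ 2 := by
          apply div_le_div_of_nonneg_right (by norm_num) (by positivity)

lemma card_window (s : Finset ℕ) (x : ℝ) (L : ℕ) (h : ∀ k ∈ s, x ≤ k ∧ (k:ℝ) ≤ x + L) :
    s.card ≤ L + 1 := by
  rcases s.eq_empty_or_nonempty with h0 | h0
  · simp [h0]
  · have h1 := h _ (s.min'_mem h0)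
    have h2 := h _ (s.max'_mem h0)
    have h3 : s ⊆ Finset.Icc (s.min' h0) (s.min' h0 + L) := by
      intro k hk
      rw [Finset.mem_Icc]
      refine ⟨s.min'_le k hk, ?_⟩
      have h4 := (h k hk).2
      have : (k:ℝ) ≤ (s.min' h0 : ℝ) + L := by linarith
      exact_mod_cast this
    calc s.card ≤ (Finset.Icc (s.min' h0) (s.min' h0 + L)).card := Finset.card_le_card h3
      _ = L + 1 := by rw [Nat.card_Icc]; omega

include hc in
lemma sum_inv_sq (i n : ℕ) :
    ∑ j ∈ range n, (if i < j then 5 / nu c j ^ 2 else 0) ≤ 5 / nu c i := by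
  have hi := nu_pos hc i
  have key : ∀ n, i < n → ∑ j ∈ range n, (if i < j then 5 / nu c j ^ 2 else 0) ≤
      5 / nu c i - 5 / nu c (n-1) := by
    intro n hn
    induction n, hn using Nat.le_induction with
    | base =>
      rw [Finset.sum_eq_zero]
      · simp
      · intro j hj
        rw [Finset.mem_range] at hj
        rw [if_neg (by omega)]
    | succ n hn ih =>
      have hin : i < n := hn
      rw [Finset.sum_range_succ, if_pos hin]
      have h1 : nu c n = nu c (n-1) + 1 := by
        rw [← nu_succ]; congr 1; omega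
      have h2 := nu_pos hc (n-1)
      have h3 : 5 / nu c n ^ 2 ≤ 5 / nu c (n-1) - 5 / nu c n := by
        rw [h1, div_sub_div _ _ h2.ne' (by linarith), div_le_div_iff₀ (by positivity)
          (by positivity)]
        nlinarith
      have h4 : n + 1 - 1 = n := by omega
      rw [h4]; linarith
  rcases Nat.lt_or_ge i n with h | h
  · have := key n h
    have h2 := nu_pos hc (n-1)
    have : 0 < 5 / nu c (n-1) := by positivity
    linarith
  · rw [Finset.sum_eq_zero]
    · positivity
    · intro j hj
      rw [Finset.mem_range] at hj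
      rw [if_neg (by omega)]

include hc in
lemma sum_below (i n : ℕ) :
    ∑ j ∈ range n, (if j < i then 5 / nu c i ^ 2 else 0) ≤ 5 / nu c i := by
  have hi := nu_pos hc i
  rw [← Finset.sum_filter, Finset.sum_const, nsmul_eq_mul]
  have h1 : ((range n).filter (fun j => j < i)).card ≤ i := by
    calc _ ≤ (range i).card := by
          apply Finset.card_le_card
          intro j hj
          rw [Finset.mem_filter] at hj
          exact Finset.mem_range.2 hj.2
      _ = i := Finset.card_range i
  have h2 : (((range n).filter (fun j => j < i)).card : ℝ) ≤ nu c i := by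
    have : (((range n).filter (fun j => j < i)).card : ℝ) ≤ i := by exact_mod_cast h1
    unfold nu; have : (0:ℝ) ≤ c := Nat.cast_nonneg c
    linarith
  calc _ ≤ nu c i * (5 / nu c i ^ 2) := mul_le_mul_of_nonneg_right h2 (by positivity)
    _ = 5 / nu c i := by field_simp

open Classical in
include hc hv in
lemma row_sum (i n : ℕ) : ∑ j ∈ range n, |EE v c i j| ≤ 66 / c := by
  have hvp := hv.pos
  have hi := nu_pos hc i
  have hcp : (0:ℝ) < c := by exact_mod_cast (show 0 < c by omega)
  have h1 : ∀ j ∈ range n, |EE v c i j| ≤ (if j = i then 2 / (c:ℝ) else 0) +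
      (if i < j then 5 / nu c j ^ 2 else 0) + (if j < i then 5 / nu c i ^ 2 else 0) +
      (if Win v c i j then 3 / (c:ℝ) else 0) + (if Win v c j i then 3 / (c:ℝ) else 0) := by
    intro j _
    have p1 : 0 ≤ (if Win v c i j then 3 / (c:ℝ) else 0) := by split_ifs <;> positivity
    have p2 : 0 ≤ (if Win v c j i then 3 / (c:ℝ) else 0) := by split_ifs <;> positivity
    rcases lt_trichotomy i j with h | h | h
    · have := EE_up hc hv h
      rw [if_neg h.ne', if_pos h, if_neg (by omega)]
      linarith
    · subst h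
      have := EE_diag hc hv i
      rw [if_pos rfl, if_neg (lt_irrefl _)]
      linarith
    · have := EE_up hc hv h
      rw [EE_symm] at this
      rw [if_neg h.ne, if_neg (by omega), if_pos h]
      linarith
  have h2 := Finset.sum_le_sum h1
  simp only [Finset.sum_add_distrib] at h2
  have b1 : ∑ j ∈ range n, (if j = i then 2 / (c:ℝ) else 0) ≤ 2 / c := by
    rw [Finset.sum_ite_eq' (range n) i]
    split_ifs
    · exact le_rfl
    · positivity
  have hnc : 1 / nu c i ≤ 1 / c := one_div_le_one_div_of_le hcp (c_le_nu c i)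
  have b2 := sum_inv_sq hc i n
  have b3 := sum_below hc i n
  have b23 : 5 / nu c i ≤ 5 / c := by
    rw [div_eq_mul_one_div, div_eq_mul_one_div 5 (c:ℝ)]
    exact mul_le_mul_of_nonneg_left hnc (by norm_num)
  have b4 : ∑ j ∈ range n, (if Win v c i j then 3 / (c:ℝ) else 0) ≤ 27 / c := by
    rw [← Finset.sum_filter, Finset.sum_const, nsmul_eq_mul]
    have h3 : ((range n).filter (fun j => Win v c i j)).card ≤ 8 + 1 := by
      apply card_window _ (nu c i / v - 5 - c)
      intro k hk
      rw [Finset.mem_filter] at hk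
      obtain ⟨_, hk1, hk2⟩ := hk
      unfold nu at hk1 hk2 ⊢
      push_cast
      constructor <;> linarith
    have h4 : (((range n).filter (fun j => Win v c i j)).card : ℝ) ≤ 9 := by exact_mod_cast h3
    calc _ ≤ 9 * (3 / (c:ℝ)) := mul_le_mul_of_nonneg_right h4 (by positivity)
      _ = 27 / c := by ring
  have b5 : ∑ j ∈ range n, (if Win v c j i then 3 / (c:ℝ) else 0) ≤ 27 / c := by
    rw [← Finset.sum_filter, Finset.sum_const, nsmul_eq_mul]
    have h3 : ((range n).filter (fun j => Win v c j i)).card ≤ 8 + 1 := by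
      apply card_window _ (v * (nu c i - 3) - c)
      intro k hk
      rw [Finset.mem_filter] at hk
      obtain ⟨_, hk1, hk2⟩ := hk
      have hk1' : nu c k ≤ v * (nu c i + 5) := by
        have : nu c k / v ≤ nu c i + 5 := by linarith
        rw [div_le_iff₀ hvp] at this; linarith
      have hk2' : v * (nu c i - 3) ≤ nu c k := by
        have : nu c i - 3 ≤ nu c k / v := by linarith
        rw [le_div_iff₀ hvp] at this; linarith
      have e : nu c k = (k:ℝ) + c := rfl
      push_cast
      constructor
      · linarith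
      · have := hv.lt_one; nlinarith
    have h4 : (((range n).filter (fun j => Win v c j i)).card : ℝ) ≤ 9 := by exact_mod_cast h3
    calc _ ≤ 9 * (3 / (c:ℝ)) := mul_le_mul_of_nonneg_right h4 (by positivity)
      _ = 27 / c := by ring
  have e : (66:ℝ) / c = 2 / c + 5 / c + 5 / c + 27 / c + 27 / c := by ring
  linarith

lemma schur (n : ℕ) (E : ℕ → ℕ → ℝ) (sym : ∀ i j, E i j = E j i) (M : ℝ)
    (hrow : ∀ i, ∑ j ∈ range n, |E i j| ≤ M) (x : ℕ → ℝ) :
    -(M * ∑ i ∈ range n, x i ^ 2) ≤ ∑ i ∈ range n, ∑ j ∈ range n, E i j * x i * x j := by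
  have h1 : ∀ i ∈ range n, ∀ j ∈ range n,
      -(|E i j| * x i ^ 2 / 2 + |E i j| * x j ^ 2 / 2) ≤ E i j * x i * x j := by
    intro i _ j _
    have h2 : |E i j * x i * x j| ≤ |E i j| * x i ^ 2 / 2 + |E i j| * x j ^ 2 / 2 := by
      rw [abs_mul, abs_mul]
      have h3 : 2 * (|x i| * |x j|) ≤ x i ^ 2 + x j ^ 2 := by
        nlinarith [sq_nonneg (|x i| - |x j|), sq_abs (x i), sq_abs (x j)]
      nlinarith [abs_nonneg (E i j)]
    linarith [neg_abs_le (E i j * x i * x j)]
  have h2 : ∑ i ∈ range n, ∑ j ∈ range n,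
      (-(|E i j| * x i ^ 2 / 2 + |E i j| * x j ^ 2 / 2)) ≤
      ∑ i ∈ range n, ∑ j ∈ range n, E i j * x i * x j :=
    Finset.sum_le_sum fun i hi => Finset.sum_le_sum fun j hj => h1 i hi j hj
  have h3 : ∑ i ∈ range n, ∑ j ∈ range n,
      (-(|E i j| * x i ^ 2 / 2 + |E i j| * x j ^ 2 / 2)) =
      - ∑ i ∈ range n, x i ^ 2 * ∑ j ∈ range n, |E i j| := by
    have e1 : ∑ i ∈ range n, ∑ j ∈ range n, |E i j| * x j ^ 2 / 2 =
        ∑ i ∈ range n, ∑ j ∈ range n, |E i j| * x i ^ 2 / 2 := by
      rw [Finset.sum_comm]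
      apply Finset.sum_congr rfl; intro i _
      apply Finset.sum_congr rfl; intro j _
      rw [sym j i]
    simp only [Finset.sum_neg_distrib, Finset.sum_add_distrib]
    rw [e1, ← Finset.sum_add_distrib]
    congr 1
    apply Finset.sum_congr rfl; intro i _
    rw [← Finset.sum_add_distrib, Finset.mul_sum]
    apply Finset.sum_congr rfl; intro j _
    ring
  rw [h3] at h2
  have h4 : ∑ i ∈ range n, x i ^ 2 * ∑ j ∈ range n, |E i j| ≤ M * ∑ i ∈ range n, x i ^ 2 := by
    rw [Finset.mul_sum]
    apply Finset.sum_le_sum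
    intro i _
    rw [mul_comm M]
    exact mul_le_mul_of_nonneg_left (hrow i) (sq_nonneg _)
  linarith

/-- the quadratic form of the Gram matrix -/
noncomputable def QQ (v : ℝ) (c n : ℕ) (x : ℕ → ℝ) : ℝ :=
  ∑ i ∈ range n, ∑ j ∈ range n, Gm (aa (be v) c) (rho (be v) c) (NN v c) i j * x i * x j

include hv in
lemma QQ_zero_sum (hc' : 2000 ≤ c) (n : ℕ) (x : ℕ → ℝ) (hx : ∑ i ∈ range n, x i = 0) :
    (1/20) * ∑ i ∈ range n, x i ^ 2 ≤ QQ v c n x := by
  have hc : 2 ≤ c := by omega
  have h1 := CTseq hc hv n x hx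
  have h2 := schur n (EE v c) EE_symm (66 / c) (fun i => row_sum hc hv i n) x
  have h3 : QQ v c n x = (∑ i ∈ range n, x i ^ 2) +
      2 * be v * (∑ i ∈ range n, ∑ j ∈ range n, kk v c i j * x i * x j) +
      ∑ i ∈ range n, ∑ j ∈ range n, EE v c i j * x i * x j := by
    have e1 : ∑ i ∈ range n, ∑ j ∈ range n, kk v c j i * x i * x j =
        ∑ i ∈ range n, ∑ j ∈ range n, kk v c i j * x i * x j := by
      rw [Finset.sum_comm]
      apply Finset.sum_congr rfl; intro i _
      apply Finset.sum_congr rfl; intro j _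
      ring
    have e2 : ∀ i j, Gm (aa (be v) c) (rho (be v) c) (NN v c) i j * x i * x j =
        (if i = j then 1 else 0) * x i * x j + (be v * (kk v c i j * x i * x j) +
        be v * (kk v c j i * x i * x j)) + EE v c i j * x i * x j := by
      intro i j; unfold EE; ring
    unfold QQ
    simp_rw [e2]
    simp only [Finset.sum_add_distrib, ← Finset.mul_sum]
    rw [e1]
    have e3 : ∑ i ∈ range n, ∑ j ∈ range n, (if i = j then (1:ℝ) else 0) * x i * x j =
        ∑ i ∈ range n, x i ^ 2 := by
      apply Finset.sum_congr rfl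
      intro i hi
      rw [Finset.sum_eq_single i]
      · rw [if_pos rfl]; ring
      · intro j _ hj
        rw [if_neg (Ne.symm hj)]; ring
      · intro h; exact absurd hi h
    rw [e3]; ring
  have hS : 0 ≤ ∑ i ∈ range n, x i ^ 2 := Finset.sum_nonneg fun i _ => sq_nonneg _
  have h4 : (66:ℝ) / c ≤ 1/20 := by
    have : (2000:ℝ) ≤ c := by exact_mod_cast hc'
    rw [div_le_div_iff₀ (by linarith) (by norm_num)]
    linarith
  have h5 : (66:ℝ) / c * ∑ i ∈ range n, x i ^ 2 ≤ 1/20 * ∑ i ∈ range n, x i ^ 2 :=
    mul_le_mul_of_nonneg_right h4 hS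
  rw [h3]
  linarith

include hc hv in
lemma rho_le_inv (i : ℕ) {K : ℕ} (hK : 0 < K) (h : K ≤ i) : rho (be v) c i ≤ 1 / K := by
  unfold rho
  have hK' : (0:ℝ) < K := by exact_mod_cast hK
  have h1 : (K:ℝ) ≤ i := by exact_mod_cast h
  have h2 : (0:ℝ) ≤ c := Nat.cast_nonneg c
  rw [div_le_div_iff₀ (nu_pos hc i) hK']
  have := be_lt hv
  have e : nu c i = (i:ℝ) + c := rfl
  nlinarith [be_pos hv]

include hv in
/-- **Positive definiteness of the Gram matrix.** -/
theorem QQ_ge (hc' : 2000 ≤ c) (n : ℕ) (x : ℕ → ℝ) :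
    (1/20) * ∑ i ∈ range n, x i ^ 2 ≤ QQ v c n x := by
  have hc : 2 ≤ c := by omega
  have S := sysNN hv hc
  set G := Gm (aa (be v) c) (rho (be v) c) (NN v c) with hG
  set T := ∑ i ∈ range n, x i with hT
  set A := ∑ i ∈ range n, |x i| with hA
  have hA0 : 0 ≤ A := Finset.sum_nonneg fun i _ => abs_nonneg _
  -- bound for all large K
  obtain ⟨K0, hK0⟩ : ∃ K0 : ℕ, ∀ i < n, NN v c i < K0 := by
    refine ⟨(range n).sup (NN v c) + 1, fun i hi => ?_⟩
    exact Nat.lt_succ_of_le (Finset.le_sup (f := NN v c) (Finset.mem_range.2 hi))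
  have main : ∀ K : ℕ, 0 < K → K0 ≤ K → n ≤ K →
      (1/20) * ∑ i ∈ range n, x i ^ 2 ≤ QQ v c n x + (2 * T ^ 2 + 2 * (A * |T|)) / K := by
    intro K hK hKK0 hnK
    have hKr : (0:ℝ) < K := by exact_mod_cast hK
    set x1 : ℕ → ℝ := fun k => if k < n then x k else 0 with hx1
    set z : ℕ → ℝ := fun k => if K ≤ k ∧ k < 2 * K then -(T / K) else 0 with hz
    have hsub : range n ⊆ range (2 * K) := Finset.range_subset_range.2 (by omega)
    have sum1 : ∀ f : ℝ → ℝ, f 0 = 0 → ∑ i ∈ range (2*K), f (x1 i) = ∑ i ∈ range n, f (x i) := by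
      intro f hf
      rw [← Finset.sum_subset hsub]
      · apply Finset.sum_congr rfl
        intro i hi
        rw [Finset.mem_range] at hi
        simp only [hx1, if_pos hi]
      · intro i _ hi
        rw [Finset.mem_range] at hi
        simp only [hx1, if_neg hi, hf]
    have sum2 : ∀ f : ℝ → ℝ, f 0 = 0 → ∑ i ∈ range (2*K), f (z i) = K * f (-(T/K)) := by
      intro f hf
      have h1 : ∑ i ∈ range (2*K), f (z i) = ∑ i ∈ Finset.Ico K (2*K), f (-(T/K)) := by
        have h2 : Finset.Ico K (2*K) ⊆ range (2*K) := by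
          intro i hi; rw [Finset.mem_Ico] at hi; exact Finset.mem_range.2 hi.2
        rw [← Finset.sum_subset h2]
        · apply Finset.sum_congr rfl
          intro i hi
          rw [Finset.mem_Ico] at hi
          simp only [hz, if_pos hi]
        · intro i _ hi
          rw [Finset.mem_Ico] at hi
          simp only [hz, if_neg hi, hf]
      rw [h1, Finset.sum_const, Nat.card_Ico, nsmul_eq_mul]
      congr 2
      omega
    have hzero : ∑ i ∈ range (2*K), (x1 i + z i) = 0 := by
      rw [Finset.sum_add_distrib]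
      have a1 := sum1 (fun t => t) rfl
      have a2 := sum2 (fun t => t) rfl
      rw [a1, a2, ← hT]; field_simp; ring
    have h1 := QQ_zero_sum hv hc' (2*K) (fun i => x1 i + z i) hzero
    have hsq : ∑ i ∈ range n, x i ^ 2 ≤ ∑ i ∈ range (2*K), (x1 i + z i) ^ 2 := by
      have a1 := sum1 (fun t => t ^ 2) (by norm_num)
      rw [← a1]
      apply Finset.sum_le_sum
      intro i _
      by_cases h : i < n
      · have : z i = 0 := by simp only [hz]; rw [if_neg (by omega)]
        rw [this, add_zero]
      · have : x1 i = 0 := by simp only [hx1]; rw [if_neg h]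
        rw [this]; nlinarith [sq_nonneg (z i)]
    have hpair : ∀ i ∈ range (2*K), ∀ j ∈ range (2*K),
        G i j * (x1 i + z i) * (x1 j + z j) ≤ G i j * x1 i * x1 j +
        (if i = j then z i ^ 2 else 0) + (1/K) * (|z i| * |z j|) + (1/K) * (|x1 i| * |z j|)
          + (1/K) * (|z i| * |x1 j|) := by
      intro i _ j _
      have small : ∀ i j : ℕ, i < j → NN v c i < K ∨ K ≤ i → K ≤ j → |G i j| ≤ 1 / K := by
        intro i j hij hor hj
        rcases hor with h | h
        · have : G i j = - rho (be v) c j := by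
            rw [hG, Gm_lt hij, Kup, if_neg (by omega), if_neg (by omega)]
          rw [this, abs_neg, abs_of_pos (S.rpos j)]
          exact rho_le_inv hc hv j hK hj
        · exact (S.Gm_abs_le i j hij).trans (rho_le_inv hc hv i hK h)
      have c1 : ∀ i j : ℕ, G i j * (x1 i * z j) ≤ (1/K) * (|x1 i| * |z j|) := by
        intro i j
        by_cases h1 : i < n
        · by_cases h2 : K ≤ j ∧ j < 2 * K
          · have hg := small i j (by omega) (Or.inl (lt_of_lt_of_le (hK0 i h1) hKK0)) h2.1
            calc G i j * (x1 i * z j) ≤ |G i j * (x1 i * z j)| := le_abs_self _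
              _ = |G i j| * (|x1 i| * |z j|) := by rw [abs_mul, abs_mul]
              _ ≤ _ := mul_le_mul_of_nonneg_right hg (by positivity)
          · have : z j = 0 := by simp only [hz]; rw [if_neg h2]
            rw [this]; simp
        · have : x1 i = 0 := by simp only [hx1]; rw [if_neg h1]
          rw [this]; simp
      have c2 : G i j * (z i * z j) ≤ (if i = j then z i ^ 2 else 0) + (1/K) * (|z i| * |z j|) := by
        by_cases h1 : K ≤ i ∧ i < 2 * K
        · by_cases h2 : K ≤ j ∧ j < 2 * K
          · rcases lt_trichotomy i j with h | h | h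
            · have hg := small i j h (Or.inr h1.1) h2.1
              rw [if_neg h.ne, zero_add]
              calc G i j * (z i * z j) ≤ |G i j * (z i * z j)| := le_abs_self _
                _ = |G i j| * (|z i| * |z j|) := by rw [abs_mul, abs_mul]
                _ ≤ _ := mul_le_mul_of_nonneg_right hg (by positivity)
            · subst h
              rw [if_pos rfl, hG, Gm_self]
              have : 0 ≤ (1/(K:ℝ)) * (|z i| * |z i|) := by positivity
              nlinarith
            · have hg := small j i h (Or.inr h2.1) h1.1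
              rw [if_neg h.ne', zero_add]
              calc G i j * (z i * z j) ≤ |G i j * (z i * z j)| := le_abs_self _
                _ = |G j i| * (|z i| * |z j|) := by
                    rw [abs_mul, abs_mul, hG, Gm_symm]
                _ ≤ _ := mul_le_mul_of_nonneg_right hg (by positivity)
          · have h3 : z j = 0 := by simp only [hz]; rw [if_neg h2]
            rw [h3]; simp only [mul_zero, abs_zero]
            split_ifs <;> nlinarith [sq_nonneg (z i)]
        · have h3 : z i = 0 := by simp only [hz]; rw [if_neg h1]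
          rw [h3]; simp
      have c3 := c1 i j
      have c4 := c1 j i
      have c5 : G j i = G i j := by rw [hG]; exact Gm_symm j i
      rw [c5] at c4
      have e1 : G i j * (x1 i + z i) * (x1 j + z j) = G i j * x1 i * x1 j + G i j * (x1 i * z j)
        + G i j * (x1 j * z i) + G i j * (z i * z j) := by ring
      rw [e1]
      have e2 : (1/(K:ℝ)) * (|x1 j| * |z i|) = (1/K) * (|z i| * |x1 j|) := by ring
      rw [e2] at c4
      linarith
    have h2 : QQ v c (2*K) (fun i => x1 i + z i) ≤ ∑ i ∈ range (2*K), ∑ j ∈ range (2*K),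
        (G i j * x1 i * x1 j +
        (if i = j then z i ^ 2 else 0) + (1/K) * (|z i| * |z j|) + (1/K) * (|x1 i| * |z j|)
          + (1/K) * (|z i| * |x1 j|)) := by
      unfold QQ
      exact Finset.sum_le_sum fun i hi => Finset.sum_le_sum fun j hj => hpair i hi j hj
    simp only [Finset.sum_add_distrib, ← Finset.mul_sum, ← Finset.sum_mul] at h2
    have s1 : ∑ i ∈ range (2*K), ∑ j ∈ range (2*K), G i j * x1 i * x1 j = QQ v c n x := by
      unfold QQ
      have : ∀ i, ∑ j ∈ range (2*K), G i j * x1 i * x1 j = ∑ j ∈ range n, G i j * x1 i * x j := by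
        intro i
        rw [← Finset.sum_subset hsub]
        · apply Finset.sum_congr rfl
          intro j hj
          rw [Finset.mem_range] at hj
          have : x1 j = x j := by simp only [hx1, if_pos hj]
          rw [this]
        · intro j _ hj
          rw [Finset.mem_range] at hj
          have : x1 j = 0 := by simp only [hx1, if_neg hj]
          rw [this, mul_zero]
      simp_rw [this]
      rw [← Finset.sum_subset hsub]
      · apply Finset.sum_congr rfl
        intro i hi
        rw [Finset.mem_range] at hi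
        have : x1 i = x i := by simp only [hx1, if_pos hi]
        rw [this]
      · intro i _ hi
        rw [Finset.mem_range] at hi
        have : x1 i = 0 := by simp only [hx1, if_neg hi]
        simp [this]
    have s2 : ∑ i ∈ range (2*K), ∑ j ∈ range (2*K), (if i = j then z i ^ 2 else 0) = T ^ 2 / K := by
      have a2 := sum2 (fun t => t ^ 2) (by norm_num)
      have : ∀ i ∈ range (2*K), ∑ j ∈ range (2*K), (if i = j then z i ^ 2 else 0) = z i ^ 2 := by
        intro i hi
        rw [Finset.sum_ite_eq (range (2*K)) i, if_pos hi]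
      rw [Finset.sum_congr rfl this, a2]; field_simp
    have s3 : ∑ i ∈ range (2*K), |z i| = |T| := by
      have a2 := sum2 (fun t => |t|) (by norm_num)
      rw [a2, abs_neg, abs_div, abs_of_pos hKr]; field_simp
    have s4 : ∑ i ∈ range (2*K), |x1 i| = A := sum1 (fun t => |t|) (by norm_num)
    rw [s1, s2, s3, s4] at h2
    have h3 : (1/20) * ∑ i ∈ range n, x i ^ 2 ≤ (1/20) * ∑ i ∈ range (2*K), (x1 i + z i) ^ 2 :=
      mul_le_mul_of_nonneg_left hsq (by norm_num)
    have h4 : QQ v c n x + T ^ 2 / K + 1 / K * (|T| * |T|) + 1 / K * (A * |T|)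
        + 1 / K * (|T| * A) = QQ v c n x + (2 * T ^ 2 + 2 * (A * |T|)) / K := by
      rw [show |T| * |T| = T ^ 2 by rw [← sq, sq_abs]]; ring
    linarith
  apply le_of_forall_pos_le_add
  intro ε hε
  obtain ⟨K1, hK1⟩ := exists_nat_gt ((2 * T ^ 2 + 2 * (A * |T|)) / ε)
  have hm := main (max (max K0 n) (max K1 1)) (by omega) (by omega) (by omega)
  set K := max (max K0 n) (max K1 1)
  have hKp : (0:ℝ) < K := by exact_mod_cast (show 0 < K by omega)
  have hKK : (K1:ℝ) ≤ K := by exact_mod_cast (show K1 ≤ K by omega)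
  have h5 : (2 * T ^ 2 + 2 * (A * |T|)) / K ≤ ε := by
    rw [div_le_iff₀ hKp]
    rw [div_lt_iff₀ hε] at hK1
    nlinarith
  linarith

end kk

end N298.PGA
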